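import Mathlib

/-! # Melzak's problem, prismatoids (helper74): isoperimetric inequalities for closed polygons -/

set_option autoImplicit false

namespace Pool.Agent.Work.MP_3892ce_gt.helper74

open Real Set Finset

/-- planar cross product -/
def cr (z w : ℂ) : ℝ := z.re * w.im - z.im * w.re

/-- signed area of the closed polygon `c 0, …, c (k-1), c k = c 0` -/
noncomputable def sh (k : ℕ) (c : ℕ → ℂ) : ℝ := (∑ j ∈ range k, cr (c j) (c (j + 1))) / 2

/-- perimeter -/
noncomputable def per (k : ℕ) (c : ℕ → ℂ) : ℝ := ∑ j ∈ range k, ‖c (j + 1) - c j‖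

lemma per_nonneg (k : ℕ) (c : ℕ → ℂ) : 0 ≤ per k c := sum_nonneg fun _ _ => norm_nonneg _

lemma cr_sq (z w : ℂ) : cr z w ^ 2 = ‖z‖ ^ 2 * ‖w‖ ^ 2 - (z.re * w.re + z.im * w.im) ^ 2 := by
  rw [← Complex.normSq_eq_norm_sq, ← Complex.normSq_eq_norm_sq, Complex.normSq_apply,
    Complex.normSq_apply]
  simp only [cr]; ring

lemma cr_le (z w : ℂ) : cr z w ≤ ‖z‖ * ‖w‖ := by
  have h := cr_sq z w
  have h1 : cr z w ^ 2 ≤ (‖z‖ * ‖w‖) ^ 2 := by
    rw [h, mul_pow]; nlinarith [sq_nonneg (z.re * w.re + z.im * w.im)]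
  exact (abs_le_of_sq_le_sq' h1 (by positivity)).2

lemma sh_one {c : ℕ → ℂ} (hc : c 1 = c 0) : sh 1 c = 0 := by
  simp [sh, hc, cr]; ring

lemma sh_two {c : ℕ → ℂ} (hc : c 2 = c 0) : sh 2 c = 0 := by
  simp [sh, Finset.sum_range_succ, hc, cr]; ring

lemma amgm3 {x y z : ℝ} (hx : 0 ≤ x) (hy : 0 ≤ y) (hz : 0 ≤ z) :
    27 * (x * y * z) ≤ (x + y + z) ^ 3 := by
  nlinarith [mul_nonneg hx (sq_nonneg (y - z)), mul_nonneg hy (sq_nonneg (x - z)),
    mul_nonneg hz (sq_nonneg (x - y)), mul_nonneg (add_nonneg (add_nonneg hx hy) hz)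
    (add_nonneg (add_nonneg (sq_nonneg (x - y)) (sq_nonneg (y - z))) (sq_nonneg (x - z)))]

/-- triangles -/
lemma sh_three {c : ℕ → ℂ} (hc : c 3 = c 0) : sh 3 c ≤ per 3 c ^ 2 / (12 * √3) := by
  set e := c 1 - c 0 with he
  set f := c 2 - c 1 with hf
  set g := c 0 - c 2 with hg
  have hsh : sh 3 c = cr e f / 2 := by
    simp only [sh, Finset.sum_range_succ, Finset.sum_range_zero, zero_add, hc, he, hf, cr,
      Complex.sub_re, Complex.sub_im, Nat.reduceAdd]
    ring
  have hper : per 3 c = ‖e‖ + ‖f‖ + ‖g‖ := by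
    simp only [per, Finset.sum_range_succ, Finset.sum_range_zero, zero_add, hc, he, hf, hg,
      Nat.reduceAdd]
  have hefg : g = -(e + f) := by rw [he, hf, hg]; ring
  set a := ‖e‖ with ha
  set b := ‖f‖ with hb
  set d := ‖g‖ with hd
  have ha0 : 0 ≤ a := norm_nonneg _
  have hb0 : 0 ≤ b := norm_nonneg _
  have hd0 : 0 ≤ d := norm_nonneg _
  have t1 : d ≤ a + b := by rw [hd, hefg, norm_neg]; exact norm_add_le _ _
  have t2 : a ≤ b + d := by
    have : e = -(f + g) := by rw [hefg]; ring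
    rw [ha, this, norm_neg]; exact norm_add_le _ _
  have t3 : b ≤ d + a := by
    have : f = -(g + e) := by rw [hefg]; ring
    rw [hb, this, norm_neg]; exact norm_add_le _ _
  have hin : d ^ 2 = a ^ 2 + b ^ 2 + 2 * (e.re * f.re + e.im * f.im) := by
    rw [hd, ha, hb, ← Complex.normSq_eq_norm_sq, ← Complex.normSq_eq_norm_sq,
      ← Complex.normSq_eq_norm_sq, hefg, Complex.normSq_neg, Complex.normSq_apply,
      Complex.normSq_apply, Complex.normSq_apply, Complex.add_re, Complex.add_im]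
    ring
  have hcr := cr_sq e f
  rw [← ha, ← hb] at hcr
  have h4 : 4 * cr e f ^ 2 = (a + b + d) * ((a + b - d) * (b + d - a) * (d + a - b)) := by
    have : e.re * f.re + e.im * f.im = (d ^ 2 - a ^ 2 - b ^ 2) / 2 := by linarith
    rw [hcr, this]; ring
  have h5 := amgm3 (x := a + b - d) (y := b + d - a) (z := d + a - b) (by linarith) (by linarith)
    (by linarith)
  have h6 : (a + b - d) + (b + d - a) + (d + a - b) = a + b + d := by ring
  rw [h6] at h5
  have h7 : 108 * cr e f ^ 2 ≤ (a + b + d) ^ 4 := by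
    have := mul_le_mul_of_nonneg_left h5 (by positivity : 0 ≤ a + b + d)
    nlinarith
  have hs3 : √3 ^ 2 = 3 := Real.sq_sqrt (by norm_num)
  have hs0 : 0 < √3 := Real.sqrt_pos.2 (by norm_num)
  rw [hsh, hper, le_div_iff₀ (by positivity)]
  have h8 : (cr e f / 2 * (12 * √3)) ^ 2 ≤ ((a + b + d) ^ 2) ^ 2 := by
    have : (cr e f / 2 * (12 * √3)) ^ 2 = 36 * cr e f ^ 2 * √3 ^ 2 := by ring
    rw [this, hs3]; nlinarith
  exact (abs_le_of_sq_le_sq' h8 (by positivity)).2

/-- quadrilaterals -/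
lemma sh_four {c : ℕ → ℂ} (hc : c 4 = c 0) : sh 4 c ≤ per 4 c ^ 2 / 16 := by
  set e0 := c 1 - c 0 with h0
  set e1 := c 2 - c 1 with h1
  set e2 := c 3 - c 2 with h2
  set e3 := c 0 - c 3 with h3
  have hs1 : sh 4 c = (cr e0 e1 + cr e2 e3) / 2 := by
    simp only [sh, Finset.sum_range_succ, Finset.sum_range_zero, zero_add, hc, h0, h1, h2, h3, cr,
      Complex.sub_re, Complex.sub_im, Nat.reduceAdd]
    ring
  have hs2 : sh 4 c = (cr e1 e2 + cr e3 e0) / 2 := by
    simp only [sh, Finset.sum_range_succ, Finset.sum_range_zero, zero_add, hc, h0, h1, h2, h3, cr,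
      Complex.sub_re, Complex.sub_im, Nat.reduceAdd]
    ring
  have hper : per 4 c = ‖e0‖ + ‖e1‖ + ‖e2‖ + ‖e3‖ := by
    simp only [per, Finset.sum_range_succ, Finset.sum_range_zero, zero_add, hc, h0, h1, h2, h3,
      Nat.reduceAdd]
  have a1 := cr_le e0 e1
  have a2 := cr_le e2 e3
  have a3 := cr_le e1 e2
  have a4 := cr_le e3 e0
  rw [hper]
  have : 4 * sh 4 c ≤ (‖e0‖ + ‖e2‖) * (‖e1‖ + ‖e3‖) := by nlinarith
  nlinarith [sq_nonneg ((‖e0‖ + ‖e2‖) - (‖e1‖ + ‖e3‖))]

/-! ### the general isoperimetric inequality (E. Schmidt's proof) -/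

/-- primitive of the half circle -/
noncomputable def FF (r x : ℝ) : ℝ := ∫ t in (0 : ℝ)..x, √(r ^ 2 - t ^ 2)

lemma cont_half (r : ℝ) : Continuous fun t : ℝ => √(r ^ 2 - t ^ 2) := by fun_prop

lemma FF_sub (r x y : ℝ) : FF r y - FF r x = ∫ t in x..y, √(r ^ 2 - t ^ 2) := by
  unfold FF
  exact intervalIntegral.integral_interval_sub_left ((cont_half r).intervalIntegrable _ _)
    ((cont_half r).intervalIntegrable _ _)

lemma FF_diff {r : ℝ} (hr : 0 < r) : FF r r - FF r (-r) = π * r ^ 2 / 2 := by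
  rw [FF_sub]
  have h1 := intervalIntegral.smul_integral_comp_mul_left (a := -1) (b := 1)
    (fun t : ℝ => √(r ^ 2 - t ^ 2)) r
  rw [mul_neg, mul_one] at h1
  rw [← h1]
  have h2 : ∀ x : ℝ, √(r ^ 2 - (r * x) ^ 2) = r * √(1 - x ^ 2) := by
    intro x
    rw [show r ^ 2 - (r * x) ^ 2 = r ^ 2 * (1 - x ^ 2) by ring, Real.sqrt_mul (by positivity),
      Real.sqrt_sq hr.le]
  simp only [h2]
  rw [intervalIntegral.integral_const_mul, integral_sqrt_one_sub_sq, smul_eq_mul]
  ring

/-- the inequality on one edge -/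
lemma edge_ineq {r : ℝ} (hr : 0 < r) {p q : ℂ} (hp : |p.re| ≤ r) (hq : |q.re| ≤ r) {σ : ℝ}
    (hσ : σ ^ 2 = 1) :
    (p.re + q.re) / 2 * (q.im - p.im) - σ * (FF r q.re - FF r p.re) ≤ r * ‖q - p‖ := by
  set Δx := q.re - p.re with hΔx
  set Δy := q.im - p.im with hΔy
  have hn : ‖q - p‖ = √(Δx ^ 2 + Δy ^ 2) := by
    rw [Complex.norm_eq_sqrt_sq_add_sq]; simp [hΔx, hΔy]
  -- the two integrals
  have i1 : ∫ s in (0 : ℝ)..1, (p.re + Δx * s) * Δy = (p.re + q.re) / 2 * Δy := by
    rw [intervalIntegral.integral_mul_const, intervalIntegral.integral_add (by simp)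
      (by apply Continuous.intervalIntegrable; fun_prop), intervalIntegral.integral_const_mul,
      integral_id, intervalIntegral.integral_const]
    simp only [sub_zero, one_smul, hΔx]
    ring
  have i2 : ∫ s in (0 : ℝ)..1, σ * (Δx * √(r ^ 2 - (p.re + Δx * s) ^ 2)) =
      σ * (FF r q.re - FF r p.re) := by
    rw [intervalIntegral.integral_const_mul, intervalIntegral.integral_const_mul]
    have := intervalIntegral.smul_integral_comp_add_mul (a := 0) (b := 1)
      (fun t : ℝ => √(r ^ 2 - t ^ 2)) Δx p.re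
    rw [smul_eq_mul] at this
    rw [this, FF_sub]
    congr 2
    · ring
    · rw [hΔx]; ring
  have hc1 : Continuous fun s : ℝ => (p.re + Δx * s) * Δy := by fun_prop
  have hc2 : Continuous fun s : ℝ => σ * (Δx * √(r ^ 2 - (p.re + Δx * s) ^ 2)) := by fun_prop
  rw [← i1, ← i2, ← intervalIntegral.integral_sub (hc1.intervalIntegrable _ _)
    (hc2.intervalIntegrable _ _)]
  have hle : ∫ s in (0 : ℝ)..1, ((p.re + Δx * s) * Δy - σ * (Δx * √(r ^ 2 - (p.re + Δx * s) ^ 2))) ≤
      ∫ _ in (0 : ℝ)..1, r * ‖q - p‖ := by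
    refine intervalIntegral.integral_mono_on zero_le_one ((hc1.sub hc2).intervalIntegrable _ _)
      (by simp) fun s hs => ?_
    set x := p.re + Δx * s with hx
    have hxr : |x| ≤ r := by
      have e : x = (1 - s) * p.re + s * q.re := by rw [hx, hΔx]; ring
      have b1 := abs_le.1 hp
      have b2 := abs_le.1 hq
      rw [abs_le, e]
      constructor
      · nlinarith [hs.1, hs.2, mul_nonneg hs.1 (by linarith [b2.1] : 0 ≤ q.re + r),
          mul_nonneg (by linarith [hs.2] : 0 ≤ 1 - s) (by linarith [b1.1] : 0 ≤ p.re + r)]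
      · nlinarith [hs.1, hs.2, mul_nonneg hs.1 (by linarith [b2.2] : 0 ≤ r - q.re),
          mul_nonneg (by linarith [hs.2] : 0 ≤ 1 - s) (by linarith [b1.2] : 0 ≤ r - p.re)]
    have hx2 : x ^ 2 ≤ r ^ 2 := by
      rw [← sq_abs x]; exact pow_le_pow_left₀ (abs_nonneg _) hxr 2
    set w := √(r ^ 2 - x ^ 2) with hw
    have hw2 : w ^ 2 = r ^ 2 - x ^ 2 := Real.sq_sqrt (by linarith)
    rw [hn]
    have hD : 0 ≤ Δx ^ 2 + Δy ^ 2 := by positivity
    have key : (x * Δy - σ * (Δx * w)) ^ 2 ≤ (r * √(Δx ^ 2 + Δy ^ 2)) ^ 2 := by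
      rw [mul_pow, Real.sq_sqrt hD]
      have : r ^ 2 = x ^ 2 + w ^ 2 := by linarith
      rw [this]
      nlinarith [sq_nonneg (x * Δx + σ * w * Δy), hσ, sq_nonneg (w * Δx), sq_nonneg (w * Δy)]
    exact (abs_le_of_sq_le_sq' key (by positivity)).2
  refine hle.trans ?_
  simp

/-- partial sums -/
lemma part_ineq {r : ℝ} (hr : 0 < r) {c : ℕ → ℂ} (hc : ∀ j, |(c j).re| ≤ r) {σ : ℝ}
    (hσ : σ ^ 2 = 1) {m n : ℕ} (hmn : m ≤ n) :
    ∑ j ∈ Ico m n, ((c j).re + (c (j + 1)).re) / 2 * ((c (j + 1)).im - (c j).im) -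
      σ * (FF r (c n).re - FF r (c m).re) ≤ r * ∑ j ∈ Ico m n, ‖c (j + 1) - c j‖ := by
  induction n, hmn using Nat.le_induction with
  | base => simp
  | succ n hmn ih =>
    rw [Finset.sum_Ico_succ_top hmn, Finset.sum_Ico_succ_top hmn]
    have := edge_ineq hr (hc n) (hc (n + 1)) hσ
    linarith

lemma sh_eq {k : ℕ} {c : ℕ → ℂ} (hk : c k = c 0) :
    sh k c = ∑ j ∈ range k, ((c j).re + (c (j + 1)).re) / 2 * ((c (j + 1)).im - (c j).im) := by
  have h1 : ∀ n, (∑ j ∈ range n, ((c j).re + (c (j + 1)).re) / 2 * ((c (j + 1)).im - (c j).im)) =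
      (∑ j ∈ range n, cr (c j) (c (j + 1))) / 2 +
        ((c n).re * (c n).im - (c 0).re * (c 0).im) / 2 := by
    intro n
    induction n with
    | zero => simp
    | succ n ih =>
      rw [Finset.sum_range_succ, Finset.sum_range_succ, ih, cr]
      ring
  rw [h1 k, hk, sh]
  ring

lemma sh_translate {k : ℕ} {c : ℕ → ℂ} (hk : c k = c 0) (o : ℂ) :
    sh k (fun j => c j - o) = sh k c := by
  have h1 : ∀ n, (∑ j ∈ range n, cr (c j - o) (c (j + 1) - o)) =
      (∑ j ∈ range n, cr (c j) (c (j + 1))) - cr o (c n - c 0) := by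
    intro n
    induction n with
    | zero => simp [cr]
    | succ n ih =>
      rw [Finset.sum_range_succ, Finset.sum_range_succ, ih]
      simp only [cr, Complex.sub_re, Complex.sub_im]
      ring
  unfold sh
  rw [h1 k, hk]
  simp [cr]

/-- Schmidt's inequality: a closed polygon in the strip `|re| ≤ r` which touches both sides -/
theorem schmidt {k : ℕ} {d : ℕ → ℂ} (hdk : d k = d 0) {r : ℝ} (h0 : 0 < r)
    (hdre : ∀ j, |(d j).re| ≤ r) {jM jm : ℕ} (hkM : jM ≤ k) (hkm : jm ≤ k)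
    (hdM : (d jM).re = r) (hdm : (d jm).re = -r) : sh k d + π * r ^ 2 ≤ r * per k d := by
  have hF := FF_diff h0
  rw [sh_eq hdk, per, Finset.range_eq_Ico]
  rcases le_total jM jm with h | h
  · have p1 := part_ineq h0 hdre (σ := -1) (by norm_num) (Nat.zero_le jM)
    have p2 := part_ineq h0 hdre (σ := 1) (by norm_num) h
    have p3 := part_ineq h0 hdre (σ := -1) (by norm_num) hkm
    rw [← Finset.sum_Ico_consecutive _ (Nat.zero_le jM) hkM,
      ← Finset.sum_Ico_consecutive _ h hkm,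
      ← Finset.sum_Ico_consecutive (fun j => ‖d (j + 1) - d j‖) (Nat.zero_le jM) hkM,
      ← Finset.sum_Ico_consecutive (fun j => ‖d (j + 1) - d j‖) h hkm]
    rw [hdM] at p1 p2
    rw [hdm] at p2 p3
    rw [hdk] at p3
    linarith
  · have p1 := part_ineq h0 hdre (σ := 1) (by norm_num) (Nat.zero_le jm)
    have p2 := part_ineq h0 hdre (σ := -1) (by norm_num) h
    have p3 := part_ineq h0 hdre (σ := 1) (by norm_num) hkM
    rw [← Finset.sum_Ico_consecutive _ (Nat.zero_le jm) hkm,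
      ← Finset.sum_Ico_consecutive _ h hkM,
      ← Finset.sum_Ico_consecutive (fun j => ‖d (j + 1) - d j‖) (Nat.zero_le jm) hkm,
      ← Finset.sum_Ico_consecutive (fun j => ‖d (j + 1) - d j‖) h hkM]
    rw [hdm] at p1 p2
    rw [hdM] at p2 p3
    rw [hdk] at p3
    linarith

theorem isoper {k : ℕ} (hk0 : 0 < k) {c : ℕ → ℂ} (hk : c k = c 0)
    (hper : ∀ j, c (j + k) = c j) : sh k c ≤ per k c ^ 2 / (4 * π) := by
  -- extreme abscissas
  obtain ⟨jM, hjM, hM⟩ := (range k).exists_max_image (fun j => (c j).re)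
    ⟨0, Finset.mem_range.2 hk0⟩
  obtain ⟨jm, hjm, hm⟩ := (range k).exists_min_image (fun j => (c j).re)
    ⟨0, Finset.mem_range.2 hk0⟩
  have hmod : ∀ j, c j = c (j % k) := by
    intro j
    induction j using Nat.strong_induction_on with
    | _ j ih =>
      rcases lt_or_ge j k with h | h
      · rw [Nat.mod_eq_of_lt h]
      · obtain ⟨i, rfl⟩ := Nat.exists_eq_add_of_le h
        rw [add_comm k i, hper, ih i (by omega), Nat.add_mod_right]
  have hMall : ∀ j, (c j).re ≤ (c jM).re := fun j => by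
    rw [hmod j]; exact hM _ (Finset.mem_range.2 (Nat.mod_lt _ hk0))
  have hmall : ∀ j, (c jm).re ≤ (c j).re := fun j => by
    rw [hmod j]; exact hm _ (Finset.mem_range.2 (Nat.mod_lt _ hk0))
  set o : ℂ := (⟨((c jM).re + (c jm).re) / 2, 0⟩ : ℂ) with ho
  set r := ((c jM).re - (c jm).re) / 2 with hr
  have hr0 : 0 ≤ r := by rw [hr]; linarith [hMall jm]
  have hpi := Real.pi_pos
  set d : ℕ → ℂ := fun j => c j - o with hd
  have hdk : d k = d 0 := by simp [hd, hk]
  have hshd : sh k c = sh k d := (sh_translate hk o).symm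
  have hperd : per k c = per k d := by simp [per, hd]
  have hore : o.re = ((c jM).re + (c jm).re) / 2 := by rw [ho]
  have hdre : ∀ j, |(d j).re| ≤ r := by
    intro j
    have h1 := hMall j
    have h2 := hmall j
    simp only [hd, Complex.sub_re, hore, hr, abs_le]
    constructor <;> linarith
  rcases eq_or_lt_of_le hr0 with h0 | h0
  · -- degenerate case
    have hz : ∀ j, (d j).re = 0 := fun j => by
      have := hdre j
      rw [← h0] at this
      exact abs_eq_zero.1 (le_antisymm this (abs_nonneg _))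
    have : sh k d = 0 := by
      rw [sh_eq hdk]
      apply Finset.sum_eq_zero
      intro j _
      rw [hz, hz]; ring
    rw [hshd, this]
    positivity
  · have hdM : (d jM).re = r := by simp only [hd, Complex.sub_re, hore, hr]; ring
    have hdm : (d jm).re = -r := by simp only [hd, Complex.sub_re, hore, hr]; ring
    have hkM : jM ≤ k := (Finset.mem_range.1 hjM).le
    have hkm : jm ≤ k := (Finset.mem_range.1 hjm).le
    have main : sh k d + π * r ^ 2 ≤ r * per k d := schmidt hdk h0 hdre hkM hkm hdM hdm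
    rw [hshd, hperd, le_div_iff₀ (by positivity)]
    nlinarith [sq_nonneg (per k d - 2 * π * r)]

end Pool.Agent.Work.MP_3892ce_gt.helper74
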