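import Pool.Agent.Work.MP_3892ce_helper74.Sweep2
import Pool.Agent.Work.MP_3892ce_helper74.Iso

/-! # Melzak's problem, prismatoids (helper74): area of the sections -/

set_option autoImplicit false

namespace Pool.Agent.Work.MP_3892ce_gt.helper74

open Real Set MeasureTheory

/-! ### area of a triangle -/

/-- the standard triangle -/
def T0 : Set ℂ := {z | 0 ≤ z.re ∧ 0 ≤ z.im ∧ z.re + z.im ≤ 1}

lemma volume_T0 : volume T0 = ENNReal.ofReal (1 / 2) := by
  have h0 : IsClosed T0 := by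
    have a1 : IsClosed {z : ℂ | 0 ≤ z.re} := isClosed_le continuous_const Complex.continuous_re
    have a2 : IsClosed {z : ℂ | 0 ≤ z.im} := isClosed_le continuous_const Complex.continuous_im
    have a3 : IsClosed {z : ℂ | z.re + z.im ≤ 1} :=
      isClosed_le (Complex.continuous_re.add Complex.continuous_im) continuous_const
    have : T0 = {z : ℂ | 0 ≤ z.re} ∩ ({z : ℂ | 0 ≤ z.im} ∩ {z : ℂ | z.re + z.im ≤ 1}) := by
      ext z; simp [T0]
    rw [this]
    exact a1.inter (a2.inter a3)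
  have hmp := Complex.volume_preserving_equiv_real_prod.symm
  have h1 : volume T0 = volume (Complex.measurableEquivRealProd.symm ⁻¹' T0) :=
    (hmp.measure_preimage_equiv T0).symm
  rw [h1, Measure.volume_eq_prod, Measure.prod_apply
    (Complex.measurableEquivRealProd.symm.measurable h0.measurableSet)]
  have h2 : ∀ x : ℝ, volume (Prod.mk x ⁻¹' (Complex.measurableEquivRealProd.symm ⁻¹' T0)) =
      (Icc (0 : ℝ) 1).indicator (fun x => ENNReal.ofReal (1 - x)) x := by
    intro x
    by_cases hx : x ∈ Icc (0 : ℝ) 1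
    · rw [Set.indicator_of_mem hx]
      have : (Prod.mk x ⁻¹' (Complex.measurableEquivRealProd.symm ⁻¹' T0)) = Icc 0 (1 - x) := by
        ext y
        simp only [mem_preimage, T0, mem_ofPred_eq, mem_Icc,
          Complex.measurableEquivRealProd_symm_apply]
        constructor
        · rintro ⟨_, h2, h3⟩
          exact ⟨h2, by linarith⟩
        · rintro ⟨h2, h3⟩
          exact ⟨hx.1, h2, by linarith⟩
      rw [this, Real.volume_Icc, sub_zero]
    · rw [Set.indicator_of_notMem hx]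
      have : (Prod.mk x ⁻¹' (Complex.measurableEquivRealProd.symm ⁻¹' T0)) = ∅ := by
        ext y
        simp only [mem_preimage, T0, mem_ofPred_eq, mem_empty_iff_false, iff_false,
          Complex.measurableEquivRealProd_symm_apply]
        rintro ⟨h1, h2, h3⟩
        exact hx ⟨h1, by linarith⟩
      rw [this, measure_empty]
  simp only [h2]
  rw [lintegral_indicator measurableSet_Icc, ← ofReal_integral_eq_lintegral_ofReal]
  · congr 1
    rw [integral_Icc_eq_integral_Ioc, ← intervalIntegral.integral_of_le zero_le_one,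
      intervalIntegral.integral_sub (by simp) (by simp), integral_id,
      intervalIntegral.integral_const]
    norm_num
  · exact (Continuous.integrableOn_Icc (by fun_prop))
  · refine (ae_restrict_iff' measurableSet_Icc).2 (Filter.Eventually.of_forall fun x hx => ?_)
    simp only [Pi.zero_apply]
    linarith [hx.2]

/-- real-linear map of the plane with columns `p`, `q` -/
noncomputable def lin (p q : ℂ) : ℂ →ₗ[ℝ] ℂ where
  toFun z := z.re • p + z.im • q
  map_add' x y := by
    simp only [Complex.add_re, Complex.add_im, add_smul]; abel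
  map_smul' c x := by
    simp only [Complex.real_smul, Complex.mul_re, Complex.mul_im, Complex.ofReal_re,
      Complex.ofReal_im, RingHom.id_apply, zero_mul, sub_zero, add_zero]
    push_cast
    ring

lemma lin_apply (p q z : ℂ) : lin p q z = z.re • p + z.im • q := rfl

lemma det_lin (p q : ℂ) : LinearMap.det (lin p q) = cr p q := by
  rw [← LinearMap.det_toMatrix Complex.basisOneI, Matrix.det_fin_two]
  simp only [LinearMap.toMatrix_apply, Complex.coe_basisOneI_repr, lin_apply,
    Complex.coe_basisOneI, Matrix.cons_val_zero, Matrix.cons_val_one, Complex.one_re,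
    Complex.one_im, Complex.I_re, Complex.I_im, one_smul, zero_smul, add_zero, zero_add, cr]
  ring

/-- the triangle with vertices `o`, `p`, `q` -/
def tri (o p q : ℂ) : Set ℂ :=
  {x | ∃ l m : ℝ, 0 ≤ l ∧ 0 ≤ m ∧ l + m ≤ 1 ∧ x = o + (l • (p - o) + m • (q - o))}

lemma volume_tri (o p q : ℂ) : volume (tri o p q) = ENNReal.ofReal (|cr (p - o) (q - o)| / 2) := by
  have e : tri o p q = (fun x => o + x) '' ((lin (p - o) (q - o)) '' T0) := by
    ext x
    simp only [tri, mem_ofPred_eq, mem_image, exists_exists_and_eq_and, T0, lin_apply]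
    constructor
    · rintro ⟨l, m, hl, hm, hlm, rfl⟩
      exact ⟨⟨l, m⟩, ⟨hl, hm, hlm⟩, rfl⟩
    · rintro ⟨z, ⟨h1, h2, h3⟩, rfl⟩
      exact ⟨z.re, z.im, h1, h2, h3, rfl⟩
  rw [e, Set.image_add_left, measure_preimage_add, Measure.addHaar_image_linearMap, det_lin,
    volume_T0, ← ENNReal.ofReal_mul (abs_nonneg _)]
  congr 1
  ring

/-! ### sections -/

lemma cr_val (θ : ℝ) (z w : ℂ) : cr z w = val θ z * dval θ w - dval θ z * val θ w := by
  simp only [cr, val, dval]
  linear_combination (-(z.re * w.im - z.im * w.re)) * (Real.sin_sq_add_cos_sq θ)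

/-- cross product with `w` is a multiple of some `val` -/
lemma exists_dir {w : ℂ} (hw : w ≠ 0) : ∃ φ : ℝ, ∀ z, cr z w = ‖w‖ * val φ z := by
  have h1 : ‖(⟨w.im, -w.re⟩ : ℂ)‖ = ‖w‖ := by
    rw [Complex.norm_eq_sqrt_sq_add_sq, Complex.norm_eq_sqrt_sq_add_sq]
    congr 1
    ring
  refine ⟨Complex.arg ⟨w.im, -w.re⟩, fun z => ?_⟩
  have h2 := Complex.norm_mul_cos_arg (⟨w.im, -w.re⟩ : ℂ)
  have h3 := Complex.norm_mul_sin_arg (⟨w.im, -w.re⟩ : ℂ)
  rw [h1] at h2 h3
  simp only at h2 h3
  simp only [cr, val]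
  linear_combination (-z.re) * h2 - z.im * h3

namespace Sw

variable {A B : Finset ℂ} (S : Sw A B)

/-- vertices of the section -/
noncomputable def c (s : ℝ) (j : ℕ) : ℂ := (1 - s) • S.a j + s • S.b j

lemma c_per (s : ℝ) (j : ℕ) : S.c s (j + S.k) = S.c s j := by
  simp only [c, S.aper, S.bper]

lemma c_k (s : ℝ) : S.c s S.k = S.c s 0 := by
  have := S.c_per s 0
  rwa [zero_add] at this

lemma c_mod (s : ℝ) (j : ℕ) : S.c s (j % S.k) = S.c s j := by
  induction j using Nat.strong_induction_on with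
  | _ j ih =>
    rcases lt_or_ge j S.k with h | h
    · rw [Nat.mod_eq_of_lt h]
    · obtain ⟨i, rfl⟩ := Nat.exists_eq_add_of_le h
      rw [add_comm S.k i, c_per, Nat.add_mod_right, ih i (by have := S.hk; omega)]

lemma c_step (s : ℝ) (j : ℕ) :
    S.c s (j + 1) - S.c s j = (1 - s) • (S.a (j + 1) - S.a j) + s • (S.b (j + 1) - S.b j) := by
  simp only [c, smul_sub]; abel

lemma val_c_step (s : ℝ) (j : ℕ) : val (S.t (j + 1)) (S.c s (j + 1) - S.c s j) = 0 := by
  rw [c_step, val_add, val_smul, val_smul, val_a, val_b]; ring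

lemma dval_c_step (s : ℝ) (j : ℕ) :
    dval (S.t (j + 1)) (S.c s (j + 1) - S.c s j) = (1 - s) * S.α j + s * S.β j := by
  rw [c_step, dval_add, dval_smul, dval_smul]; rfl

/-- the section at parameter `s` (outer description) -/
def Sec (s : ℝ) : Set ℂ :=
  {z | ∀ j, ∀ θ ∈ Icc (S.t j) (S.t (j + 1)), val θ z ≤ val θ (S.c s j)}

/-- an interior point of the sections -/
lemma exists_center (hA : ∃ p ∈ A, ∃ q ∈ A, ∃ r ∈ A, cr (q - p) (r - p) ≠ 0) {s : ℝ}
    (hs0 : 0 ≤ s) (hs1 : s < 1) :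
    ∃ o : ℂ, ∀ j, ∀ θ ∈ Icc (S.t j) (S.t (j + 1)), val θ o < val θ (S.c s j) := by
  obtain ⟨p, hp, q, hq, r, hr, hne⟩ := hA
  refine ⟨(1 - s) • ((1 / 3 : ℝ) • (p + q + r)) + s • S.b 0, fun j θ hθ => ?_⟩
  have h1 := S.wa j θ hθ p hp
  have h2 := S.wa j θ hθ q hq
  have h3 := S.wa j θ hθ r hr
  have h4 := S.wb j θ hθ _ (S.b_mem 0)
  have h5 : ¬ (val θ p = val θ (S.a j) ∧ val θ q = val θ (S.a j) ∧ val θ r = val θ (S.a j)) := by
    rintro ⟨e1, e2, e3⟩
    apply hne
    rw [cr_val θ, val_sub, val_sub, e1, e2, e3]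
    ring
  have h6 : val θ p + val θ q + val θ r < 3 * val θ (S.a j) := by
    by_contra hcon
    push Not at hcon
    exact h5 ⟨by linarith, by linarith, by linarith⟩
  simp only [c, val_add, val_smul]
  nlinarith [mul_lt_mul_of_pos_left h6 (sub_pos.2 hs1), mul_le_mul_of_nonneg_left h4 hs0]

lemma D_pos {s : ℝ} (hs0 : 0 < s) (hs1 : s < 1) {o : ℂ}
    (ho : ∀ j, ∀ θ ∈ Icc (S.t j) (S.t (j + 1)), val θ o < val θ (S.c s j)) (j : ℕ) :
    0 < cr (S.c s j - o) (S.c s (j + 1) - o) := by
  have e : cr (S.c s j - o) (S.c s (j + 1) - o) =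
      cr (S.c s j - o) (S.c s (j + 1) - S.c s j) := by
    simp only [cr, Complex.sub_re, Complex.sub_im]; ring
  rw [e, cr_val (S.t (j + 1)), val_c_step, mul_zero, sub_zero, dval_c_step, val_sub]
  have h1 := ho j (S.t (j + 1)) ⟨(S.tlt j).le, le_rfl⟩
  have h2 : 0 < (1 - s) * S.α j + s * S.β j := by
    rcases S.αβ_pos j with h | h
    · have := mul_pos (sub_pos.2 hs1) h
      have := mul_nonneg hs0.le (S.β_nonneg j)
      linarith
    · have := mul_pos hs0 h
      have := mul_nonneg (sub_pos.2 hs1).le (S.α_nonneg j)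
      linarith
  exact mul_pos (by linarith) h2

lemma cover {s : ℝ} (hs0 : 0 < s) (hs1 : s < 1) {o : ℂ}
    (ho : ∀ j, ∀ θ ∈ Icc (S.t j) (S.t (j + 1)), val θ o < val θ (S.c s j)) {x : ℂ}
    (hx : x ∈ S.Sec s) : ∃ j < S.k, x ∈ tri o (S.c s j) (S.c s (j + 1)) := by
  suffices h : ∃ j, x ∈ tri o (S.c s j) (S.c s (j + 1)) by
    obtain ⟨j, hj⟩ := h
    refine ⟨j % S.k, Nat.mod_lt _ S.hk, ?_⟩
    rw [c_mod, ← c_mod S s (j % S.k + 1), Nat.mod_add_mod, c_mod]
    exact hj
  by_cases hw : x - o = 0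
  · refine ⟨0, 0, 0, le_rfl, le_rfl, by norm_num, ?_⟩
    rw [zero_smul, zero_smul, add_zero, add_zero]
    exact sub_eq_zero.1 hw
  obtain ⟨φ, hφ⟩ := exists_dir hw
  have hwn : 0 < ‖x - o‖ := norm_pos_iff.2 hw
  set σ : ℕ → ℝ := fun j => cr (S.c s j - o) (x - o) with hσ
  have hσper : ∀ j, σ (j + S.k) = σ j := fun j => by simp only [hσ, c_per]
  obtain ⟨j1, hj1⟩ : ∃ j, 0 < σ j := by
    obtain ⟨j, -, φ', hmem, hval⟩ := S.exists_arc φ
    refine ⟨j, ?_⟩
    have h1 := ho j φ' hmem
    rw [hval, hval] at h1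
    simp only [hσ]
    rw [hφ, val_sub]
    exact mul_pos hwn (by linarith)
  obtain ⟨j2, hj2⟩ : ∃ j, σ j < 0 := by
    obtain ⟨j, -, φ', hmem, hval⟩ := S.exists_arc (φ + π)
    refine ⟨j, ?_⟩
    have h1 := ho j φ' hmem
    rw [hval, hval, val_pi, val_pi] at h1
    simp only [hσ]
    rw [hφ, val_sub]
    exact mul_neg_of_pos_of_neg hwn (by linarith)
  -- a sign change
  obtain ⟨j, hj3, hj4⟩ : ∃ j, 0 ≤ σ j ∧ σ (j + 1) ≤ 0 := by
    by_contra hcon
    push Not at hcon
    have h1 : ∀ n, 0 < σ (j1 + n) := by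
      intro n
      induction n with
      | zero => exact hj1
      | succ n ih => exact hcon _ ih.le
    have h2 : ∀ n, σ (j2 + n * S.k) = σ j2 := by
      intro n
      induction n with
      | zero => simp
      | succ n ih => rw [Nat.succ_mul, ← add_assoc, hσper, ih]
    have h3 : j1 ≤ j2 + j1 * S.k := by
      have := Nat.le_mul_of_pos_right j1 S.hk
      omega
    obtain ⟨n, hn⟩ := Nat.exists_eq_add_of_le h3
    have h4 := h2 j1
    rw [hn] at h4
    have := h1 n
    linarith
  refine ⟨j, ?_⟩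
  set D := cr (S.c s j - o) (S.c s (j + 1) - o) with hD
  have hDpos : 0 < D := S.D_pos hs0 hs1 ho j
  have hx' : x = o + ((-σ (j + 1) / D) • (S.c s j - o) + (σ j / D) • (S.c s (j + 1) - o)) := by
    have hne : D ≠ 0 := hDpos.ne'
    have h1 : D • (x - o) = (-σ (j + 1)) • (S.c s j - o) + (σ j) • (S.c s (j + 1) - o) := by
      apply Complex.ext
      · simp only [hD, hσ, cr, Complex.real_smul, Complex.mul_re, Complex.ofReal_re,
          Complex.ofReal_im, Complex.sub_re, Complex.sub_im, Complex.add_re, zero_mul, sub_zero]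
        ring
      · simp only [hD, hσ, cr, Complex.real_smul, Complex.mul_im, Complex.ofReal_re,
          Complex.ofReal_im, Complex.sub_re, Complex.sub_im, Complex.add_im, zero_mul, add_zero]
        ring
    have h2 : x - o = D⁻¹ • (D • (x - o)) := by rw [smul_smul, inv_mul_cancel₀ hne, one_smul]
    rw [h1, smul_add, smul_smul, smul_smul] at h2
    rw [div_eq_inv_mul, div_eq_inv_mul, ← h2]
    ring
  refine ⟨-σ (j + 1) / D, σ j / D, div_nonneg (by linarith) hDpos.le, div_nonneg hj3 hDpos.le, ?_,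
    hx'⟩
  -- the sum of the coefficients is at most one
  have hmem : S.t (j + 1) ∈ Icc (S.t j) (S.t (j + 1)) := ⟨(S.tlt j).le, le_rfl⟩
  have h1 := hx j _ hmem
  have h2 := ho j _ hmem
  have h3 := S.val_c_step s j
  rw [val_sub] at h3
  have h4 : val (S.t (j + 1)) x = val (S.t (j + 1)) o +
      (-σ (j + 1) / D + σ j / D) * (val (S.t (j + 1)) (S.c s j) - val (S.t (j + 1)) o) := by
    conv_lhs => rw [hx']
    rw [val_add, val_add, val_smul, val_smul, val_sub, val_sub]
    have : val (S.t (j + 1)) (S.c s (j + 1)) = val (S.t (j + 1)) (S.c s j) := by linarith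
    rw [this]
    ring
  rw [h4] at h1
  have h5 : 0 < val (S.t (j + 1)) (S.c s j) - val (S.t (j + 1)) o := by linarith
  by_contra hcon
  push Not at hcon
  have := mul_lt_mul_of_pos_right hcon h5
  linarith

theorem area_Sec (hA : ∃ p ∈ A, ∃ q ∈ A, ∃ r ∈ A, cr (q - p) (r - p) ≠ 0) {s : ℝ}
    (hs0 : 0 < s) (hs1 : s < 1) : volume (S.Sec s) ≤ ENNReal.ofReal (sh S.k (S.c s)) := by
  obtain ⟨o, ho⟩ := S.exists_center hA hs0.le hs1
  have hsub : S.Sec s ⊆ ⋃ j ∈ Finset.range S.k, tri o (S.c s j) (S.c s (j + 1)) := by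
    intro x hx
    obtain ⟨j, hj, h⟩ := S.cover hs0 hs1 ho hx
    simp only [mem_iUnion]
    exact ⟨j, Finset.mem_range.2 hj, h⟩
  calc volume (S.Sec s) ≤ volume (⋃ j ∈ Finset.range S.k, tri o (S.c s j) (S.c s (j + 1))) :=
        measure_mono hsub
    _ ≤ ∑ j ∈ Finset.range S.k, volume (tri o (S.c s j) (S.c s (j + 1))) :=
        measure_biUnion_finset_le _ _
    _ = ∑ j ∈ Finset.range S.k,
        ENNReal.ofReal (cr (S.c s j - o) (S.c s (j + 1) - o) / 2) := by
        refine Finset.sum_congr rfl fun j _ => ?_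
        rw [volume_tri, abs_of_pos (S.D_pos hs0 hs1 ho j)]
    _ = ENNReal.ofReal (sh S.k (S.c s)) := by
        rw [← ENNReal.ofReal_sum_of_nonneg fun j _ => by
          have := S.D_pos hs0 hs1 ho j
          positivity]
        rw [← Finset.sum_div, ← sh_translate (S.c_k s) o]
        rfl

end Sw

end Pool.Agent.Work.MP_3892ce_gt.helper74
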