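import Pool.Agent.Work.MP_3892ce_helper74.Vol

/-! # Melzak's problem, prismatoids (helper74): edges of the prismatoid -/

set_option autoImplicit false

namespace Pool.Agent.Work.MP_3892ce_gt.helper74

open Real Set MeasureTheory

/-- linear functional on `E3` -/
noncomputable def lf (θ τ : ℝ) : E3 →L[ℝ] ℝ :=
  Real.cos θ • EuclideanSpace.proj (𝕜 := ℝ) 0 + Real.sin θ • EuclideanSpace.proj (𝕜 := ℝ) 1 +
    τ • EuclideanSpace.proj (𝕜 := ℝ) 2

lemma lf_pt (θ τ : ℝ) (z : ℂ) (t : ℝ) : lf θ τ (pt z t) = val θ z + τ * t := by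
  simp [lf, val]

lemma convex_le (f : E3 →L[ℝ] ℝ) (M : ℝ) : Convex ℝ {x | f x ≤ M} :=
  convex_halfSpace_le f.toLinearMap.isLinear M

lemma convex_lt (f : E3 →L[ℝ] ℝ) (M : ℝ) : Convex ℝ {x | f x < M} :=
  convex_halfSpace_lt f.toLinearMap.isLinear M

lemma convex_eq (f : E3 →L[ℝ] ℝ) (M : ℝ) : Convex ℝ {x | f x = M} :=
  convex_hyperplane f.toLinearMap.isLinear M

lemma isExposed_conv {V F : Set E3} (f : E3 →L[ℝ] ℝ) (M : ℝ) (hFV : F ⊆ V) (hF : F.Nonempty)
    (h1 : ∀ v ∈ F, f v = M) (h2 : ∀ v ∈ V, v ∉ F → f v < M) :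
    IsExposed ℝ (convexHull ℝ V) (convexHull ℝ F) := by
  intro _
  refine ⟨f, ?_⟩
  have hle : convexHull ℝ V ⊆ {x | f x ≤ M} := by
    refine convexHull_min (fun v hv => ?_) (convex_le f M)
    by_cases h : v ∈ F
    · exact (h1 v h).le
    · exact (h2 v hv h).le
  have heq : convexHull ℝ F ⊆ {x | f x = M} := convexHull_min (fun v hv => h1 v hv) (convex_eq f M)
  ext x
  constructor
  · intro hx
    refine ⟨convexHull_mono hFV hx, fun y hy => ?_⟩
    have a1 : f y ≤ M := hle hy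
    have a2 : f x = M := heq hx
    rw [a2]; exact a1
  · rintro ⟨hx, hmax⟩
    obtain ⟨v, hv⟩ := hF
    have hfx : f x = M := by
      have a1 : f x ≤ M := hle hx
      have a2 := hmax v (subset_convexHull ℝ V (hFV hv))
      rw [h1 v hv] at a2
      exact le_antisymm a1 a2
    by_cases hG : (V \ F).Nonempty
    · have e : V = F ∪ (V \ F) := (union_sdiff_cancel hFV).symm
      rw [e, convexHull_union ⟨v, hv⟩ hG, mem_convexJoin] at hx
      obtain ⟨p, hp, q, hq, hx⟩ := hx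
      obtain ⟨a, b, ha, hb, hab, rfl⟩ := hx
      have hp' : f p = M := heq hp
      have hq' : f q < M := by
        have : convexHull ℝ (V \ F) ⊆ {x | f x < M} :=
          convexHull_min (fun v hv => h2 v hv.1 hv.2) (convex_lt f M)
        exact this hq
      rw [map_add, map_smul, map_smul, smul_eq_mul, smul_eq_mul, hp'] at hfx
      have hb0 : b = 0 := by
        by_contra hne
        have hb' : 0 < b := lt_of_le_of_ne hb (Ne.symm hne)
        have := mul_lt_mul_of_pos_left hq' hb'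
        have ha' : a = 1 - b := by linarith
        rw [ha'] at hfx
        linarith
      have ha1 : a = 1 := by linarith
      rw [hb0, ha1, one_smul, zero_smul, add_zero]
      exact hp
    · rw [Set.not_nonempty_iff_eq_empty, sdiff_eq_empty] at hG
      exact convexHull_mono hG hx

/-- generating points -/
noncomputable def gen (A B : Finset ℂ) (h : ℝ) : Set E3 :=
  (fun z => pt z 0) '' (A : Set ℂ) ∪ (fun z => pt z h) '' (B : Set ℂ)

/-- the prismatoid -/
noncomputable def Pr (A B : Finset ℂ) (h : ℝ) : Set E3 := convexHull ℝ (gen A B h)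

lemma gen_finite (A B : Finset ℂ) (h : ℝ) : (gen A B h).Finite :=
  (A.finite_toSet.image _).union (B.finite_toSet.image _)

lemma Pr_compact (A B : Finset ℂ) (h : ℝ) : IsCompact (Pr A B h) :=
  (gen_finite A B h).isCompact_convexHull (𝕜 := ℝ)

lemma pt_comb (z w : ℂ) (t l m : ℝ) (hlm : l + m = 1) :
    l • pt z t + m • pt w t = pt (l • z + m • w) t := by
  ext i
  fin_cases i
  · simp [pt]
  · simp [pt]
  · simp only [pt, Fin.reduceFinMk, PiLp.add_apply, PiLp.smul_apply, Matrix.cons_val, smul_eq_mul]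
    rw [← add_mul, hlm, one_mul]

lemma pt_inj {z w : ℂ} {t s : ℝ} (h : pt z t = pt w s) : z = w ∧ t = s := by
  have h0 := congrArg (fun x : E3 => x 0) h
  have h1 := congrArg (fun x : E3 => x 1) h
  have h2 := congrArg (fun x : E3 => x 2) h
  simp only [pt_0, pt_1, pt_2] at h0 h1 h2
  exact ⟨Complex.ext h0 h1, h2⟩

lemma norm_pt_sub (z w : ℂ) (t s : ℝ) : ‖pt z t - pt w s‖ = √(‖z - w‖ ^ 2 + (t - s) ^ 2) := by
  rw [EuclideanSpace.norm_eq, Fin.sum_univ_three]
  congr 1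
  simp only [PiLp.sub_apply, pt_0, pt_1, pt_2, Real.norm_eq_abs, sq_abs]
  rw [← Complex.normSq_eq_norm_sq, Complex.normSq_apply, Complex.sub_re, Complex.sub_im]
  ring

namespace Sw

variable {A B : Finset ℂ} (S : Sw A B)

lemma lateral_edge {h : ℝ} (hh : 0 < h) (j : ℕ) :
    IsEdge (Pr A B h) (segment ℝ (pt (S.a j) 0) (pt (S.b j) h)) := by
  refine ⟨?_, _, _, ?_, rfl⟩
  · set θ := (S.t j + S.t (j + 1)) / 2 with hθ
    have ua := S.ua j θ (S.mid_mem j)
    have ub := S.ub j θ (S.mid_mem j)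
    set τ := (val θ (S.a j) - val θ (S.b j)) / h with hτ
    have hτh : τ * h = val θ (S.a j) - val θ (S.b j) := by
      rw [hτ]; field_simp
    rw [← convexHull_pair]
    refine isExposed_conv (lf θ τ) (val θ (S.a j)) ?_ ⟨_, mem_insert _ _⟩ ?_ ?_
    · rintro x (rfl | rfl)
      · exact Or.inl ⟨_, S.a_mem j, rfl⟩
      · exact Or.inr ⟨_, S.b_mem j, rfl⟩
    · rintro x (rfl | rfl)
      · rw [lf_pt]; ring
      · rw [lf_pt, hτh]; ring
    · rintro x (⟨z, hz, rfl⟩ | ⟨z, hz, rfl⟩) hx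
      · simp only [lf_pt, mul_zero, add_zero]
        refine ua.2 z hz fun e => hx ?_
        rw [e]; exact mem_insert _ _
      · simp only [lf_pt, hτh]
        have : val θ z < val θ (S.b j) := by
          refine ub.2 z hz fun e => hx ?_
          rw [e]; exact mem_insert_of_mem _ rfl
        linarith
  · intro e
    exact hh.ne (pt_inj e).2

/-- the face of `A` in the direction `t (j+1)` is the segment `[a j, a (j+1)]` -/
lemma face_seg {C : Finset ℂ} {θ : ℝ} {p q : ℂ} (hp : p ∈ C) (hq : q ∈ C)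
    (hpq : val θ p = val θ q) (hd : 0 < dval θ (q - p))
    (hall : ∀ x ∈ C, val θ x = val θ p → 0 ≤ dval θ (x - p) ∧ dval θ (x - p) ≤ dval θ (q - p))
    (t : ℝ) : convexHull ℝ ((fun z => pt z t) '' {z | z ∈ C ∧ val θ z = val θ p}) =
      segment ℝ (pt p t) (pt q t) := by
  apply Subset.antisymm
  · refine convexHull_min ?_ (convex_segment _ _)
    rintro _ ⟨z, ⟨hz, hzv⟩, rfl⟩
    obtain ⟨h1, h2⟩ := hall z hz hzv
    set l := dval θ (z - p) / dval θ (q - p) with hl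
    have hl0 : 0 ≤ l := div_nonneg h1 hd.le
    have hl1 : l ≤ 1 := (div_le_one hd).2 h2
    refine ⟨1 - l, l, by linarith, hl0, by ring, ?_⟩
    rw [pt_comb _ _ _ _ _ (by ring)]
    congr 1
    apply ext_val θ
    · rw [val_add, val_smul, val_smul, hzv, ← hpq]; ring
    · rw [dval_add, dval_smul, dval_smul]
      have : l * dval θ (q - p) = dval θ (z - p) := by rw [hl]; field_simp
      rw [dval_sub, dval_sub] at this
      linarith
  · rw [← convexHull_pair]
    apply convexHull_mono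
    rintro x (rfl | rfl)
    · exact ⟨p, ⟨hp, rfl⟩, rfl⟩
    · exact ⟨q, ⟨hq, hpq.symm⟩, rfl⟩

lemma bottom_edge {h : ℝ} (hh : 0 < h) {j : ℕ} (hj : 0 < S.α j) :
    IsEdge (Pr A B h) (segment ℝ (pt (S.a j) 0) (pt (S.a (j + 1)) 0)) := by
  set θ := S.t (j + 1) with hθ
  obtain ⟨f1, f2, f3, f4⟩ := S.fa j
  rw [← hθ] at f1 f2 f3 f4
  refine ⟨?_, _, _, ?_, rfl⟩
  · rw [← face_seg (C := A) (θ := θ) (S.a_mem j) (S.a_mem (j + 1)) f1 hj f4 0]
    obtain ⟨M, hM⟩ : ∃ M, ∀ z ∈ B, val θ z < M := by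
      obtain ⟨m, hm, hmax⟩ := exists_max ⟨_, S.b_mem 0⟩ θ
      exact ⟨val θ m + 1, fun z hz => by linarith [hmax z hz]⟩
    set τ := (val θ (S.a j) - M) / h with hτ
    have hτh : τ * h = val θ (S.a j) - M := by rw [hτ]; field_simp
    refine isExposed_conv (lf θ τ) (val θ (S.a j)) ?_ ⟨_, ⟨_, ⟨S.a_mem j, rfl⟩, rfl⟩⟩ ?_ ?_
    · rintro _ ⟨z, ⟨hz, _⟩, rfl⟩
      exact Or.inl ⟨z, hz, rfl⟩
    · rintro _ ⟨z, ⟨hz, hzv⟩, rfl⟩
      rw [lf_pt, hzv]; ring
    · rintro x (⟨z, hz, rfl⟩ | ⟨z, hz, rfl⟩) hx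
      · simp only [lf_pt, mul_zero, add_zero]
        have hle : val θ z ≤ val θ (S.a j) := S.wa j θ ⟨(S.tlt j).le, le_rfl⟩ z hz
        refine lt_of_le_of_ne hle fun e => hx ?_
        exact ⟨z, ⟨hz, e⟩, rfl⟩
      · simp only [lf_pt, hτh]
        linarith [hM z hz]
  · intro e
    have h1 := (pt_inj e).1
    have h2 : S.α j = 0 := by
      simp only [α, ← h1, sub_self, dval, Complex.zero_re, Complex.zero_im, mul_zero, add_zero]
    linarith

lemma top_edge {h : ℝ} (hh : 0 < h) {j : ℕ} (hj : 0 < S.β j) :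
    IsEdge (Pr A B h) (segment ℝ (pt (S.b j) h) (pt (S.b (j + 1)) h)) := by
  set θ := S.t (j + 1) with hθ
  obtain ⟨f1, f2, f3, f4⟩ := S.fb j
  rw [← hθ] at f1 f2 f3 f4
  refine ⟨?_, _, _, ?_, rfl⟩
  · rw [← face_seg (C := B) (θ := θ) (S.b_mem j) (S.b_mem (j + 1)) f1 hj f4 h]
    obtain ⟨M, hM⟩ : ∃ M, ∀ z ∈ A, val θ z < M := by
      obtain ⟨m, hm, hmax⟩ := exists_max ⟨_, S.a_mem 0⟩ θ
      exact ⟨val θ m + 1, fun z hz => by linarith [hmax z hz]⟩
    set τ := (M - val θ (S.b j)) / h with hτ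
    have hτh : τ * h = M - val θ (S.b j) := by rw [hτ]; field_simp
    refine isExposed_conv (lf θ τ) M ?_ ⟨_, ⟨_, ⟨S.b_mem j, rfl⟩, rfl⟩⟩ ?_ ?_
    · rintro _ ⟨z, ⟨hz, _⟩, rfl⟩
      exact Or.inr ⟨z, hz, rfl⟩
    · rintro _ ⟨z, ⟨hz, hzv⟩, rfl⟩
      rw [lf_pt, hzv, hτh]; ring
    · rintro x (⟨z, hz, rfl⟩ | ⟨z, hz, rfl⟩) hx
      · simp only [lf_pt, mul_zero, add_zero]
        exact hM z hz
      · simp only [lf_pt, hτh]
        have hle : val θ z ≤ val θ (S.b j) := S.wb j θ ⟨(S.tlt j).le, le_rfl⟩ z hz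
        have : val θ z < val θ (S.b j) := by
          refine lt_of_le_of_ne hle fun e => hx ?_
          exact ⟨z, ⟨hz, e⟩, rfl⟩
        linarith
  · intro e
    have h1 := (pt_inj e).1
    have h2 : S.β j = 0 := by
      simp only [β, ← h1, sub_self, dval, Complex.zero_re, Complex.zero_im, mul_zero, add_zero]
    linarith

end Sw

end Pool.Agent.Work.MP_3892ce_gt.helper74
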