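import Pool.Agent.Work.MP_3892ce_helper74.Gen

/-! # Melzak's problem, prismatoids (helper74): all polytopes with vertices in two parallel planes -/

set_option autoImplicit false

namespace Pool.Agent.Work.MP_3892ce_gt.helper74

open Real Set MeasureTheory

lemma Gm_nonneg (u v : E3) : 0 ≤ Gm u v := by
  have h := abs_real_inner_le_norm u v
  have : inner ℝ u v ^ 2 ≤ (‖u‖ * ‖v‖) ^ 2 := by
    rw [← sq_abs]; exact pow_le_pow_left₀ (abs_nonneg _) h 2
  rw [Gm]; nlinarith

/-- degenerate Gram determinant: `‖u‖² v = ⟨u,v⟩ u` -/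
lemma Gm_zero {u v : E3} (h : Gm u v = 0) : (‖u‖ ^ 2) • v = (inner ℝ u v) • u := by
  have h1 : ‖(‖u‖ ^ 2) • v - (inner ℝ u v) • u‖ ^ 2 = 0 := by
    have e : inner ℝ v u = inner ℝ u v := real_inner_comm u v
    rw [norm_sub_sq_real, inner_smul_left, inner_smul_right, norm_smul, norm_smul, e]
    simp only [conj_trivial, Real.norm_eq_abs, mul_pow, sq_abs]
    rw [Gm] at h
    linear_combination (‖u‖ ^ 2) * h
  have h2 := pow_eq_zero_iff two_ne_zero |>.1 h1
  exact sub_eq_zero.1 (norm_eq_zero.1 h2)

/-- a finite collinear set lies in the segment between two of its points -/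
lemma exists_seg {S : Finset E3} (hS : S.Nonempty) (h : ¬ NC3 S) :
    ∃ p ∈ S, ∃ q ∈ S, ∀ r ∈ S, r ∈ segment ℝ p q := by
  obtain ⟨x, hx⟩ := hS
  obtain ⟨⟨p, q⟩, hpq, hmax⟩ := (S ×ˢ S).exists_max_image (fun x : E3 × E3 => dist x.1 x.2)
    ⟨(x, x), Finset.mk_mem_product hx hx⟩
  obtain ⟨hp, hq⟩ := Finset.mem_product.1 hpq
  simp only at hp hq hmax
  refine ⟨p, hp, q, hq, fun r hr => ?_⟩
  have m1 := hmax (p, r) (Finset.mk_mem_product hp hr)
  have m2 := hmax (q, r) (Finset.mk_mem_product hq hr)
  simp only at m1 m2
  by_cases hne : q = p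
  · subst hne
    rw [dist_self] at m1
    have : r = q := by
      have := le_antisymm m1 dist_nonneg
      exact (dist_eq_zero.1 this).symm
    rw [this]
    exact left_mem_segment ℝ q q
  · have hG : Gm (q - p) (r - p) = 0 := by
      by_contra hne'
      exact h ⟨p, hp, q, hq, r, hr, hne'⟩
    have h1 := Gm_zero hG
    set u := q - p with hu
    have hu0 : 0 < ‖u‖ := norm_pos_iff.2 (sub_ne_zero.2 hne)
    set l := inner ℝ u (r - p) / ‖u‖ ^ 2 with hl
    have h2 : r - p = l • u := by
      have : r - p = (‖u‖ ^ 2)⁻¹ • ((‖u‖ ^ 2) • (r - p)) := by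
        rw [smul_smul, inv_mul_cancel₀ (by positivity), one_smul]
      rw [this, h1, smul_smul, hl, div_eq_inv_mul]
    have h3 : r - q = (l - 1) • u := by
      have : r - q = (r - p) - u := by rw [hu]; abel
      rw [this, h2, sub_smul, one_smul]
    have hdu : dist p q = ‖u‖ := by rw [dist_comm, dist_eq_norm]
    have n1 : |l| ≤ 1 := by
      have : dist p r = |l| * ‖u‖ := by
        rw [dist_comm, dist_eq_norm, h2, norm_smul, Real.norm_eq_abs]
      rw [this, hdu] at m1
      by_contra hcon
      push Not at hcon
      have := mul_lt_mul_of_pos_right hcon hu0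
      linarith
    have n2 : |l - 1| ≤ 1 := by
      have : dist q r = |l - 1| * ‖u‖ := by
        rw [dist_comm, dist_eq_norm, h3, norm_smul, Real.norm_eq_abs]
      rw [this, hdu] at m2
      by_contra hcon
      push Not at hcon
      have := mul_lt_mul_of_pos_right hcon hu0
      linarith
    have l0 : 0 ≤ l := by have := (abs_le.1 n2).1; linarith
    have l1 : l ≤ 1 := (abs_le.1 n1).2
    refine ⟨1 - l, l, by linarith, l0, by ring, ?_⟩
    have e : r = p + l • u := by rw [← h2]; abel
    rw [e, hu, smul_sub, sub_smul, one_smul]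
    abel

/-- a set in a translate of a proper subspace has volume zero -/
lemma vol_zero {P : Set E3} {W : Submodule ℝ E3} (hW : W ≠ ⊤) {p : E3}
    (h : ∀ x ∈ P, x - p ∈ W) : volume P = 0 := by
  have h1 : P ⊆ (fun x => x + p) '' (W : Set E3) := by
    intro x hx
    exact ⟨x - p, h x hx, by simp⟩
  have h2 : volume ((fun x => x + p) '' (W : Set E3)) = 0 := by
    rw [Set.image_add_right, measure_preimage_add_right]
    exact Measure.addHaar_submodule _ W hW
  exact measure_mono_null h1 h2

/-- tetrahedra -/
theorem full_tetra (p q r s : E3) : Full (convexHull ℝ {p, q, r, s}) := by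
  classical
  set W3 := Submodule.span ℝ ({q - p, r - p, s - p} : Set E3) with hW3
  by_cases htop : W3 = ⊤
  · -- nondegenerate
    set W2 := Submodule.span ℝ ({q - p, r - p} : Set E3) with hW2
    have hW2ne : W2 ≠ ⊤ := by
      intro e
      have h1 : Module.finrank ℝ W2 ≤ 2 := by
        have := finrank_span_le_card (R := ℝ) ({q - p, r - p} : Set E3)
        refine this.trans ?_
        rw [Set.toFinset_insert, Set.toFinset_singleton]
        exact Finset.card_le_two
      rw [e, finrank_top, finrank_euclideanSpace_fin] at h1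
      omega
    obtain ⟨n, hn0, hn⟩ : ∃ n : E3, n ≠ 0 ∧ n ∈ W2ᗮ := by
      have h1 : W2ᗮ ≠ ⊥ := by
        intro e
        exact hW2ne ((Submodule.orthogonal_eq_bot_iff).1 e)
      obtain ⟨n, hn, hn0⟩ := Submodule.exists_mem_ne_zero_of_ne_bot h1
      exact ⟨n, hn0, hn⟩
    rw [Submodule.mem_orthogonal'] at hn
    have i1 : inner ℝ n (q - p) = 0 := hn _ (Submodule.subset_span (by simp))
    have i2 : inner ℝ n (r - p) = 0 := hn _ (Submodule.subset_span (by simp))
    have i3 : inner ℝ n (s - p) ≠ 0 := by
      intro i3
      have h1 : W3 ≤ (Submodule.span ℝ {n})ᗮ := by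
        rw [hW3, Submodule.span_le]
        rintro x (rfl | rfl | rfl) <;>
        · rw [SetLike.mem_coe, Submodule.mem_orthogonal_singleton_iff_inner_right]
          assumption
      rw [htop] at h1
      have h2 : n ∈ (Submodule.span ℝ {n})ᗮ := h1 Submodule.mem_top
      rw [Submodule.mem_orthogonal_singleton_iff_inner_right] at h2
      exact hn0 (inner_self_eq_zero.1 h2)
    have hG : Gm (q - p) (r - p) ≠ 0 := by
      intro hG
      have h1 := Gm_zero hG
      -- the span of two vectors would be of dimension at most one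
      have h2 : ∃ w : E3, W3 ≤ Submodule.span ℝ ({w, s - p} : Set E3) := by
        by_cases h0 : q - p = 0
        · refine ⟨r - p, ?_⟩
          rw [hW3, Submodule.span_le]
          rintro x (rfl | rfl | rfl)
          · rw [h0]; exact Submodule.zero_mem _
          · exact Submodule.subset_span (by simp)
          · exact Submodule.subset_span (by simp)
        · refine ⟨q - p, ?_⟩
          have hne : ‖q - p‖ ^ 2 ≠ 0 := by
            have := norm_pos_iff.2 h0
            positivity
          rw [hW3, Submodule.span_le]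
          rintro x (rfl | rfl | rfl)
          · exact Submodule.subset_span (by simp)
          · have : r - p = ((‖q - p‖ ^ 2)⁻¹ * inner ℝ (q - p) (r - p)) • (q - p) := by
              rw [mul_smul, ← h1, smul_smul, inv_mul_cancel₀ hne, one_smul]
            rw [SetLike.mem_coe, this]
            exact Submodule.smul_mem _ _ (Submodule.subset_span (by simp))
          · exact Submodule.subset_span (by simp)
      obtain ⟨w, hw⟩ := h2
      rw [htop] at hw
      have h3 : Submodule.span ℝ ({w, s - p} : Set E3) = ⊤ := top_le_iff.1 hw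
      have h4 : Module.finrank ℝ (Submodule.span ℝ ({w, s - p} : Set E3)) ≤ 2 := by
        have := finrank_span_le_card (R := ℝ) ({w, s - p} : Set E3)
        refine this.trans ?_
        rw [Set.toFinset_insert, Set.toFinset_singleton]
        exact Finset.card_le_two
      rw [h3, finrank_top, finrank_euclideanSpace_fin] at h4
      omega
    -- normalised normal with the right sign
    obtain ⟨n', hn', j1, j2, j3⟩ : ∃ n' : E3, ‖n'‖ = 1 ∧ inner ℝ n' (q - p) = 0 ∧
        inner ℝ n' (r - p) = 0 ∧ 0 < inner ℝ n' (s - p) := by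
      have hnpos : 0 < ‖n‖ := norm_pos_iff.2 hn0
      rcases lt_or_gt_of_ne i3 with h | h
      · refine ⟨(-(‖n‖⁻¹)) • n, ?_, ?_, ?_, ?_⟩
        · rw [norm_smul, norm_neg, norm_inv, norm_norm, inv_mul_cancel₀ hnpos.ne']
        · rw [real_inner_smul_left, i1, mul_zero]
        · rw [real_inner_smul_left, i2, mul_zero]
        · rw [real_inner_smul_left]
          exact mul_pos_of_neg_of_neg (neg_lt_zero.2 (inv_pos.2 hnpos)) h
      · refine ⟨(‖n‖⁻¹) • n, ?_, ?_, ?_, ?_⟩
        · rw [norm_smul, norm_inv, norm_norm, inv_mul_cancel₀ hnpos.ne']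
        · rw [real_inner_smul_left, i1, mul_zero]
        · rw [real_inner_smul_left, i2, mul_zero]
        · rw [real_inner_smul_left]
          exact mul_pos (inv_pos.2 hnpos) h
    have key := full_NC3 (A := {p, q, r}) (B := {s}) hn' (c := inner ℝ n' p) (d := inner ℝ n' s)
      (by rw [inner_sub_right] at j3; linarith)
      (by
        intro x hx
        simp only [Finset.mem_insert, Finset.mem_singleton] at hx
        rw [inner_sub_right] at j1 j2
        rcases hx with rfl | rfl | rfl
        · rfl
        · linarith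
        · linarith)
      (by
        intro x hx
        rw [Finset.mem_singleton] at hx
        rw [hx])
      ⟨p, by simp, q, by simp, r, by simp, hG⟩ ⟨s, by simp⟩
    have e : ((({p, q, r} : Finset E3) : Set E3) ∪ ((({s} : Finset E3)) : Set E3)) =
        {p, q, r, s} := by
      ext x
      simp only [Finset.coe_insert, Finset.coe_singleton, mem_union, mem_insert_iff,
        mem_singleton_iff]
      tauto
    rw [e] at key
    exact key
  · refine full_of_zero (vol_zero htop (p := p) ?_)
    have : convexHull ℝ ({p, q, r, s} : Set E3) ⊆ {x | x - p ∈ W3} := by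
      refine convexHull_min ?_ ?_
      · rintro x (rfl | rfl | rfl | rfl)
        · simp only [mem_ofPred_eq, sub_self]; exact Submodule.zero_mem _
        · exact Submodule.subset_span (by simp)
        · exact Submodule.subset_span (by simp)
        · exact Submodule.subset_span (by simp)
      · intro x hx y hy a b _ _ hab
        simp only [mem_ofPred_eq] at hx hy ⊢
        have e : a • x + b • y - p = a • (x - p) + b • (y - p) := by
          rw [smul_sub, smul_sub]
          have : p = a • p + b • p := by rw [← add_smul, hab, one_smul]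
          conv_lhs => rw [this]
          abel
        rw [e]
        exact Submodule.add_mem _ (Submodule.smul_mem _ _ hx) (Submodule.smul_mem _ _ hy)
    exact fun x hx => this hx

/-- a set in a plane -/
lemma full_plane {Q : Set E3} {n : E3} (hn : n ≠ 0) {c : ℝ} (h : ∀ x ∈ Q, inner ℝ n x = c) :
    Full (convexHull ℝ Q) := by
  rcases Q.eq_empty_or_nonempty with hQ | ⟨p, hp⟩
  · rw [hQ, convexHull_empty]
    exact full_of_zero measure_empty
  · have hW : (Submodule.span ℝ {n})ᗮ ≠ ⊤ := by
      intro e
      have h1 : n ∈ (Submodule.span ℝ {n})ᗮ := by rw [e]; exact Submodule.mem_top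
      rw [Submodule.mem_orthogonal_singleton_iff_inner_right] at h1
      exact hn (inner_self_eq_zero.1 h1)
    refine full_of_zero (vol_zero hW (p := p) fun x hx => ?_)
    rw [Submodule.mem_orthogonal_singleton_iff_inner_right, inner_sub_right, h p hp]
    have : convexHull ℝ Q ⊆ {x | inner ℝ n x = c} := by
      refine convexHull_min (fun x hx => h x hx) ?_
      exact convex_hyperplane (f := fun x => inner ℝ n x)
        ⟨fun x y => inner_add_right _ _ _, fun a x => real_inner_smul_right _ _ _⟩ c
    have h2 : inner ℝ n x = c := this hx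
    rw [h2, sub_self]

/-- **Melzak's conjecture for prismatoids.** -/
theorem full_prismatoid {A B : Finset E3} {n : E3} (hn : n ≠ 0) {c d : ℝ} (hcd : c ≠ d)
    (hA : ∀ x ∈ A, inner ℝ n x = c) (hB : ∀ x ∈ B, inner ℝ n x = d) :
    Full (convexHull ℝ ((A : Set E3) ∪ B)) := by
  classical
  -- reduction to a unit normal
  wlog hn1 : ‖n‖ = 1 generalizing n c d
  · have hnpos : 0 < ‖n‖ := norm_pos_iff.2 hn
    refine this (n := (‖n‖⁻¹) • n) (c := ‖n‖⁻¹ * c) (d := ‖n‖⁻¹ * d) ?_ ?_ ?_ ?_ ?_
    · exact smul_ne_zero (inv_ne_zero hnpos.ne') hn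
    · intro e
      exact hcd (mul_left_cancel₀ (inv_ne_zero hnpos.ne') e)
    · intro x hx
      rw [real_inner_smul_left, hA x hx]
    · intro x hx
      rw [real_inner_smul_left, hB x hx]
    · rw [norm_smul, norm_inv, norm_norm, inv_mul_cancel₀ hnpos.ne']
  rcases A.eq_empty_or_nonempty with hAe | hAne
  · rw [hAe, Finset.coe_empty, empty_union]
    exact full_plane hn hB
  rcases B.eq_empty_or_nonempty with hBe | hBne
  · rw [hBe, Finset.coe_empty, union_empty]
    exact full_plane hn hA
  have hneg : ‖-n‖ = 1 := by rw [norm_neg, hn1]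
  by_cases hNA : NC3 A
  · rcases lt_or_gt_of_ne hcd with h | h
    · exact full_NC3 hn1 h hA hB hNA hBne
    · refine full_NC3 hneg (c := -c) (d := -d) (by linarith) (fun x hx => ?_) (fun x hx => ?_)
        hNA hBne
      · rw [inner_neg_left, hA x hx]
      · rw [inner_neg_left, hB x hx]
  by_cases hNB : NC3 B
  · rw [union_comm]
    rcases lt_or_gt_of_ne hcd with h | h
    · refine full_NC3 hneg (c := -d) (d := -c) (by linarith) (fun x hx => ?_) (fun x hx => ?_)
        hNB hAne
      · rw [inner_neg_left, hB x hx]
      · rw [inner_neg_left, hA x hx]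
    · exact full_NC3 hn1 h hB hA hNB hAne
  -- both collinear: a tetrahedron
  obtain ⟨p, hp, q, hq, hpq⟩ := exists_seg hAne hNA
  obtain ⟨r, hr, s, hs, hrs⟩ := exists_seg hBne hNB
  have e : convexHull ℝ ((A : Set E3) ∪ B) = convexHull ℝ {p, q, r, s} := by
    apply Subset.antisymm
    · refine convexHull_min ?_ (convex_convexHull ℝ _)
      have hp' : p ∈ convexHull ℝ ({p, q, r, s} : Set E3) := subset_convexHull ℝ _ (by simp)
      have hq' : q ∈ convexHull ℝ ({p, q, r, s} : Set E3) := subset_convexHull ℝ _ (by simp)
      have hr' : r ∈ convexHull ℝ ({p, q, r, s} : Set E3) := subset_convexHull ℝ _ (by simp)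
      have hs' : s ∈ convexHull ℝ ({p, q, r, s} : Set E3) := subset_convexHull ℝ _ (by simp)
      rintro x (hx | hx)
      · exact (convex_convexHull ℝ _).segment_subset hp' hq' (hpq x hx)
      · exact (convex_convexHull ℝ _).segment_subset hr' hs' (hrs x hx)
    · apply convexHull_mono
      rintro x (rfl | rfl | rfl | rfl)
      · exact Or.inl hp
      · exact Or.inl hq
      · exact Or.inr hr
      · exact Or.inr hs
  rw [e]
  exact full_tetra p q r s

end Pool.Agent.Work.MP_3892ce_gt.helper74
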