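import Pool.Agent.Work.MP_3892ce_helper74.Std

/-! # Melzak's problem, prismatoids (helper74): general position -/

set_option autoImplicit false

namespace Pool.Agent.Work.MP_3892ce_gt.helper74

open Real Set MeasureTheory

/-- the statement for one convex set -/
def Full (P : Set E3) : Prop :=
  ENNReal.ofReal (972 * √3) * volume P ≤ zeta1 P ^ 3 ∧
    (volume P ≠ 0 → ENNReal.ofReal (972 * √3) * volume P = zeta1 P ^ 3 → IsArchPrism P)

lemma full_of_zero {P : Set E3} (h : volume P = 0) : Full P :=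
  ⟨by rw [h, mul_zero]; exact bot_le, fun hne => absurd h hne⟩

theorem std_all {A B : Finset ℂ} (hA : NC A) (hB : B.Nonempty) {h : ℝ} (hh : 0 < h) :
    Full (Pr A B h) := by
  have hA2 : ∃ m ∈ A, ∃ m' ∈ A, m' ≠ m := by
    obtain ⟨p, hp, q, hq, r, hr, hne⟩ := hA
    refine ⟨p, hp, q, hq, ?_⟩
    rintro rfl
    apply hne
    simp [cr]
  have hAne : A.Nonempty := by
    obtain ⟨m, hm, _⟩ := hA2
    exact ⟨m, hm⟩
  obtain ⟨S⟩ := exists_sweep hAne hB hA2
  by_cases hNB : NC B
  · exact S.melzak_std_full hh hA (Or.inl hNB)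
  by_cases hsub : ∀ m ∈ B, ∀ m' ∈ B, m' = m
  · refine S.melzak_std_full hh hA (Or.inr fun j => ?_)
    rw [← S.norm_b, hsub _ (S.b_mem j) _ (S.b_mem (j + 1)), sub_self, norm_zero]
  push Not at hsub
  obtain ⟨p, hp, q, hq, hpq⟩ := hsub
  obtain ⟨φ, hφ⟩ := exists_dir (sub_ne_zero.2 hpq)
  have hwn : 0 < ‖q - p‖ := norm_pos_iff.2 (sub_ne_zero.2 hpq)
  have hline : ∀ z ∈ B, val φ z = val φ p := by
    intro z hz
    have h1 : cr (q - p) (z - p) = 0 := by
      by_contra hne
      exact hNB ⟨p, hp, q, hq, z, hz, hne⟩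
    have h2 : cr (z - p) (q - p) = 0 := by
      simp only [cr, Complex.sub_re, Complex.sub_im] at h1 ⊢
      linarith
    rw [hφ, val_sub] at h2
    rcases mul_eq_zero.1 h2 with h | h
    · exact absurd h hwn.ne'
    · linarith
  have hpos : 0 < S.pB := by
    rcases eq_or_lt_of_le S.pB_nonneg with h0 | h0
    · exfalso
      have h1 := (Finset.sum_eq_zero_iff_of_nonneg fun j _ => S.β_nonneg j).1 h0.symm
      have h2 : ∀ j, S.β j = 0 := by
        intro j
        rw [← periodic_mod S.hk S.β_per j]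
        exact h1 _ (Finset.mem_range.2 (Nat.mod_lt _ S.hk))
      have h3 : ∀ j, S.b j = S.b 0 := by
        intro j
        induction j with
        | zero => rfl
        | succ j ih =>
          have := S.norm_b j
          rw [h2] at this
          rw [sub_eq_zero.1 (norm_eq_zero.1 this), ih]
      have h4 : ∀ z ∈ B, z = S.b 0 := by
        intro z hz
        have h5 := Sw.hull_gen S.hk S.bper (fun φ => by
          obtain ⟨j, -, φ', hmem, hv⟩ := S.exists_arc φ
          refine ⟨j, fun z hz => ?_⟩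
          have := S.wb j φ' hmem z hz
          rwa [hv, hv] at this) hz
        have h6 : Set.range S.b = {S.b 0} := by
          ext x
          constructor
          · rintro ⟨j, rfl⟩; exact h3 j
          · rintro rfl; exact ⟨0, rfl⟩
        rw [h6, convexHull_singleton] at h5
        exact h5
      exact hpq ((h4 q hq).trans (h4 p hp).symm)
    · exact h0
  obtain ⟨mp, hmp, hmp'⟩ := exists_max hAne φ
  obtain ⟨mm, hmm, hmm'⟩ := A.exists_min_image (val φ) hAne
  have hw : 0 < val φ mp + (- val φ mm) := by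
    have h1 := hmm' mp hmp
    rcases eq_or_lt_of_le h1 with h2 | h2
    · exfalso
      obtain ⟨x, hx, y, hy, z, hz, hne⟩ := hA
      have h3 : ∀ m ∈ A, val φ m = val φ mp := fun m hm =>
        le_antisymm (hmp' m hm) (by rw [← h2]; exact hmm' m hm)
      apply hne
      rw [cr_val φ, val_sub, val_sub, h3 x hx, h3 y hy, h3 z hz]
      ring
    · linarith
  let D : Sw.Wd S :=
    { θ := φ
      v := val φ p
      Hp := val φ mp
      Hm := - val φ mm
      hB := hline
      hpos := hpos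
      hp := ⟨mp, hmp, rfl⟩
      hm := ⟨mm, hmm, by ring⟩
      hp' := hmp'
      hm' := fun m hm => by rw [neg_neg]; exact hmm' m hm
      hw := hw }
  exact Sw.melzak_wedge D hh hA

/-! ### rigid motions -/

/-- rigid motion -/
noncomputable def rig (L : E3 ≃ₗᵢ[ℝ] E3) (v : E3) (x : E3) : E3 := L x + v

lemma rig_inv (L : E3 ≃ₗᵢ[ℝ] E3) (v : E3) (x : E3) :
    rig L.symm (-(L.symm v)) (rig L v x) = x := by
  simp [rig]

lemma rig_inv_image (L : E3 ≃ₗᵢ[ℝ] E3) (v : E3) (Q : Set E3) :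
    rig L.symm (-(L.symm v)) '' (rig L v '' Q) = Q := by
  rw [← image_comp]
  have : (rig L.symm (-(L.symm v)) ∘ rig L v) = id := by
    ext1 x
    exact rig_inv L v x
  rw [this, image_id]

lemma rig_inj (L : E3 ≃ₗᵢ[ℝ] E3) (v : E3) : Function.Injective (rig L v) := by
  intro x y h
  have h1 := rig_inv L v x
  rw [h, rig_inv] at h1
  exact h1.symm

lemma rig_isometry (L : E3 ≃ₗᵢ[ℝ] E3) (v : E3) : Isometry (rig L v) := by
  apply Isometry.of_dist_eq
  intro x y
  simp [rig, dist_add_right]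

lemma rig_comb (L : E3 ≃ₗᵢ[ℝ] E3) (v : E3) (x y : E3) (a b : ℝ) (hab : a + b = 1) :
    rig L v (a • x + b • y) = a • rig L v x + b • rig L v y := by
  simp only [rig, map_add, map_smul, smul_add]
  have : v = a • v + b • v := by rw [← add_smul, hab, one_smul]
  conv_lhs => rw [this]
  abel

lemma rig_segment (L : E3 ≃ₗᵢ[ℝ] E3) (v : E3) (x y : E3) :
    rig L v '' segment ℝ x y = segment ℝ (rig L v x) (rig L v y) := by
  ext z
  constructor
  · rintro ⟨w, ⟨a, b, ha, hb, hab, rfl⟩, rfl⟩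
    exact ⟨a, b, ha, hb, hab, (rig_comb L v x y a b hab).symm⟩
  · rintro ⟨a, b, ha, hb, hab, rfl⟩
    exact ⟨_, ⟨a, b, ha, hb, hab, rfl⟩, rig_comb L v x y a b hab⟩

lemma rig_hull_sub (L : E3 ≃ₗᵢ[ℝ] E3) (v : E3) (Q : Set E3) :
    rig L v '' convexHull ℝ Q ⊆ convexHull ℝ (rig L v '' Q) := by
  have : convexHull ℝ Q ⊆ {x | rig L v x ∈ convexHull ℝ (rig L v '' Q)} := by
    refine convexHull_min ?_ ?_
    · intro x hx
      exact subset_convexHull ℝ _ ⟨x, hx, rfl⟩
    · intro x hx y hy a b ha hb hab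
      simp only [mem_ofPred_eq] at hx hy ⊢
      rw [rig_comb L v x y a b hab]
      exact convex_convexHull ℝ _ hx hy ha hb hab
  rintro _ ⟨x, hx, rfl⟩
  exact this hx

lemma rig_hull (L : E3 ≃ₗᵢ[ℝ] E3) (v : E3) (Q : Set E3) :
    rig L v '' convexHull ℝ Q = convexHull ℝ (rig L v '' Q) := by
  apply Subset.antisymm (rig_hull_sub L v Q)
  have h1 := rig_hull_sub L.symm (-(L.symm v)) (rig L v '' Q)
  rw [rig_inv_image] at h1
  have h2 := image_mono (f := rig L v) h1
  refine Subset.trans ?_ h2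
  intro x hx
  refine ⟨rig L.symm (-(L.symm v)) x, ⟨x, hx, rfl⟩, ?_⟩
  simp [rig]

lemma rig_exposed (L : E3 ≃ₗᵢ[ℝ] E3) (v : E3) {P F : Set E3} (h : IsExposed ℝ P F) :
    IsExposed ℝ (rig L v '' P) (rig L v '' F) := by
  intro hne
  have hF : F.Nonempty := by
    obtain ⟨_, x, hx, _⟩ := hne
    exact ⟨x, hx⟩
  obtain ⟨l, hl⟩ := h hF
  let l' : E3 →L[ℝ] ℝ := l.comp (L.symm.toContinuousLinearEquiv : E3 →L[ℝ] E3)
  have hl' : ∀ x, l' (rig L v x) = l x + l (L.symm v) := by
    intro x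
    simp [l', rig]
  refine ⟨l', ?_⟩
  ext z
  constructor
  · rintro ⟨x, hx, rfl⟩
    rw [hl] at hx
    refine ⟨⟨x, hx.1, rfl⟩, ?_⟩
    rintro _ ⟨y, hy, rfl⟩
    rw [hl', hl']
    have := hx.2 y hy
    linarith
  · rintro ⟨⟨x, hx, rfl⟩, hmax⟩
    refine ⟨x, ?_, rfl⟩
    rw [hl]
    refine ⟨hx, fun y hy => ?_⟩
    have := hmax _ ⟨y, hy, rfl⟩
    rw [hl', hl'] at this
    linarith

lemma rig_edge (L : E3 ≃ₗᵢ[ℝ] E3) (v : E3) {P F : Set E3} (h : IsEdge P F) :
    IsEdge (rig L v '' P) (rig L v '' F) := by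
  obtain ⟨h1, x, y, hxy, rfl⟩ := h
  exact ⟨rig_exposed L v h1, rig L v x, rig L v y, fun e => hxy (rig_inj L v e),
    rig_segment L v x y⟩

lemma zeta1_le_rig (L : E3 ≃ₗᵢ[ℝ] E3) (v : E3) (P : Set E3) : zeta1 P ≤ zeta1 (rig L v '' P) := by
  let g : {F : Set E3 // IsEdge P F} → {F : Set E3 // IsEdge (rig L v '' P) F} :=
    fun F => ⟨rig L v '' F.1, rig_edge L v F.2⟩
  have hg : Function.Injective g := by
    intro F F' h
    have h1 : rig L v '' F.1 = rig L v '' F'.1 := congrArg Subtype.val h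
    exact Subtype.ext ((Set.image_injective.2 (rig_inj L v)) h1)
  have h1 := ENNReal.tsum_comp_le_tsum_of_injective hg
    (fun F : {F : Set E3 // IsEdge (rig L v '' P) F} => Metric.ediam F.1)
  refine le_trans (le_of_eq ?_) h1
  unfold zeta1
  congr 1
  ext F
  exact ((rig_isometry L v).ediam_image F.1).symm

lemma zeta1_rig (L : E3 ≃ₗᵢ[ℝ] E3) (v : E3) (P : Set E3) : zeta1 (rig L v '' P) = zeta1 P := by
  apply le_antisymm _ (zeta1_le_rig L v P)
  have := zeta1_le_rig L.symm (-(L.symm v)) (rig L v '' P)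
  rwa [rig_inv_image] at this

lemma volume_rig (L : E3 ≃ₗᵢ[ℝ] E3) (v : E3) (P : Set E3) : volume (rig L v '' P) = volume P := by
  have e : rig L v '' P = (fun x => x + v) '' (L '' P) := by
    rw [← image_comp]; rfl
  rw [e, Set.image_add_right, measure_preimage_add_right]
  have h1 : L '' P = L.symm ⁻¹' P := L.toEquiv.image_eq_preimage_symm P
  rw [h1]
  exact L.symm.measurePreserving.measure_preimage_equiv (f := L.symm.toMeasurableEquiv) P

lemma arch_rig (L : E3 ≃ₗᵢ[ℝ] E3) (v : E3) {P : Set E3} (h : IsArchPrism P) :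
    IsArchPrism (rig L v '' P) := by
  obtain ⟨a, u, s, hs, h1, h2, h3, rfl⟩ := h
  refine ⟨fun i => rig L v (a i), L u, s, hs, fun i j hij => ?_, ?_, fun i j => ?_, ?_⟩
  · rw [(rig_isometry L v).dist_eq]; exact h1 i j hij
  · rw [L.norm_map]; exact h2
  · have : rig L v (a i) - rig L v (a j) = L (a i - a j) := by simp [rig]
    rw [this, L.inner_map_map]
    exact h3 i j
  · rw [rig_hull, image_union]
    congr 2
    · rw [← range_comp]; rfl
    · rw [← range_comp]
      congr 1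
      ext1 i
      simp only [Function.comp, rig, map_add]
      abel

lemma full_of_rig (L : E3 ≃ₗᵢ[ℝ] E3) (v : E3) {P : Set E3} (h : Full (rig L v '' P)) : Full P := by
  obtain ⟨h1, h2⟩ := h
  rw [volume_rig, zeta1_rig] at h1 h2
  refine ⟨h1, fun hne he => ?_⟩
  have h3 := arch_rig L.symm (-(L.symm v)) (h2 hne he)
  rwa [rig_inv_image] at h3

/-! ### general position, first base of dimension two -/

/-- Gram determinant -/
noncomputable def Gm (u v : E3) : ℝ := ‖u‖ ^ 2 * ‖v‖ ^ 2 - inner ℝ u v ^ 2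

/-- not collinear -/
def NC3 (A : Finset E3) : Prop := ∃ p ∈ A, ∃ q ∈ A, ∃ r ∈ A, Gm (q - p) (r - p) ≠ 0

theorem full_NC3 {A B : Finset E3} {n : E3} (hn : ‖n‖ = 1) {c d : ℝ} (hcd : c < d)
    (hA : ∀ x ∈ A, inner ℝ n x = c) (hB : ∀ x ∈ B, inner ℝ n x = d) (hNC : NC3 A)
    (hBne : B.Nonempty) : Full (convexHull ℝ ((A : Set E3) ∪ B)) := by
  classical
  -- orthonormal basis with third vector n
  obtain ⟨b, hb⟩ : ∃ b : OrthonormalBasis (Fin 3) ℝ E3, b 2 = n := by
    have hv : Orthonormal ℝ (({2} : Set (Fin 3)).restrict (fun _ : Fin 3 => n)) := by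
      constructor
      · intro i; exact hn
      · intro i j hij
        exact absurd (Subtype.ext ((mem_singleton_iff.1 i.2).trans (mem_singleton_iff.1 j.2).symm)) hij
    obtain ⟨b, hb⟩ := hv.exists_orthonormalBasis_extension_of_card_eq (by simp)
    exact ⟨b, hb 2 rfl⟩
  set φ : E3 → ℂ := fun x => ⟨inner ℝ (b 0) x, inner ℝ (b 1) x⟩ with hφ
  set f : E3 → E3 := rig b.repr (-(c • EuclideanSpace.single 2 (1 : ℝ))) with hf
  have hfx : ∀ x, f x = pt (φ x) (inner ℝ n x - c) := by
    intro x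
    ext i
    fin_cases i
    · simp [hf, rig, hφ, pt, OrthonormalBasis.repr_apply_apply]
    · simp [hf, rig, hφ, pt, OrthonormalBasis.repr_apply_apply]
    · simp [hf, rig, pt, OrthonormalBasis.repr_apply_apply, hb, sub_eq_add_neg]
  apply full_of_rig b.repr (-(c • EuclideanSpace.single 2 (1 : ℝ)))
  rw [rig_hull, image_union]
  have e1 : rig b.repr (-(c • EuclideanSpace.single 2 (1 : ℝ))) '' (A : Set E3) =
      (fun z => pt z 0) '' ((A.image φ : Finset ℂ) : Set ℂ) := by
    rw [Finset.coe_image, ← image_comp]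
    apply image_congr
    intro x hx
    change f x = _
    rw [hfx, hA x hx, sub_self]
    rfl
  have e2 : rig b.repr (-(c • EuclideanSpace.single 2 (1 : ℝ))) '' (B : Set E3) =
      (fun z => pt z (d - c)) '' ((B.image φ : Finset ℂ) : Set ℂ) := by
    rw [Finset.coe_image, ← image_comp]
    apply image_congr
    intro x hx
    change f x = _
    rw [hfx, hB x hx]
    rfl
  rw [e1, e2]
  have hNC' : NC (A.image φ) := by
    obtain ⟨p, hp, q, hq, r, hr, hne⟩ := hNC
    refine ⟨φ p, Finset.mem_image_of_mem _ hp, φ q, Finset.mem_image_of_mem _ hq, φ r,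
      Finset.mem_image_of_mem _ hr, fun h0 => hne ?_⟩
    have hd : ∀ x ∈ A, ∀ y ∈ A, inner ℝ (b 2) (x - y) = 0 := by
      intro x hx y hy
      rw [hb, inner_sub_right, hA x hx, hA y hy, sub_self]
    have hinner : ∀ u v : E3, inner ℝ u v = inner ℝ (b 0) u * inner ℝ (b 0) v +
        inner ℝ (b 1) u * inner ℝ (b 1) v + inner ℝ (b 2) u * inner ℝ (b 2) v := by
      intro u v
      rw [← b.sum_inner_mul_inner u v, Fin.sum_univ_three]
      simp only [real_inner_comm]
    have h1 := cr_sq (φ q - φ p) (φ r - φ p)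
    rw [h0] at h1
    have hsub : ∀ x y : E3, φ x - φ y = φ (x - y) := by
      intro x y
      simp only [hφ]
      apply Complex.ext <;> simp [inner_sub_right]
    rw [hsub, hsub] at h1
    have hnorm : ∀ u : E3, inner ℝ (b 2) u = 0 → ‖φ u‖ ^ 2 = ‖u‖ ^ 2 := by
      intro u hu
      rw [← real_inner_self_eq_norm_sq u, hinner, hu, ← Complex.normSq_eq_norm_sq,
        Complex.normSq_apply]
      simp only [hφ]
      ring
    rw [hnorm _ (hd q hq p hp), hnorm _ (hd r hr p hp)] at h1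
    rw [Gm, hinner (q - p) (r - p), hd q hq p hp]
    simp only [hφ] at h1
    linarith
  exact std_all hNC' (hBne.image φ) (sub_pos.2 hcd)

end Pool.Agent.Work.MP_3892ce_gt.helper74
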