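import Mathlib

/-! # Melzak's problem, prismatoids (helper74): the scalar inequality -/

set_option autoImplicit false

namespace Pool.Agent.Work.MP_3892ce_gt.helper74

open Real

lemma sq_le_sq_of {a b : ℝ} (hb : 0 ≤ b) (h : a ^ 2 ≤ b ^ 2) : a ≤ b :=
  (abs_le_of_sq_le_sq' h hb).2

/-- case (a) -/
lemma scal_a {t m y : ℝ} (hm : 0 ≤ m) (hy : 0 ≤ y) (ht : 0 ≤ t) (hty : t ≤ y ^ 2)
    (h : 2 * y ^ 2 ≤ 3 * m ^ 2) :
    729 * (y ^ 2 - t) * (m ^ 2 + t / 3) ^ 2 + 300 * m ^ 2 * t ^ 2 ≤ ((2 * m + y) ^ 3) ^ 2 := by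
  have h1 : 27 * y * m ^ 2 ≤ (2 * m + y) ^ 3 := by
    nlinarith [mul_nonneg hm (sq_nonneg (m - y)), mul_nonneg hy (sq_nonneg (m - y)),
      mul_nonneg hm hy, pow_nonneg hm 3]
  have h2 : (27 * y * m ^ 2) ^ 2 ≤ ((2 * m + y) ^ 3) ^ 2 :=
    pow_le_pow_left₀ (by positivity) h1 2
  have h3 : 729 * (y ^ 2 - t) * (m ^ 2 + t / 3) ^ 2 + 300 * m ^ 2 * t ^ 2 ≤ (27 * y * m ^ 2) ^ 2 := by
    have e : (27 * y * m ^ 2) ^ 2 - (729 * (y ^ 2 - t) * (m ^ 2 + t / 3) ^ 2) =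
        729 * t * (m ^ 4 + 2 / 3 * m ^ 2 * t + t ^ 2 / 9 - y ^ 2 * (2 / 3 * m ^ 2 + t / 9)) := by
      ring
    have h4 : m ^ 2 * t / 2 ≤
        m ^ 4 + 2 / 3 * m ^ 2 * t + t ^ 2 / 9 - y ^ 2 * (2 / 3 * m ^ 2 + t / 9) := by
      have := mul_le_mul_of_nonneg_right h (by positivity : 0 ≤ 2 / 3 * m ^ 2 + t / 9)
      nlinarith [sq_nonneg t]
    have h5 := mul_le_mul_of_nonneg_left h4 (by positivity : 0 ≤ 729 * t)
    nlinarith [mul_nonneg (sq_nonneg m) (sq_nonneg t)]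
  exact h3.trans h2

/-- case (b) -/
lemma scal_b {t m y : ℝ} (hm : 0 < m) (hy : 0 ≤ y) (ht : 0 ≤ t) (hty : t ≤ y ^ 2)
    (h1 : 3 * m ^ 2 ≤ 2 * y ^ 2) (h2 : y ^ 2 ≤ 3 * m ^ 2) :
    729 * (y ^ 2 - t) * (m ^ 2 + t / 3) ^ 2 < ((2 * m + y) ^ 3) ^ 2 := by
  have b1 : 1.22 * m ≤ y := sq_le_sq_of hy (by nlinarith)
  have b2 : y ≤ 1.74 * m := sq_le_sq_of (by positivity) (by nlinarith)
  have h3 : 2.2895 * (y ^ 2 + 3 * m ^ 2) < (2 * m + y) ^ 2 := by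
    nlinarith [mul_nonneg (sub_nonneg.2 b1) (sub_nonneg.2 b2), mul_pos hm hm,
      mul_nonneg hm.le (sub_nonneg.2 b1)]
  have h4 : 0 < y ^ 2 + 3 * m ^ 2 := by positivity
  have h5 : (2.2895 * (y ^ 2 + 3 * m ^ 2)) ^ 3 < ((2 * m + y) ^ 2) ^ 3 :=
    pow_lt_pow_left₀ h3 (by positivity) (by norm_num)
  have h6 : 729 * (y ^ 2 - t) * (m ^ 2 + t / 3) ^ 2 ≤ 12 * (y ^ 2 + 3 * m ^ 2) ^ 3 := by
    set u := y ^ 2 - t with hu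
    set v := m ^ 2 + t / 3 with hv
    have hu0 : 0 ≤ u := by rw [hu]; linarith
    have hv0 : 0 ≤ v := by rw [hv]; positivity
    have e : y ^ 2 + 3 * m ^ 2 = u + 3 * v := by rw [hu, hv]; ring
    rw [e]
    nlinarith [mul_nonneg hu0 (sq_nonneg (2 * u - 3 * v)), mul_nonneg hv0 (sq_nonneg (2 * u - 3 * v)),
      pow_nonneg hu0 3, pow_nonneg hv0 3]
  have h7 : 12 * (y ^ 2 + 3 * m ^ 2) ^ 3 ≤ (2.2895 * (y ^ 2 + 3 * m ^ 2)) ^ 3 := by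
    rw [mul_pow]
    exact mul_le_mul_of_nonneg_right (by norm_num) (by positivity)
  have e : ((2 * m + y) ^ 3) ^ 2 = ((2 * m + y) ^ 2) ^ 3 := by ring
  rw [e]
  linarith

/-- case (c) -/
lemma scal_c {t m y : ℝ} (hm : 0 < m) (hy : 0 ≤ y) (ht : 0 ≤ t) (htm : t ≤ m ^ 2)
    (h : 3 * m ^ 2 ≤ y ^ 2) :
    729 * (y ^ 2 - t) * (m ^ 2 + t / 3) ^ 2 < ((2 * m + y) ^ 3) ^ 2 := by
  have b1 : 1.7 * m ≤ y := sq_le_sq_of hy (by nlinarith)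
  have h1 : (y ^ 2 - t) * (m ^ 2 + t / 3) ^ 2 ≤ (y ^ 2 - m ^ 2) * (16 / 9) * m ^ 4 := by
    set s := m ^ 2 - t with hs
    have hs0 : 0 ≤ s := by rw [hs]; linarith
    have et : t = m ^ 2 - s := by rw [hs]; ring
    have e : (y ^ 2 - m ^ 2) * (16 / 9) * m ^ 4 - (y ^ 2 - t) * (m ^ 2 + t / 3) ^ 2 =
        s * ((y ^ 2 - m ^ 2) * (8 / 9 * m ^ 2 - s / 9) - (4 / 3 * m ^ 2 - s / 3) ^ 2) := by
      rw [et]; ring
    have h2 : 0 ≤ (y ^ 2 - m ^ 2) * (8 / 9 * m ^ 2 - s / 9) - (4 / 3 * m ^ 2 - s / 3) ^ 2 := by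
      have hs1 : s ≤ m ^ 2 := by rw [hs]; linarith
      have h3 : 2 * m ^ 2 * (8 / 9 * m ^ 2 - s / 9) ≤ (y ^ 2 - m ^ 2) * (8 / 9 * m ^ 2 - s / 9) :=
        mul_le_mul_of_nonneg_right (by linarith) (by nlinarith [sq_nonneg m])
      nlinarith [mul_nonneg hs0 (sub_nonneg.2 hs1), mul_nonneg hs0 (sq_nonneg m)]
    nlinarith [mul_nonneg hs0 h2]
  have h2 : 36 / 3.1 * m * (y ^ 2 + 1.4025 * m ^ 2) < (2 * m + y) ^ 3 := by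
    obtain ⟨w, hw, rfl⟩ : ∃ w, 0 ≤ w ∧ y = 1.7 * m + w := ⟨y - 1.7 * m, by linarith, by ring⟩
    nlinarith [pow_pos hm 3, mul_nonneg (sq_nonneg m) hw, mul_nonneg hm.le (sq_nonneg w),
      pow_nonneg hw 3, mul_nonneg hw (sq_nonneg (w - 0.25 * m))]
  have h3 : (36 / 3.1 * m * (y ^ 2 + 1.4025 * m ^ 2)) ^ 2 < ((2 * m + y) ^ 3) ^ 2 :=
    pow_lt_pow_left₀ h2 (by positivity) (by norm_num)
  have h4 : 1296 * ((y ^ 2 - m ^ 2) * m ^ 4) ≤ (36 / 3.1 * m * (y ^ 2 + 1.4025 * m ^ 2)) ^ 2 := by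
    have : 0 ≤ m ^ 2 * (y ^ 2 - m ^ 2 - 1.55 ^ 2 * m ^ 2) ^ 2 := by positivity
    nlinarith
  nlinarith

/-- the scalar inequality -/
theorem scalar {x m g y : ℝ} (hx : 0 ≤ x) (hm : 0 ≤ m) (hy : 0 ≤ y) (hyx : y ^ 2 = x ^ 2 + g ^ 2)
    (hg : g ^ 2 ≤ m ^ 2) : 27 * x * (m ^ 2 + g ^ 2 / 3) ≤ (2 * m + y) ^ 3 := by
  rcases eq_or_lt_of_le hm with h0 | h0
  · have hg0 : g ^ 2 = 0 := le_antisymm (by rw [← h0] at hg; simpa using hg) (sq_nonneg g)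
    rw [hg0, ← h0]
    simp
    positivity
  have e : (27 * x * (m ^ 2 + g ^ 2 / 3)) ^ 2 = 729 * (y ^ 2 - g ^ 2) * (m ^ 2 + g ^ 2 / 3) ^ 2 := by
    rw [hyx]; ring
  refine sq_le_sq_of (by positivity) ?_
  rw [e]
  have hty : g ^ 2 ≤ y ^ 2 := by rw [hyx]; nlinarith [sq_nonneg x]
  rcases le_or_gt (2 * y ^ 2) (3 * m ^ 2) with h | h
  · have := scal_a hm hy (sq_nonneg g) hty h
    nlinarith [mul_nonneg (sq_nonneg m) (sq_nonneg (g ^ 2))]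
  · rcases le_or_gt (y ^ 2) (3 * m ^ 2) with h' | h'
    · exact (scal_b h0 hy (sq_nonneg g) hty h.le h').le
    · exact (scal_c h0 hy (sq_nonneg g) hg h'.le).le

/-- equality in the scalar inequality -/
theorem scalar_eq {x m g y : ℝ} (hx : 0 ≤ x) (hm : 0 < m) (hy : 0 ≤ y) (hyx : y ^ 2 = x ^ 2 + g ^ 2)
    (hg : g ^ 2 ≤ m ^ 2) (he : 27 * x * (m ^ 2 + g ^ 2 / 3) = (2 * m + y) ^ 3) : g = 0 ∧ x = m := by
  have e : (27 * x * (m ^ 2 + g ^ 2 / 3)) ^ 2 = 729 * (y ^ 2 - g ^ 2) * (m ^ 2 + g ^ 2 / 3) ^ 2 := by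
    rw [hyx]; ring
  have hty : g ^ 2 ≤ y ^ 2 := by rw [hyx]; nlinarith [sq_nonneg x]
  have he2 : ((2 * m + y) ^ 3) ^ 2 = 729 * (y ^ 2 - g ^ 2) * (m ^ 2 + g ^ 2 / 3) ^ 2 := by
    rw [← he, e]
  rcases le_or_gt (2 * y ^ 2) (3 * m ^ 2) with h | h
  · have h1 := scal_a hm.le hy (sq_nonneg g) hty h
    have h2 : m ^ 2 * (g ^ 2) ^ 2 ≤ 0 := by nlinarith
    have h3 : g = 0 := by
      by_contra hne
      have : 0 < m ^ 2 * (g ^ 2) ^ 2 := by positivity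
      linarith
    refine ⟨h3, ?_⟩
    subst h3
    have h4 : y = x := by
      have : y ^ 2 = x ^ 2 := by rw [hyx]; ring
      exact (sq_eq_sq₀ hy hx).1 this
    subst h4
    have h5 : (y - m) ^ 2 * (y + 8 * m) = 0 := by nlinarith
    rcases mul_eq_zero.1 h5 with h6 | h6
    · have := pow_eq_zero_iff two_ne_zero |>.1 h6
      linarith
    · linarith
  · exfalso
    rcases le_or_gt (y ^ 2) (3 * m ^ 2) with h' | h'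
    · have := scal_b hm hy (sq_nonneg g) hty h.le h'
      linarith
    · have := scal_c hm hy (sq_nonneg g) hg h'.le
      linarith

end Pool.Agent.Work.MP_3892ce_gt.helper74
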