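import Pool.Agent.Work.MP_3892ce_helper74.Wedge3

/-! # Melzak's problem, prismatoids (helper74): two bases of dimension two, or an apex -/

set_option autoImplicit false

namespace Pool.Agent.Work.MP_3892ce_gt.helper74

open Real Set MeasureTheory

lemma amgm3_eq {x y z : ℝ} (hx : 0 ≤ x) (hy : 0 ≤ y) (hz : 0 ≤ z) (hs : 0 < x + y + z)
    (he : 27 * (x * y * z) = (x + y + z) ^ 3) : x = y ∧ y = z := by
  have h1 : (x + y + z) * ((x - y) ^ 2 + (y - z) ^ 2 + (z - x) ^ 2) / 2 +
      3 * (x * (y - z) ^ 2 + y * (z - x) ^ 2 + z * (x - y) ^ 2) = 0 := by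
    linear_combination (-1) * he
  have h2 : 0 ≤ x * (y - z) ^ 2 + y * (z - x) ^ 2 + z * (x - y) ^ 2 := by positivity
  have h3 : (x + y + z) * ((x - y) ^ 2 + (y - z) ^ 2 + (z - x) ^ 2) = 0 := by
    have : 0 ≤ (x + y + z) * ((x - y) ^ 2 + (y - z) ^ 2 + (z - x) ^ 2) := by positivity
    linarith
  have h4 : (x - y) ^ 2 + (y - z) ^ 2 + (z - x) ^ 2 = 0 := by
    rcases mul_eq_zero.1 h3 with h | h
    · exact absurd h hs.ne'
    · exact h
  constructor
  · have : (x - y) ^ 2 = 0 := by nlinarith [sq_nonneg (x - y), sq_nonneg (y - z), sq_nonneg (z - x)]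
    have := pow_eq_zero_iff two_ne_zero |>.1 this
    linarith
  · have : (y - z) ^ 2 = 0 := by nlinarith [sq_nonneg (x - y), sq_nonneg (y - z), sq_nonneg (z - x)]
    have := pow_eq_zero_iff two_ne_zero |>.1 this
    linarith

/-- equality for triangles -/
lemma sh_three_eq {c : ℕ → ℂ} (hc : c 3 = c 0) (hpos : 0 < per 3 c)
    (he : sh 3 c = per 3 c ^ 2 / (12 * √3)) :
    ‖c 1 - c 0‖ = per 3 c / 3 ∧ ‖c 2 - c 1‖ = per 3 c / 3 ∧ ‖c 0 - c 2‖ = per 3 c / 3 := by
  set e := c 1 - c 0 with he'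
  set f := c 2 - c 1 with hf
  set g := c 0 - c 2 with hg
  have hsh : sh 3 c = cr e f / 2 := by
    simp only [sh, Finset.sum_range_succ, Finset.sum_range_zero, zero_add, hc, he', hf, cr,
      Complex.sub_re, Complex.sub_im, Nat.reduceAdd]
    ring
  have hper : per 3 c = ‖e‖ + ‖f‖ + ‖g‖ := by
    simp only [per, Finset.sum_range_succ, Finset.sum_range_zero, zero_add, hc, he', hf, hg,
      Nat.reduceAdd]
  have hefg : g = -(e + f) := by rw [he', hf, hg]; ring
  rw [hper] at hpos he ⊢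
  set a := ‖e‖ with ha
  set b := ‖f‖ with hb
  set d := ‖g‖ with hd
  have t1 : d ≤ a + b := by rw [hd, hefg, norm_neg]; exact norm_add_le _ _
  have t2 : a ≤ b + d := by
    have : e = -(f + g) := by rw [hefg]; ring
    rw [ha, this, norm_neg]; exact norm_add_le _ _
  have t3 : b ≤ d + a := by
    have : f = -(g + e) := by rw [hefg]; ring
    rw [hb, this, norm_neg]; exact norm_add_le _ _
  have hin : d ^ 2 = a ^ 2 + b ^ 2 + 2 * (e.re * f.re + e.im * f.im) := by
    rw [hd, ha, hb, ← Complex.normSq_eq_norm_sq, ← Complex.normSq_eq_norm_sq,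
      ← Complex.normSq_eq_norm_sq, hefg, Complex.normSq_neg, Complex.normSq_apply,
      Complex.normSq_apply, Complex.normSq_apply, Complex.add_re, Complex.add_im]
    ring
  have hcr := cr_sq e f
  rw [← ha, ← hb] at hcr
  have h4 : 4 * cr e f ^ 2 = (a + b + d) * ((a + b - d) * (b + d - a) * (d + a - b)) := by
    have : e.re * f.re + e.im * f.im = (d ^ 2 - a ^ 2 - b ^ 2) / 2 := by linarith
    rw [hcr, this]; ring
  obtain ⟨s0, s1, s2⟩ := sqrt3_facts
  have h5 : 108 * cr e f ^ 2 = (a + b + d) ^ 4 := by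
    have h6 : cr e f * (6 * √3) = (a + b + d) ^ 2 := by
      rw [hsh] at he
      field_simp at he
      linarith
    have h7 : (cr e f * (6 * √3)) ^ 2 = ((a + b + d) ^ 2) ^ 2 := by rw [h6]
    have h8 : (cr e f * (6 * √3)) ^ 2 = 36 * √3 ^ 2 * cr e f ^ 2 := by ring
    rw [h8, s1] at h7
    linarith
  have h6 : 27 * ((a + b - d) * (b + d - a) * (d + a - b)) =
      ((a + b - d) + (b + d - a) + (d + a - b)) ^ 3 := by
    have h7 : (a + b - d) + (b + d - a) + (d + a - b) = a + b + d := by ring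
    rw [h7]
    have h8 : (a + b + d) * (27 * ((a + b - d) * (b + d - a) * (d + a - b))) =
        (a + b + d) * (a + b + d) ^ 3 := by
      linear_combination h5 - 27 * h4
    exact mul_left_cancel₀ hpos.ne' h8
  obtain ⟨k1, k2⟩ := amgm3_eq (by linarith) (by linarith) (by linarith) (by linarith) h6
  refine ⟨by linarith, by linarith, by linarith⟩

namespace Sw

variable {A B : Finset ℂ} (S : Sw A B)

lemma per_a : per S.k S.a = S.pA := by
  rw [per, pA]; exact Finset.sum_congr rfl fun j _ => S.norm_a j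

lemma per_b : per S.k S.b = S.pB := by
  rw [per, pB]; exact Finset.sum_congr rfl fun j _ => S.norm_b j

lemma a_k : S.a S.k = S.a 0 := by
  have := S.aper 0
  rwa [zero_add] at this

lemma b_k : S.b S.k = S.b 0 := by
  have := S.bper 0
  rwa [zero_add] at this

/-- strictness of the isoperimetric inequality unless `k = 3` -/
lemma iso_strict {k : ℕ} (hk0 : 0 < k) {c : ℕ → ℂ} (hk : c k = c 0) (hper : ∀ j, c (j + k) = c j)
    (hpos : 0 < per k c) (he : sh k c = k * per k c ^ 2 / (36 * √3)) : k = 3 := by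
  obtain ⟨s0, s1, s2⟩ := sqrt3_facts
  have hP : 0 < per k c ^ 2 := by positivity
  have hkR : (0 : ℝ) < k := by exact_mod_cast hk0
  have hR : 0 < k * per k c ^ 2 / (36 * √3) := by positivity
  have hcase : k = 1 ∨ k = 2 ∨ k = 3 ∨ k = 4 ∨ 5 ≤ k := by omega
  rcases hcase with h1 | h2 | h3 | h4 | h5
  · exfalso
    have : sh k c = 0 := by subst h1; exact sh_one hk
    rw [he] at this
    exact hR.ne' this
  · exfalso
    have : sh k c = 0 := by subst h2; exact sh_two hk
    rw [he] at this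
    exact hR.ne' this
  · exact h3
  · exfalso
    have h := (show sh k c ≤ per k c ^ 2 / 16 by subst h4; exact sh_four hk)
    rw [he, h4, div_le_div_iff₀ (by positivity) (by norm_num)] at h
    rw [h4] at hP
    push_cast at h
    nlinarith
  · exfalso
    have h := isoper hk0 hk hper
    have hpi := Real.pi_gt_d2
    rw [he, div_le_div_iff₀ (by positivity) (by positivity)] at h
    have hk5 : (5 : ℝ) ≤ k := by exact_mod_cast h5
    have h6 : 36 * √3 < k * (4 * π) := by nlinarith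
    nlinarith

theorem melzak_std_full {h : ℝ} (hh : 0 < h) (hA : NC A) (hB : NC B ∨ ∀ j, S.β j = 0) :
    ENNReal.ofReal (972 * √3) * volume (Pr A B h) ≤ zeta1 (Pr A B h) ^ 3 ∧
    (volume (Pr A B h) ≠ 0 →
      ENNReal.ofReal (972 * √3) * volume (Pr A B h) = zeta1 (Pr A B h) ^ 3 →
      IsArchPrism (Pr A B h)) := by
  obtain ⟨s0, s1, s2⟩ := sqrt3_facts
  have hkpos : (0 : ℝ) < S.k := by exact_mod_cast S.hk
  set m := (S.pA + S.pB) / 2 with hm
  set g := (S.pB - S.pA) / 2 with hg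
  have hpA := S.pA_nonneg
  have hpB := S.pB_nonneg
  have hm0 : 0 ≤ m := by rw [hm]; positivity
  have hgm : g ^ 2 ≤ m ^ 2 := by
    rw [hg, hm]; nlinarith [mul_nonneg hpA hpB]
  set y := √((S.k * h) ^ 2 + g ^ 2) with hy
  have hy0 : 0 ≤ y := Real.sqrt_nonneg _
  have hy2 : y ^ 2 = (S.k * h) ^ 2 + g ^ 2 := Real.sq_sqrt (by positivity)
  have h1 := scalar (x := S.k * h) (by positivity) hm0 hy0 hy2 hgm
  have hsW := S.sum_W_ge h
  rw [← hg, ← hy] at hsW
  have h2 : 2 * m + y ≤ S.LL h := by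
    rw [LL]
    have e : 2 * m = S.pA + S.pB := by rw [hm]; ring
    rw [e]
    linarith
  have hL0 : 0 ≤ S.LL h := le_trans (by positivity) h2
  -- the three section areas
  have fc : Continuous fun s : ℝ => sh S.k (S.c s) := by
    simp only [S.sh_c]; fun_prop
  have fa : 0 ≤ sh S.k S.a := by
    have h3 : sh S.k (S.c 0) = sh S.k S.a := by rw [S.sh_c]; ring
    have h4 := fc.tendsto 0
    simp only [h3] at h4
    have h5 : Filter.Tendsto (fun s : ℝ => sh S.k (S.c s)) (nhdsWithin (0 : ℝ) (Ioi 0))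
      (nhds (sh S.k S.a)) := h4.mono_left nhdsWithin_le_nhds
    refine ge_of_tendsto h5 ?_
    have h6 : Ioo (0 : ℝ) 1 ∈ nhdsWithin (0 : ℝ) (Ioi 0) := Ioo_mem_nhdsGT one_pos
    filter_upwards [h6] with s hs
    exact S.sh_c_nonneg hA hs.1 hs.2
  have fb : 0 ≤ sh S.k S.b := by
    have h3 : sh S.k (S.c 1) = sh S.k S.b := by rw [S.sh_c]; ring
    have h4 := fc.tendsto 1
    simp only [h3] at h4
    have h5 : Filter.Tendsto (fun s : ℝ => sh S.k (S.c s)) (nhdsWithin (1 : ℝ) (Iio 1))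
      (nhds (sh S.k S.b)) := h4.mono_left nhdsWithin_le_nhds
    refine ge_of_tendsto h5 ?_
    have h6 : Ioo (0 : ℝ) 1 ∈ nhdsWithin (1 : ℝ) (Iio 1) := Ioo_mem_nhdsLT one_pos
    filter_upwards [h6] with s hs
    exact S.sh_c_nonneg hA hs.1 hs.2
  have fm : 0 ≤ sh S.k S.a + S.MM + sh S.k S.b := by
    have h3 := S.sh_c_nonneg hA (s := 1 / 2) (by norm_num) (by norm_num)
    rw [S.sh_c] at h3
    linarith
  set K := (S.k : ℝ) / (36 * √3) with hK
  have hK0 : 0 < K := by rw [hK]; positivity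
  have ga : sh S.k S.a ≤ K * S.pA ^ 2 := by
    have := iso_k S.hk S.a_k S.aper
    rw [S.per_a] at this
    refine this.trans (le_of_eq ?_)
    rw [hK]; ring
  have gb : sh S.k S.b ≤ K * S.pB ^ 2 := by
    have := iso_k S.hk S.b_k S.bper
    rw [S.per_b] at this
    refine this.trans (le_of_eq ?_)
    rw [hK]; ring
  have gm : (sh S.k S.a + S.MM + sh S.k S.b) / 4 ≤ K * m ^ 2 := by
    have := iso_k S.hk (S.c_k (1 / 2)) (S.c_per (1 / 2))
    rw [S.per_c (by norm_num) (by norm_num), S.sh_c] at this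
    have e : K * m ^ 2 = S.k * ((1 - 1 / 2) * S.pA + 1 / 2 * S.pB) ^ 2 / (36 * √3) := by
      rw [hK, hm]; ring
    rw [e]
    refine le_trans (le_of_eq ?_) this
    ring
  set V := h * (sh S.k S.a / 3 + S.MM / 6 + sh S.k S.b / 3) with hV
  have hVs : V = h * ((sh S.k S.a + (sh S.k S.a + S.MM + sh S.k S.b) + sh S.k S.b) / 6) := by
    rw [hV]; ring
  have hV0 : 0 ≤ V := by
    rw [hVs]
    have : 0 ≤ sh S.k S.a + (sh S.k S.a + S.MM + sh S.k S.b) + sh S.k S.b := by linarith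
    positivity
  have hVK : V ≤ h * (K * (m ^ 2 + g ^ 2 / 3)) := by
    rw [hVs]
    apply mul_le_mul_of_nonneg_left _ hh.le
    have e : K * (m ^ 2 + g ^ 2 / 3) = (K * S.pA ^ 2 + 4 * (K * m ^ 2) + K * S.pB ^ 2) / 6 := by
      rw [hm, hg]; ring
    rw [e]
    linarith
  have e972 : 972 * √3 * (h * (K * (m ^ 2 + g ^ 2 / 3))) = 27 * (S.k * h) * (m ^ 2 + g ^ 2 / 3) := by
    rw [hK]
    field_simp
    ring
  have hc1 : 972 * √3 * V ≤ 27 * (S.k * h) * (m ^ 2 + g ^ 2 / 3) := by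
    rw [← e972]
    exact mul_le_mul_of_nonneg_left hVK (by positivity)
  have hc3 : (2 * m + y) ^ 3 ≤ S.LL h ^ 3 := pow_le_pow_left₀ (by positivity) h2 3
  obtain ⟨g1, g2⟩ := chain hV0 hL0 (S.volume_le_sh hh hA) (S.zeta1_ge hh hA hB)
    (hc1.trans (h1.trans hc3))
  refine ⟨g1, fun hne he => ?_⟩
  obtain ⟨hVpos, e1⟩ := g2 hne he
  -- equalities
  have q1 : 27 * (S.k * h) * (m ^ 2 + g ^ 2 / 3) = (2 * m + y) ^ 3 :=
    le_antisymm h1 (by linarith)
  have q2 : 972 * √3 * V = 27 * (S.k * h) * (m ^ 2 + g ^ 2 / 3) := le_antisymm hc1 (by linarith)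
  have q3 : S.LL h = 2 * m + y := by
    have : (2 * m + y) ^ 3 = S.LL h ^ 3 := le_antisymm hc3 (by linarith)
    exact ((pow_left_inj₀ (by positivity) hL0 (by norm_num)).1 this).symm
  have hmpos : 0 < m := by
    rcases eq_or_lt_of_le hm0 with h0 | h0
    · exfalso
      have hg0 : g ^ 2 = 0 := le_antisymm (by rw [← h0] at hgm; simpa using hgm) (sq_nonneg g)
      rw [← h0, hg0] at q2
      have : 972 * √3 * V = 0 := by rw [q2]; ring
      have : 0 < 972 * √3 * V := by positivity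
      linarith
    · exact h0
  obtain ⟨q4, q5⟩ := scalar_eq (by positivity) hmpos hy0 hy2 hgm q1
  have q6 : y = S.k * h := by
    rw [hy, q4]
    have : (S.k * h) ^ 2 + 0 ^ 2 = (S.k * h) ^ 2 := by ring
    rw [this, Real.sqrt_sq (by positivity)]
  have q7 : S.pA = m ∧ S.pB = m := by
    rw [hg] at q4
    constructor <;> rw [hm] <;> linarith
  -- lateral edges
  have q8 : ∑ j ∈ Finset.range S.k, S.W h j = S.k * h := by
    rw [LL, q6] at q3
    have e : 2 * m = S.pA + S.pB := by rw [hm]; ring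
    rw [e] at q3
    linarith
  have hWh : ∀ j, h ≤ S.W h j := by
    intro j
    rw [W, norm_pt_sub]
    apply Real.le_sqrt_of_sq_le
    nlinarith [sq_nonneg ‖S.a j - S.b j‖]
  have q9 : ∀ j ∈ Finset.range S.k, S.W h j = h := by
    have h5 : ∑ j ∈ Finset.range S.k, (S.W h j - h) = 0 := by
      rw [Finset.sum_sub_distrib, q8]; simp
    have h6 := (Finset.sum_eq_zero_iff_of_nonneg fun j _ => sub_nonneg.2 (hWh j)).1 h5
    intro j hj
    have := h6 j hj
    linarith
  have q10 : ∀ j, S.b j = S.a j := by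
    intro j
    have h5 := q9 (j % S.k) (Finset.mem_range.2 (Nat.mod_lt _ S.hk))
    rw [periodic_mod S.hk (S.W_per h)] at h5
    rw [W, norm_pt_sub] at h5
    have h6 : ‖S.a j - S.b j‖ ^ 2 + (0 - h) ^ 2 = h ^ 2 := by
      have h7 := Real.sq_sqrt (show 0 ≤ ‖S.a j - S.b j‖ ^ 2 + (0 - h) ^ 2 by positivity)
      rw [h5] at h7
      exact h7.symm
    have h7 : ‖S.a j - S.b j‖ ^ 2 = 0 := by linarith
    have h8 := pow_eq_zero_iff two_ne_zero |>.1 h7
    exact (sub_eq_zero.1 (norm_eq_zero.1 h8)).symm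
  have hab : S.b = S.a := funext q10
  have hMM : S.MM = 2 * sh S.k S.a := by
    rw [MM, hab, sh]
    simp only [Finset.sum_add_distrib]
    ring
  have q11 : sh S.k S.a = K * S.pA ^ 2 := by
    have h5 : V = h * sh S.k S.a := by rw [hV, hMM, hab]; ring
    have h6 : V = h * (K * (m ^ 2 + g ^ 2 / 3)) := by
      have : 972 * √3 * V = 972 * √3 * (h * (K * (m ^ 2 + g ^ 2 / 3))) := by rw [q2, e972]
      exact mul_left_cancel₀ (by positivity : 972 * √3 ≠ 0) this
    rw [h5, q4] at h6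
    have h7 := mul_left_cancel₀ hh.ne' h6
    rw [h7, q7.1]
    ring
  have hk3 : S.k = 3 := by
    refine iso_strict S.hk S.a_k S.aper ?_ ?_
    · rw [S.per_a, q7.1]; exact hmpos
    · rw [S.per_a, q11, hK]; ring
  have hkR : (S.k : ℝ) = 3 := by rw [hk3]; norm_num
  have hper3 : per 3 S.a = S.pA := by rw [← S.per_a, hk3]
  have ha3 : S.a 3 = S.a 0 := by rw [← hk3]; exact S.a_k
  obtain ⟨r1, r2, r3⟩ := sh_three_eq ha3 (by rw [hper3, q7.1]; exact hmpos) (by
    rw [hper3]
    have : sh 3 S.a = sh S.k S.a := by rw [hk3]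
    rw [this, q11, hK, hkR]
    field_simp
    ring)
  rw [hper3, q7.1] at r1 r2 r3
  have hmh : m / 3 = h := by rw [← q5, hkR]; ring
  rw [hmh] at r1 r2 r3
  have hdist : ∀ z z' : ℂ, dist (pt z 0) (pt z' 0) = ‖z - z'‖ := by
    intro z z'
    rw [dist_eq_norm, norm_pt_sub, sub_self]
    have : ‖z - z'‖ ^ 2 + 0 ^ 2 = ‖z - z'‖ ^ 2 := by ring
    rw [this, Real.sqrt_sq (norm_nonneg _)]
  refine ⟨fun i => pt (S.a i) 0, pt 0 h, h, hh, ?_, ?_, ?_, ?_⟩
  · intro i j hij
    rw [hdist]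
    fin_cases i <;> fin_cases j <;> first | exact absurd rfl hij | skip
    · simpa [norm_sub_rev] using r1
    · simpa [norm_sub_rev] using r3
    · simpa [norm_sub_rev] using r1
    · simpa [norm_sub_rev] using r2
    · simpa [norm_sub_rev] using r3
    · simpa [norm_sub_rev] using r2
  · have e0 : pt 0 h = pt 0 h - pt 0 0 := by
      have : pt 0 0 = 0 := by
        ext i; fin_cases i <;> rfl
      rw [this, sub_zero]
    rw [e0, norm_pt_sub, sub_zero, sub_zero, norm_zero]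
    have : (0 : ℝ) ^ 2 + h ^ 2 = h ^ 2 := by ring
    rw [this, Real.sqrt_sq hh.le]
  · intro i j
    simp only [PiLp.inner_apply, Fin.sum_univ_three, PiLp.sub_apply, pt_0, pt_1, pt_2,
      RCLike.inner_apply, conj_trivial, Complex.zero_re, Complex.zero_im, sub_self, mul_zero,
      zero_mul, add_zero]
  · rw [S.Pr_eq h, hab]
    congr 1
    have hamod : ∀ j, S.a (j % 3) = S.a j := by
      have := periodic_mod S.hk S.aper
      rwa [hk3] at this
    have hadd : ∀ z : ℂ, pt z 0 + pt 0 h = pt z h := by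
      intro z
      ext i
      fin_cases i
      · simp [pt]
      · simp [pt]
      · simp [pt]
    apply Subset.antisymm
    · rintro x (⟨j, rfl⟩ | ⟨j, rfl⟩)
      · refine Or.inl ⟨⟨j % 3, Nat.mod_lt _ (by norm_num)⟩, ?_⟩
        simp only [hamod]
      · refine Or.inr ⟨⟨j % 3, Nat.mod_lt _ (by norm_num)⟩, ?_⟩
        simp only [hamod, hadd]
    · rintro x (⟨j, rfl⟩ | ⟨j, rfl⟩)
      · exact Or.inl ⟨j, rfl⟩
      · refine Or.inr ⟨j, ?_⟩
        simp only [hadd]

end Sw

end Pool.Agent.Work.MP_3892ce_gt.helper74
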