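import Mathlib

/-! # Melzak's problem, prismatoids (helper74): angular sweep of finite planar sets -/

set_option autoImplicit false

namespace Pool.Agent.Work.MP_3892ce_gt.helper74

open Real Set Filter Topology

/-- value of the linear functional in direction `θ` -/
noncomputable def val (θ : ℝ) (z : ℂ) : ℝ := Real.cos θ * z.re + Real.sin θ * z.im

/-- value of the rotated functional -/
noncomputable def dval (θ : ℝ) (z : ℂ) : ℝ := -Real.sin θ * z.re + Real.cos θ * z.im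

lemma val_add (θ : ℝ) (z w : ℂ) : val θ (z + w) = val θ z + val θ w := by
  simp [val]; ring

lemma val_sub (θ : ℝ) (z w : ℂ) : val θ (z - w) = val θ z - val θ w := by
  simp [val]; ring

lemma val_smul (θ : ℝ) (c : ℝ) (z : ℂ) : val θ (c • z) = c * val θ z := by
  simp [val]; ring

lemma dval_sub (θ : ℝ) (z w : ℂ) : dval θ (z - w) = dval θ z - dval θ w := by
  simp [dval]; ring

lemma dval_add (θ : ℝ) (z w : ℂ) : dval θ (z + w) = dval θ z + dval θ w := by
  simp [dval]; ring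

lemma dval_smul (θ : ℝ) (c : ℝ) (z : ℂ) : dval θ (c • z) = c * dval θ z := by
  simp [dval]; ring

lemma val_period (θ : ℝ) (z : ℂ) : val (θ + 2 * π) z = val θ z := by
  simp [val]

lemma val_pi (θ : ℝ) (z : ℂ) : val (θ + π) z = - val θ z := by
  simp [val]; ring

lemma val_rot (t s : ℝ) (z : ℂ) :
    val (t + s) z = Real.cos s * val t z + Real.sin s * dval t z := by
  simp only [val, dval, Real.cos_add, Real.sin_add]; ring

lemma norm_sq_val (θ : ℝ) (z : ℂ) : ‖z‖ ^ 2 = val θ z ^ 2 + dval θ z ^ 2 := by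
  rw [← Complex.normSq_eq_norm_sq, Complex.normSq_apply]
  simp only [val, dval]
  linear_combination (-(z.re ^ 2 + z.im ^ 2)) * (Real.sin_sq_add_cos_sq θ)

lemma continuous_val (z : ℂ) : Continuous fun θ => val θ z := by
  unfold val; fun_prop

lemma val_comb (φ t ψ : ℝ) (z : ℂ) :
    Real.sin (ψ - φ) * val t z = Real.sin (ψ - t) * val φ z + Real.sin (t - φ) * val ψ z := by
  simp only [val, Real.sin_sub]
  ring

/-- `m` is the unique maximiser over `S` in direction `θ` -/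
def UM (S : Finset ℂ) (θ : ℝ) (m : ℂ) : Prop := m ∈ S ∧ ∀ m' ∈ S, m' ≠ m → val θ m' < val θ m

lemma UM.unique {S : Finset ℂ} {θ : ℝ} {m m' : ℂ} (h : UM S θ m) (h' : UM S θ m') : m = m' := by
  by_contra hne
  exact lt_asymm (h.2 m' h'.1 (Ne.symm hne)) (h'.2 m h.1 hne)

lemma UM.le {S : Finset ℂ} {θ : ℝ} {m : ℂ} (h : UM S θ m) {m' : ℂ} (hm : m' ∈ S) :
    val θ m' ≤ val θ m := by
  by_cases e : m' = m
  · rw [e]
  · exact (h.2 m' hm e).le

lemma UM_period {S : Finset ℂ} {θ : ℝ} {m : ℂ} : UM S (θ + 2 * π) m ↔ UM S θ m := by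
  simp only [UM, val_period]

lemma UM_comb {S : Finset ℂ} {φ t ψ : ℝ} {m : ℂ} (h1 : φ ≤ t) (h2 : t ≤ ψ) (h3 : ψ - φ < π)
    (h : UM S φ m) (h' : UM S ψ m) : UM S t m := by
  rcases eq_or_lt_of_le h1 with h1 | h1
  · rwa [← h1]
  rcases eq_or_lt_of_le h2 with h2 | h2
  · rwa [h2]
  refine ⟨h.1, fun m' hm hne => ?_⟩
  have s1 : 0 < Real.sin (ψ - φ) := Real.sin_pos_of_pos_of_lt_pi (by linarith) h3
  have s2 : 0 < Real.sin (ψ - t) := Real.sin_pos_of_pos_of_lt_pi (by linarith) (by linarith)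
  have s3 : 0 < Real.sin (t - φ) := Real.sin_pos_of_pos_of_lt_pi (by linarith) (by linarith)
  have e1 := val_comb φ t ψ m
  have e2 := val_comb φ t ψ m'
  have l1 := mul_lt_mul_of_pos_left (h.2 m' hm hne) s2
  have l2 := mul_lt_mul_of_pos_left (h'.2 m' hm hne) s3
  have : Real.sin (ψ - φ) * val t m' < Real.sin (ψ - φ) * val t m := by rw [e1, e2]; linarith
  exact lt_of_mul_lt_mul_left this s1.le

lemma UM_opp {S : Finset ℂ} {φ : ℝ} {m : ℂ} (h : UM S φ m) (h' : UM S (φ + π) m) :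
    ∀ m' ∈ S, m' = m := by
  intro m' hm
  by_contra hne
  have a := h.2 m' hm hne
  have b := h'.2 m' hm hne
  rw [val_pi, val_pi] at b
  linarith

lemma isOpen_UM (S : Finset ℂ) (m : ℂ) : IsOpen {θ | UM S θ m} := by
  by_cases hm : m ∈ S
  · have e : {θ | UM S θ m} = ⋂ m' ∈ S.filter (· ≠ m), {θ | val θ m' < val θ m} := by
      ext θ
      simp only [UM, mem_ofPred_eq, mem_iInter, Finset.mem_filter]
      exact ⟨fun h m' hm' => h.2 m' hm'.1 hm'.2, fun h => ⟨hm, fun m' h1 h2 => h m' ⟨h1, h2⟩⟩⟩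
    rw [e]
    exact isOpen_biInter_finset fun m' _ => isOpen_lt (continuous_val m') (continuous_val m)
  · have e : {θ | UM S θ m} = ∅ := by
      ext θ
      simp [UM, hm]
    rw [e]
    exact isOpen_empty

lemma UM_const {S : Finset ℂ} {x y : ℝ} (h : ∀ θ ∈ Ioo x y, ∃ m, UM S θ m) {θ₀ : ℝ}
    (h0 : θ₀ ∈ Ioo x y) {m : ℂ} (hm : UM S θ₀ m) : ∀ θ ∈ Ioo x y, UM S θ m := by
  have hv : IsOpen (⋃ m' ∈ {m' : ℂ | m' ≠ m}, {θ | UM S θ m'}) :=
    isOpen_biUnion fun m' _ => isOpen_UM S m'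
  have key : Ioo x y ⊆ {θ | UM S θ m} := by
    refine isPreconnected_Ioo.subset_left_of_subset_union (isOpen_UM S m) hv ?_ ?_ ⟨θ₀, h0, hm⟩
    · rw [Set.disjoint_left]
      intro θ h1 h2
      simp only [mem_iUnion, mem_ofPred_eq] at h2
      obtain ⟨m', hne, h2⟩ := h2
      exact hne (h2.unique h1)
    · intro θ hθ
      obtain ⟨m', hm'⟩ := h θ hθ
      by_cases e : m' = m
      · left
        subst e
        exact hm'
      · right
        simp only [mem_iUnion, mem_ofPred_eq]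
        exact ⟨m', e, hm'⟩
  exact fun θ hθ => key hθ

lemma wm_closure {S : Finset ℂ} {x y : ℝ} (hxy : x < y) {m : ℂ} (h : ∀ θ ∈ Ioo x y, UM S θ m) :
    ∀ θ ∈ Icc x y, ∀ m' ∈ S, val θ m' ≤ val θ m := by
  intro θ hθ m' hm'
  have hc : IsClosed {θ | val θ m' ≤ val θ m} := isClosed_le (continuous_val m') (continuous_val m)
  have hs : Ioo x y ⊆ {θ | val θ m' ≤ val θ m} := fun θ hθ => (h θ hθ).le hm'
  have := hc.closure_subset_iff.2 hs
  rw [closure_Ioo hxy.ne] at this
  exact this hθ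

/-- the critical directions -/
def Z (A B : Finset ℂ) : Set ℝ := {θ | ¬ ((∃ m, UM A θ m) ∧ (∃ m, UM B θ m))}

lemma Z_period {A B : Finset ℂ} {θ : ℝ} : θ + 2 * π ∈ Z A B ↔ θ ∈ Z A B := by
  simp only [Z, mem_ofPred_eq, UM_period]

lemma exists_max {S : Finset ℂ} (hS : S.Nonempty) (θ : ℝ) :
    ∃ m ∈ S, ∀ m' ∈ S, val θ m' ≤ val θ m := S.exists_max_image (val θ) hS

lemma exists_pair {S : Finset ℂ} (hS : S.Nonempty) {θ : ℝ} (h : ¬ ∃ m, UM S θ m) :
    ∃ m ∈ S, ∃ m' ∈ S, m' ≠ m ∧ (∀ m'' ∈ S, val θ m'' ≤ val θ m) ∧ val θ m' = val θ m := by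
  obtain ⟨m, hm, hmax⟩ := exists_max hS θ
  have h1 : ¬ UM S θ m := fun h' => h ⟨m, h'⟩
  simp only [UM, not_and, not_forall, not_lt] at h1
  obtain ⟨m', h2, h3, h4⟩ := h1 hm
  exact ⟨m, hm, m', h2, h3, hmax, le_antisymm (hmax m' h2) h4⟩

lemma val_zero_finite {w : ℂ} (hw : w ≠ 0) (x y : ℝ) : ({θ | val θ w = 0} ∩ Icc x y).Finite := by
  by_cases hne : ∃ θ₀, val θ₀ w = 0
  · obtain ⟨θ₀, h0⟩ := hne
    have hd : dval θ₀ w ≠ 0 := by
      intro h1
      have := norm_sq_val θ₀ w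
      rw [h0, h1] at this
      apply hw
      rw [← norm_eq_zero]
      nlinarith [norm_nonneg w]
    have hsub : {θ | val θ w = 0} ∩ Icc x y ⊆
        (fun n : ℤ => θ₀ + n * π) '' (Icc ⌊(x - θ₀) / π⌋ ⌈(y - θ₀) / π⌉) := by
      rintro θ ⟨h1, h2, h3⟩
      have e : val θ w = Real.cos (θ - θ₀) * val θ₀ w + Real.sin (θ - θ₀) * dval θ₀ w := by
        rw [← val_rot]; congr 1; ring
      rw [mem_ofPred_eq, e, h0, mul_zero, zero_add] at h1
      have h4 : Real.sin (θ - θ₀) = 0 := by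
        rcases mul_eq_zero.1 h1 with h | h
        · exact h
        · exact absurd h hd
      obtain ⟨n, hn⟩ := Real.sin_eq_zero_iff.1 h4
      refine ⟨n, ⟨?_, ?_⟩, by simp only; linarith⟩
      · rw [← Int.floor_intCast (R := ℝ) n]
        apply Int.floor_le_floor
        rw [div_le_iff₀ Real.pi_pos]; linarith
      · rw [← Int.ceil_intCast (R := ℝ) n]
        apply Int.ceil_le_ceil
        rw [le_div_iff₀ Real.pi_pos]; linarith
    exact ((Set.finite_Icc _ _).image _).subset hsub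
  · have : {θ | val θ w = 0} ∩ Icc x y = ∅ := by
      ext θ
      simp only [mem_inter_iff, mem_ofPred_eq, mem_empty_iff_false, iff_false, not_and]
      intro h
      exact absurd ⟨θ, h⟩ hne
    rw [this]
    exact Set.finite_empty

lemma Z_finite {A B : Finset ℂ} (hA : A.Nonempty) (hB : B.Nonempty) (x y : ℝ) :
    (Z A B ∩ Icc x y).Finite := by
  have hsub : Z A B ∩ Icc x y ⊆
      (⋃ p ∈ (A ×ˢ A ∪ B ×ˢ B).filter (fun p => p.1 ≠ p.2), ({θ | val θ (p.1 - p.2) = 0} ∩ Icc x y)) := by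
    rintro θ ⟨h1, h2⟩
    simp only [Z, mem_ofPred_eq, not_and_or] at h1
    simp only [mem_iUnion]
    rcases h1 with h1 | h1
    · obtain ⟨m, hm, m', hm', hne, -, he⟩ := exists_pair hA h1
      refine ⟨(m', m), ?_, ?_, h2⟩
      · simp [hm, hm', hne]
      · simp only [mem_ofPred_eq, val_sub]; linarith
    · obtain ⟨m, hm, m', hm', hne, -, he⟩ := exists_pair hB h1
      refine ⟨(m', m), ?_, ?_, h2⟩
      · simp [hm, hm', hne]
      · simp only [mem_ofPred_eq, val_sub]; linarith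
  refine Set.Finite.subset ?_ hsub
  refine Set.Finite.biUnion (Finset.finite_toSet _) fun p hp => ?_
  have hp' : p.1 ≠ p.2 := by simpa using (Finset.mem_filter.1 hp).2
  exact val_zero_finite (sub_ne_zero.2 hp') x y

lemma Z_nonempty {A B : Finset ℂ} (hA : ∃ m ∈ A, ∃ m' ∈ A, m' ≠ m) : (Z A B).Nonempty := by
  by_contra hne
  rw [Set.not_nonempty_iff_eq_empty] at hne
  have h1 : ∀ θ, ∃ m, UM A θ m := by
    intro θ
    by_contra h
    have : θ ∈ Z A B := by
      simp only [Z, mem_ofPred_eq, not_and_or]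
      exact Or.inl h
    rw [hne] at this
    exact this
  obtain ⟨m, hm⟩ := h1 0
  have h2 := UM_const (S := A) (x := -4) (y := 4) (fun θ _ => h1 θ) (θ₀ := 0)
    (by constructor <;> norm_num) hm
  have h3 : UM A π m := h2 π ⟨by linarith [Real.pi_pos], by linarith [Real.pi_lt_four]⟩
  have h4 := UM_opp hm (by rwa [zero_add])
  obtain ⟨p, hp, q, hq, hpq⟩ := hA
  exact hpq ((h4 q hq).trans (h4 p hp).symm)

/-! ### the sequence of critical directions -/

lemma exists_next {A B : Finset ℂ} (hA : A.Nonempty) (hB : B.Nonempty)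
    (hA2 : ∃ m ∈ A, ∃ m' ∈ A, m' ≠ m) (x : ℝ) :
    ∃ y ∈ Z A B, x < y ∧ ∀ z ∈ Z A B, x < z → y ≤ z := by
  obtain ⟨z₀, hz₀⟩ := Z_nonempty (B := B) hA2
  have hper : ∀ n : ℕ, z₀ + n * (2 * π) ∈ Z A B := by
    intro n
    induction n with
    | zero => simpa using hz₀
    | succ n ih =>
      have := (Z_period (A := A) (B := B)).2 ih
      push_cast
      convert this using 1
      ring
  obtain ⟨n, hn⟩ := exists_nat_gt ((x - z₀) / (2 * π))
  have hx : x < z₀ + n * (2 * π) := by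
    have := (div_lt_iff₀ (by positivity : (0 : ℝ) < 2 * π)).1 hn
    linarith
  set w := z₀ + n * (2 * π) with hw
  have hf : (Z A B ∩ Ioc x w).Finite :=
    (Z_finite hA hB x w).subset fun θ hθ => ⟨hθ.1, hθ.2.1.le, hθ.2.2⟩
  obtain ⟨y, ⟨hy, hy1, hy2⟩, hmin⟩ :=
    Set.exists_min_image _ id hf ⟨w, hper n, hx, le_rfl⟩
  refine ⟨y, hy, hy1, fun z hz hxz => ?_⟩
  rcases le_or_gt z w with h | h
  · exact hmin z ⟨hz, hxz, h⟩
  · exact hy2.trans h.le

/-- The combinatorial data of the sweep: `t j` are the critical directions (all `j : ℕ`, periodic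
with period `k`), `a j`, `b j` the unique maximisers between `t j` and `t (j + 1)`. -/
structure Sw (A B : Finset ℂ) where
  k : ℕ
  hk : 0 < k
  t : ℕ → ℝ
  a : ℕ → ℂ
  b : ℕ → ℂ
  tlt : ∀ j, t j < t (j + 1)
  tper : ∀ j, t (j + k) = t j + 2 * π
  aper : ∀ j, a (j + k) = a j
  bper : ∀ j, b (j + k) = b j
  ua : ∀ j, ∀ θ ∈ Ioo (t j) (t (j + 1)), UM A θ (a j)
  ub : ∀ j, ∀ θ ∈ Ioo (t j) (t (j + 1)), UM B θ (b j)
  crit : ∀ j, t j ∈ Z A B

theorem exists_sweep {A B : Finset ℂ} (hA : A.Nonempty) (hB : B.Nonempty)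
    (hA2 : ∃ m ∈ A, ∃ m' ∈ A, m' ≠ m) : Nonempty (Sw A B) := by
  choose nx hnxZ hnxlt hnxmin using exists_next hA hB hA2
  obtain ⟨z₀, hz₀⟩ := Z_nonempty (B := B) hA2
  let t : ℕ → ℝ := fun n => Nat.rec z₀ (fun _ x => nx x) n
  have ht0 : t 0 = z₀ := rfl
  have hts : ∀ n, t (n + 1) = nx (t n) := fun n => rfl
  have htZ : ∀ n, t n ∈ Z A B := by
    intro n
    cases n with
    | zero => exact hz₀
    | succ n => rw [hts]; exact hnxZ _
  have htlt : ∀ j, t j < t (j + 1) := fun j => by rw [hts]; exact hnxlt _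
  have htm : StrictMono t := strictMono_nat_of_lt_succ htlt
  have hgap : ∀ j, ∀ θ ∈ Ioo (t j) (t (j + 1)), θ ∉ Z A B := by
    intro j θ hθ hz
    have := hnxmin (t j) θ hz hθ.1
    rw [← hts] at this
    exact absurd hθ.2 (not_lt.2 this)
  -- nx commutes with the translation
  have hnxper : ∀ x, nx (x + 2 * π) = nx x + 2 * π := by
    intro x
    apply le_antisymm
    · exact hnxmin _ _ (Z_period.2 (hnxZ x)) (by linarith [hnxlt x])
    · have h1 : nx (x + 2 * π) - 2 * π ∈ Z A B := by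
        rw [← Z_period]
        convert hnxZ (x + 2 * π) using 1
        ring
      have := hnxmin x _ h1 (by linarith [hnxlt (x + 2 * π)])
      linarith
  -- the period
  have hex : ∃ n, z₀ + 2 * π ≤ t n := by
    by_contra hcon
    push Not at hcon
    have hinj : Function.Injective t := htm.injective
    have hfin := Z_finite hA hB z₀ (z₀ + 2 * π)
    have hsub : Set.range t ⊆ Z A B ∩ Icc z₀ (z₀ + 2 * π) := by
      rintro _ ⟨n, rfl⟩
      exact ⟨htZ n, by rw [← ht0]; exact htm.monotone (Nat.zero_le n), (hcon n).le⟩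
    exact Set.infinite_range_of_injective hinj (hfin.subset hsub)
  obtain ⟨k, hk1, hkmin⟩ : ∃ k, z₀ + 2 * π ≤ t k ∧ ∀ m, m < k → ¬ (z₀ + 2 * π ≤ t m) := by
    classical
    exact ⟨Nat.find hex, Nat.find_spec hex, fun m hm => Nat.find_min hex hm⟩
  have hk0 : 0 < k := by
    rw [Nat.pos_iff_ne_zero]
    intro h
    rw [h, ht0] at hk1
    linarith [Real.pi_pos]
  obtain ⟨k', hk'⟩ : ∃ k', k = k' + 1 := ⟨k - 1, by omega⟩
  have hk2 : t k' < z₀ + 2 * π := by
    exact not_le.1 (hkmin k' (by omega))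
  have hkeq : t k = z₀ + 2 * π := by
    apply le_antisymm _ hk1
    rw [hk', hts]
    exact hnxmin _ _ (Z_period.2 hz₀) hk2
  have htper : ∀ j, t (j + k) = t j + 2 * π := by
    intro j
    induction j with
    | zero => rw [zero_add, hkeq, ht0]
    | succ j ih => rw [show j + 1 + k = (j + k) + 1 by ring, hts, ih, hnxper, hts]
  -- the maximisers
  have hmid : ∀ j, (t j + t (j + 1)) / 2 ∈ Ioo (t j) (t (j + 1)) := fun j =>
    ⟨by linarith [htlt j], by linarith [htlt j]⟩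
  have hua : ∀ j, ∃ m, UM A ((t j + t (j + 1)) / 2) m := fun j => by
    have := hgap j _ (hmid j)
    simp only [Z, mem_ofPred_eq, not_not] at this
    exact this.1
  have hub : ∀ j, ∃ m, UM B ((t j + t (j + 1)) / 2) m := fun j => by
    have := hgap j _ (hmid j)
    simp only [Z, mem_ofPred_eq, not_not] at this
    exact this.2
  choose a ha using hua
  choose b hb using hub
  have hmidper : ∀ j, (t (j + k) + t (j + k + 1)) / 2 = (t j + t (j + 1)) / 2 + 2 * π := by
    intro j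
    rw [htper, show j + k + 1 = (j + 1) + k by ring, htper]
    ring
  refine ⟨⟨k, hk0, t, a, b, htlt, htper, fun j => ?_, fun j => ?_, fun j => ?_, fun j => ?_, htZ⟩⟩
  · have h1 := ha (j + k)
    rw [hmidper, UM_period] at h1
    exact h1.unique (ha j)
  · have h1 := hb (j + k)
    rw [hmidper, UM_period] at h1
    exact h1.unique (hb j)
  · refine UM_const (fun θ hθ => ?_) (hmid j) (ha j)
    have := hgap j _ hθ
    simp only [Z, mem_ofPred_eq, not_not] at this
    exact this.1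
  · refine UM_const (fun θ hθ => ?_) (hmid j) (hb j)
    have := hgap j _ hθ
    simp only [Z, mem_ofPred_eq, not_not] at this
    exact this.2

end Pool.Agent.Work.MP_3892ce_gt.helper74
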