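import Pool.Agent.Work.MP_3892ce_helper74.Sweep

/-! # Melzak's problem, prismatoids (helper74): consequences of the sweep -/

set_option autoImplicit false

namespace Pool.Agent.Work.MP_3892ce_gt.helper74

open Real Set Filter Topology

lemma val_of_val_dval (θ s : ℝ) (z : ℂ) (h : val θ z = 0) :
    val (θ + s) z = Real.sin s * dval θ z := by rw [val_rot, h]; ring

lemma ext_val (θ : ℝ) {z w : ℂ} (h1 : val θ z = val θ w) (h2 : dval θ z = dval θ w) : z = w := by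
  have h := norm_sq_val θ (z - w)
  rw [val_sub, dval_sub, h1, h2] at h
  have : ‖z - w‖ = 0 := by
    have h0 : ‖z - w‖ ^ 2 = 0 := by rw [h]; ring
    exact pow_eq_zero_iff two_ne_zero |>.1 h0
  exact sub_eq_zero.1 (norm_eq_zero.1 this)

lemma norm_of_val_zero {θ : ℝ} {z : ℂ} (h1 : val θ z = 0) (h2 : 0 ≤ dval θ z) : ‖z‖ = dval θ z := by
  have h := norm_sq_val θ z
  rw [h1] at h
  have h3 : ‖z‖ ^ 2 = dval θ z ^ 2 := by rw [h]; ring
  exact (sq_eq_sq₀ (norm_nonneg z) h2).1 h3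

/-- general facts on one family of maximisers: `S` has unique maximiser `m` on `Ioo x y` and `m'` on
`Ioo y w` -/
lemma step_facts {S : Finset ℂ} {x y w : ℝ} (hxy : x < y) (hyw : y < w) {m m' : ℂ}
    (h : ∀ θ ∈ Ioo x y, UM S θ m) (h' : ∀ θ ∈ Ioo y w, UM S θ m') :
    val y m = val y m' ∧ 0 ≤ dval y (m' - m) ∧ (m' = m → UM S y m) ∧
      (∀ p ∈ S, val y p = val y m → 0 ≤ dval y (p - m) ∧ dval y (p - m) ≤ dval y (m' - m)) := by
  have hm : m ∈ S := by
    obtain ⟨θ, hθ⟩ : (Ioo x y).Nonempty := nonempty_Ioo.2 hxy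
    exact (h θ hθ).1
  have hm' : m' ∈ S := by
    obtain ⟨θ, hθ⟩ : (Ioo y w).Nonempty := nonempty_Ioo.2 hyw
    exact (h' θ hθ).1
  have w1 := wm_closure hxy h y ⟨hxy.le, le_rfl⟩
  have w2 := wm_closure hyw h' y ⟨le_rfl, hyw.le⟩
  have he : val y m = val y m' := le_antisymm (w2 m hm) (w1 m' hm')
  -- a small step to the right and to the left
  obtain ⟨ε, hε0, hε1, hε2, hε3⟩ : ∃ ε : ℝ, 0 < ε ∧ ε < w - y ∧ ε < y - x ∧ ε < 1 := by
    refine ⟨min (min (w - y) (y - x)) 1 / 2, ?_, ?_, ?_, ?_⟩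
    · have : 0 < min (min (w - y) (y - x)) 1 := by
        refine lt_min (lt_min ?_ ?_) one_pos <;> linarith
      linarith
    · have h1 : min (min (w - y) (y - x)) 1 ≤ w - y := (min_le_left _ _).trans (min_le_left _ _)
      linarith
    · have h1 : min (min (w - y) (y - x)) 1 ≤ y - x := (min_le_left _ _).trans (min_le_right _ _)
      linarith
    · have h1 : min (min (w - y) (y - x)) 1 ≤ 1 := min_le_right _ _
      linarith
  have hr : y + ε ∈ Ioo y w := ⟨by linarith, by linarith⟩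
  have hl : y + -ε ∈ Ioo x y := ⟨by linarith, by linarith⟩
  have hs : 0 < Real.sin ε := Real.sin_pos_of_pos_of_lt_pi hε0 (by linarith [Real.pi_gt_three])
  refine ⟨he, ?_, ?_, ?_⟩
  · have h1 := (h' _ hr).le hm
    have h2 : val (y + ε) (m' - m) = Real.sin ε * dval y (m' - m) :=
      val_of_val_dval _ _ _ (by rw [val_sub, he, sub_self])
    rw [val_sub] at h2
    by_contra hneg
    push Not at hneg
    have := mul_neg_of_pos_of_neg hs hneg
    linarith
  · intro e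
    have h1 := h' _ hr
    rw [e] at h1
    exact UM_comb (φ := y + -ε) (ψ := y + ε) (by linarith) (by linarith)
      (by linarith [Real.pi_gt_three]) (h _ hl) h1
  · intro p hp hpv
    constructor
    · have h1 := (h _ hl).le hp
      have h2 : val (y + -ε) (p - m) = Real.sin (-ε) * dval y (p - m) :=
        val_of_val_dval _ _ _ (by rw [val_sub, hpv, sub_self])
      rw [val_sub, Real.sin_neg] at h2
      by_contra hneg
      push Not at hneg
      have := mul_neg_of_pos_of_neg hs hneg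
      linarith
    · have h1 := (h' _ hr).le hp
      have h2 : val (y + ε) (p - m') = Real.sin ε * dval y (p - m') :=
        val_of_val_dval _ _ _ (by rw [val_sub, hpv, he, sub_self])
      rw [val_sub] at h2
      rw [dval_sub] at h2 ⊢
      rw [dval_sub]
      by_contra hneg
      push Not at hneg
      have : 0 < Real.sin ε * (dval y p - dval y m') := mul_pos hs (by linarith)
      linarith

namespace Sw

variable {A B : Finset ℂ} (S : Sw A B)

lemma tmono : StrictMono S.t := strictMono_nat_of_lt_succ S.tlt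

lemma wa (j : ℕ) : ∀ θ ∈ Icc (S.t j) (S.t (j + 1)), ∀ m ∈ A, val θ m ≤ val θ (S.a j) :=
  wm_closure (S.tlt j) (S.ua j)

lemma wb (j : ℕ) : ∀ θ ∈ Icc (S.t j) (S.t (j + 1)), ∀ m ∈ B, val θ m ≤ val θ (S.b j) :=
  wm_closure (S.tlt j) (S.ub j)

lemma mid_mem (j : ℕ) : (S.t j + S.t (j + 1)) / 2 ∈ Ioo (S.t j) (S.t (j + 1)) :=
  ⟨by linarith [S.tlt j], by linarith [S.tlt j]⟩

lemma a_mem (j : ℕ) : S.a j ∈ A := (S.ua j _ (S.mid_mem j)).1

lemma b_mem (j : ℕ) : S.b j ∈ B := (S.ub j _ (S.mid_mem j)).1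

/-- length of the step of `a` -/
noncomputable def α (j : ℕ) : ℝ := dval (S.t (j + 1)) (S.a (j + 1) - S.a j)

/-- length of the step of `b` -/
noncomputable def β (j : ℕ) : ℝ := dval (S.t (j + 1)) (S.b (j + 1) - S.b j)

lemma fa (j : ℕ) : val (S.t (j + 1)) (S.a j) = val (S.t (j + 1)) (S.a (j + 1)) ∧
    0 ≤ dval (S.t (j + 1)) (S.a (j + 1) - S.a j) ∧
    (S.a (j + 1) = S.a j → UM A (S.t (j + 1)) (S.a j)) ∧
    (∀ p ∈ A, val (S.t (j + 1)) p = val (S.t (j + 1)) (S.a j) →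
      0 ≤ dval (S.t (j + 1)) (p - S.a j) ∧
      dval (S.t (j + 1)) (p - S.a j) ≤ dval (S.t (j + 1)) (S.a (j + 1) - S.a j)) :=
  step_facts (S.tlt j) (S.tlt (j + 1)) (S.ua j) (S.ua (j + 1))

lemma fb (j : ℕ) : val (S.t (j + 1)) (S.b j) = val (S.t (j + 1)) (S.b (j + 1)) ∧
    0 ≤ dval (S.t (j + 1)) (S.b (j + 1) - S.b j) ∧
    (S.b (j + 1) = S.b j → UM B (S.t (j + 1)) (S.b j)) ∧
    (∀ p ∈ B, val (S.t (j + 1)) p = val (S.t (j + 1)) (S.b j) →
      0 ≤ dval (S.t (j + 1)) (p - S.b j) ∧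
      dval (S.t (j + 1)) (p - S.b j) ≤ dval (S.t (j + 1)) (S.b (j + 1) - S.b j)) :=
  step_facts (S.tlt j) (S.tlt (j + 1)) (S.ub j) (S.ub (j + 1))

lemma α_nonneg (j : ℕ) : 0 ≤ S.α j := (S.fa j).2.1

lemma β_nonneg (j : ℕ) : 0 ≤ S.β j := (S.fb j).2.1

lemma val_a (j : ℕ) : val (S.t (j + 1)) (S.a (j + 1) - S.a j) = 0 := by
  rw [val_sub, (S.fa j).1, sub_self]

lemma val_b (j : ℕ) : val (S.t (j + 1)) (S.b (j + 1) - S.b j) = 0 := by
  rw [val_sub, (S.fb j).1, sub_self]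

lemma norm_a (j : ℕ) : ‖S.a (j + 1) - S.a j‖ = S.α j := norm_of_val_zero (S.val_a j) (S.α_nonneg j)

lemma norm_b (j : ℕ) : ‖S.b (j + 1) - S.b j‖ = S.β j := norm_of_val_zero (S.val_b j) (S.β_nonneg j)

lemma αβ_pos (j : ℕ) : 0 < S.α j ∨ 0 < S.β j := by
  by_contra hcon
  push Not at hcon
  have h1 : S.a (j + 1) = S.a j := by
    have := S.norm_a j
    rw [le_antisymm hcon.1 (S.α_nonneg j)] at this
    exact sub_eq_zero.1 (norm_eq_zero.1 this)
  have h2 : S.b (j + 1) = S.b j := by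
    have := S.norm_b j
    rw [le_antisymm hcon.2 (S.β_nonneg j)] at this
    exact sub_eq_zero.1 (norm_eq_zero.1 this)
  exact S.crit (j + 1) ⟨⟨_, (S.fa j).2.2.1 h1⟩, ⟨_, (S.fb j).2.2.1 h2⟩⟩

/-- every direction is in one of the closed arcs, up to the period -/
lemma exists_arc (φ : ℝ) : ∃ j < S.k, ∃ φ' ∈ Icc (S.t j) (S.t (j + 1)), ∀ z, val φ' z = val φ z := by
  -- reduce to [t 0, t 0 + 2π)
  have hp : (0 : ℝ) < 2 * π := by positivity
  set φ' := toIcoMod hp (S.t 0) φ with hφ'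
  have hmem : φ' ∈ Ico (S.t 0) (S.t 0 + 2 * π) := toIcoMod_mem_Ico hp _ _
  have hval : ∀ z, val φ' z = val φ z := by
    intro z
    have h1 : φ' = φ - toIcoDiv hp (S.t 0) φ • (2 * π) := rfl
    have h2 : Real.cos φ' = Real.cos φ := by
      rw [h1, zsmul_eq_mul]; exact Real.cos_sub_int_mul_two_pi _ _
    have h3 : Real.sin φ' = Real.sin φ := by
      rw [h1, zsmul_eq_mul]; exact Real.sin_sub_int_mul_two_pi _ _
    simp only [val, h2, h3]
  have hex : ∃ n, φ' < S.t n := ⟨S.k, by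
    have := S.tper 0
    rw [zero_add] at this
    rw [this]; exact hmem.2⟩
  obtain ⟨n, hn1, hn2⟩ : ∃ n, φ' < S.t n ∧ ∀ m, m < n → ¬ (φ' < S.t m) := by
    classical
    exact ⟨Nat.find hex, Nat.find_spec hex, fun m hm => Nat.find_min hex hm⟩
  have hn0 : n ≠ 0 := by
    rintro rfl
    exact absurd hn1 (not_lt.2 hmem.1)
  obtain ⟨j, rfl⟩ := Nat.exists_eq_succ_of_ne_zero hn0
  refine ⟨j, ?_, φ', ⟨not_lt.1 (hn2 j (Nat.lt_succ_self j)), hn1.le⟩, hval⟩
  by_contra hjk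
  push Not at hjk
  have h1 := hn2 S.k (by omega)
  have h2 := S.tper 0
  rw [zero_add] at h2
  rw [h2] at h1
  exact h1 hmem.2

/-- the pairs `(a j, b j)` are distinct within a period -/
lemma pair_ne (hA2 : ∃ m ∈ A, ∃ m' ∈ A, m' ≠ m) {i j : ℕ} (hij : i < j) (hjk : j < i + S.k) :
    ¬ (S.a i = S.a j ∧ S.b i = S.b j) := by
  rintro ⟨ha, hb⟩
  set φ := (S.t i + S.t (i + 1)) / 2 with hφ
  set ψ := (S.t j + S.t (j + 1)) / 2 with hψ
  have h1 : φ ∈ Ioo (S.t i) (S.t (i + 1)) := S.mid_mem i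
  have h2 : ψ ∈ Ioo (S.t j) (S.t (j + 1)) := S.mid_mem j
  have ua1 := S.ua i φ h1
  have ub1 := S.ub i φ h1
  have ua2 : UM A ψ (S.a i) := by rw [ha]; exact S.ua j ψ h2
  have ub2 : UM B ψ (S.b i) := by rw [hb]; exact S.ub j ψ h2
  have h3 : S.t (i + 1) ≤ S.t j := S.tmono.monotone (by omega)
  have h4 : S.t (j + 1) ≤ S.t i + 2 * π := by
    rw [← S.tper]; exact S.tmono.monotone (by omega)
  rcases lt_trichotomy (ψ - φ) π with h | h | h
  · exact S.crit (i + 1) ⟨⟨_, UM_comb h1.2.le (h3.trans h2.1.le) h ua1 ua2⟩,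
      ⟨_, UM_comb h1.2.le (h3.trans h2.1.le) h ub1 ub2⟩⟩
  · have e : ψ = φ + π := by linarith
    rw [e] at ua2
    have h5 := UM_opp ua1 ua2
    obtain ⟨p, hp, q, hq, hpq⟩ := hA2
    exact hpq ((h5 q hq).trans (h5 p hp).symm)
  · have ua3 : UM A (φ + 2 * π) (S.a i) := UM_period.2 ua1
    have ub3 : UM B (φ + 2 * π) (S.b i) := UM_period.2 ub1
    have h6 : ψ ≤ S.t (j + 1) := h2.2.le
    have h7 : S.t (j + 1) ≤ φ + 2 * π := by linarith [h1.1]
    exact S.crit (j + 1) ⟨⟨_, UM_comb h6 h7 (by linarith) ua2 ua3⟩,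
      ⟨_, UM_comb h6 h7 (by linarith) ub2 ub3⟩⟩

end Sw

end Pool.Agent.Work.MP_3892ce_gt.helper74
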