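import Pool.Agent.Work.MP_3892ce_helper74.Edge
import Pool.Agent.Work.MP_3892ce_helper74.Scalar

/-! # Melzak's problem, prismatoids (helper74): total edge length and volume -/

set_option autoImplicit false

namespace Pool.Agent.Work.MP_3892ce_gt.helper74

open Real Set MeasureTheory

/-- not contained in a line -/
def NC (C : Finset ℂ) : Prop := ∃ p ∈ C, ∃ q ∈ C, ∃ r ∈ C, cr (q - p) (r - p) ≠ 0

lemma mem_seg_bot {z p q : ℂ} {h : ℝ} (hh : 0 < h) (hz : pt z 0 ∈ segment ℝ (pt p 0) (pt q h)) :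
    z = p := by
  obtain ⟨a, b, ha, hb, hab, he⟩ := hz
  have h2 := congrArg (fun x : E3 => x 2) he
  simp only [PiLp.add_apply, PiLp.smul_apply, pt_2, smul_eq_mul, mul_zero, zero_add] at h2
  have hb0 : b = 0 := by
    rcases mul_eq_zero.1 h2 with h | h
    · exact h
    · exact absurd h hh.ne'
  have ha1 : a = 1 := by linarith
  rw [hb0, ha1, one_smul, zero_smul, add_zero] at he
  exact (pt_inj he).1.symm

lemma mem_seg_top {z p q : ℂ} {h : ℝ} (hh : 0 < h) (hz : pt z h ∈ segment ℝ (pt p 0) (pt q h)) :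
    z = q := by
  obtain ⟨a, b, ha, hb, hab, he⟩ := hz
  have h2 := congrArg (fun x : E3 => x 2) he
  simp only [PiLp.add_apply, PiLp.smul_apply, pt_2, smul_eq_mul, mul_zero, zero_add] at h2
  have hb0 : b = 1 := by
    have : (b - 1) * h = 0 := by linarith
    rcases mul_eq_zero.1 this with h | h
    · linarith
    · exact absurd h hh.ne'
  have ha1 : a = 0 := by linarith
  rw [hb0, ha1, one_smul, zero_smul, zero_add] at he
  exact (pt_inj he).1.symm

lemma mem_seg_height {x : E3} {p q : ℂ} {t : ℝ} (hx : x ∈ segment ℝ (pt p t) (pt q t)) :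
    x 2 = t := by
  obtain ⟨a, b, ha, hb, hab, rfl⟩ := hx
  simp only [PiLp.add_apply, PiLp.smul_apply, pt_2, smul_eq_mul]
  rw [← add_mul, hab, one_mul]

lemma mem_seg_val {z p q : ℂ} {t θ : ℝ} (hpq : val θ p = val θ q)
    (hz : pt z t ∈ segment ℝ (pt p t) (pt q t)) : val θ z = val θ p := by
  obtain ⟨a, b, ha, hb, hab, he⟩ := hz
  rw [pt_comb _ _ _ _ _ hab] at he
  rw [← (pt_inj he).1, val_add, val_smul, val_smul, ← hpq, ← add_mul, hab, one_mul]

lemma seg_ne {C : Finset ℂ} {θ₁ θ₂ t : ℝ} {p q p' q' : ℂ} (hNC : NC C)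
    (h1 : ∀ z ∈ C, val θ₁ z ≤ val θ₁ p) (h2 : ∀ z ∈ C, val θ₂ z ≤ val θ₂ p')
    (hpq : val θ₁ p = val θ₁ q) (hpq' : val θ₂ p' = val θ₂ q') (hd : 0 < dval θ₂ (q' - p'))
    (hseg : segment ℝ (pt p t) (pt q t) = segment ℝ (pt p' t) (pt q' t))
    (hθ : θ₁ < θ₂) (hθ2 : θ₂ < θ₁ + 2 * π) : False := by
  have m1 : pt p' t ∈ segment ℝ (pt p t) (pt q t) := by rw [hseg]; exact left_mem_segment _ _ _
  have m2 : pt q' t ∈ segment ℝ (pt p t) (pt q t) := by rw [hseg]; exact right_mem_segment _ _ _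
  have e1 := mem_seg_val hpq m1
  have e2 := mem_seg_val hpq m2
  have e3 : val θ₂ (q' - p') = 0 := by rw [val_sub, hpq', sub_self]
  have e4 := val_of_val_dval θ₂ (θ₁ - θ₂) _ e3
  rw [show θ₂ + (θ₁ - θ₂) = θ₁ by ring, val_sub, e1, e2, sub_self] at e4
  have e5 : Real.sin (θ₂ - θ₁) = 0 := by
    rcases mul_eq_zero.1 e4.symm with h | h
    · rw [← neg_sub, Real.sin_neg, h, neg_zero]
    · exact absurd h hd.ne'
  have e6 : θ₂ = θ₁ + π := by
    obtain ⟨n, hn⟩ := Real.sin_eq_zero_iff.1 e5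
    have hpi := Real.pi_pos
    have n0 : (0 : ℝ) < n := by
      by_contra hcon
      push Not at hcon
      have := mul_nonpos_of_nonpos_of_nonneg hcon hpi.le
      linarith
    have n1 : (n : ℝ) < 2 := by
      by_contra hcon
      push Not at hcon
      have := mul_le_mul_of_nonneg_right hcon hpi.le
      linarith
    have n0' : 0 < n := by exact_mod_cast n0
    have n1' : n < 2 := by exact_mod_cast n1
    have : n = 1 := by omega
    rw [this, Int.cast_one, one_mul] at hn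
    linarith
  have e7 : ∀ z ∈ C, val θ₁ z = val θ₁ p := by
    intro z hz
    refine le_antisymm (h1 z hz) ?_
    have := h2 z hz
    rw [e6, val_pi, val_pi, e1] at this
    linarith
  obtain ⟨x, hx, y, hy, z, hz, hne⟩ := hNC
  apply hne
  rw [cr_val θ₁, val_sub, val_sub, e7 x hx, e7 y hy, e7 z hz]
  ring

lemma iso_k {k : ℕ} (hk0 : 0 < k) {c : ℕ → ℂ} (hk : c k = c 0) (hper : ∀ j, c (j + k) = c j) :
    sh k c ≤ k * per k c ^ 2 / (36 * √3) := by
  have hs0 : 0 < √3 := Real.sqrt_pos.2 (by norm_num)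
  have hs3 : √3 ^ 2 = 3 := Real.sq_sqrt (by norm_num)
  have hs1 : √3 < 1.7321 := by
    rw [Real.sqrt_lt' (by norm_num)]; norm_num
  have hP : 0 ≤ per k c ^ 2 := sq_nonneg _
  have hcase : k = 1 ∨ k = 2 ∨ k = 3 ∨ k = 4 ∨ 5 ≤ k := by omega
  rcases hcase with rfl | rfl | rfl | rfl | h5
  · rw [sh_one hk]; positivity
  · rw [sh_two hk]; positivity
  · have := sh_three hk
    refine this.trans (le_of_eq ?_)
    push_cast
    field_simp
    ring
  · have := sh_four hk
    refine this.trans ?_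
    push_cast
    rw [div_le_div_iff₀ (by norm_num) (by positivity)]
    nlinarith
  · have := isoper hk0 hk hper
    refine this.trans ?_
    have hpi := Real.pi_gt_d2
    rw [div_le_div_iff₀ (by positivity) (by positivity)]
    have hk5 : (5 : ℝ) ≤ k := by exact_mod_cast h5
    have : 36 * √3 ≤ k * (4 * π) := by nlinarith
    nlinarith

namespace Sw

variable {A B : Finset ℂ} (S : Sw A B)

/-- perimeters -/
noncomputable def pA : ℝ := ∑ j ∈ Finset.range S.k, S.α j
noncomputable def pB : ℝ := ∑ j ∈ Finset.range S.k, S.β j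

lemma pA_nonneg : 0 ≤ S.pA := Finset.sum_nonneg fun j _ => S.α_nonneg j
lemma pB_nonneg : 0 ≤ S.pB := Finset.sum_nonneg fun j _ => S.β_nonneg j

/-- length of a lateral edge -/
noncomputable def W (h : ℝ) (j : ℕ) : ℝ := ‖pt (S.a j) 0 - pt (S.b j) h‖

lemma W_eq (h : ℝ) (j : ℕ) : S.W h j = ‖(⟨‖S.a j - S.b j‖, h⟩ : ℂ)‖ := by
  have e := Complex.norm_eq_sqrt_sq_add_sq (⟨‖S.a j - S.b j‖, h⟩ : ℂ)
  rw [W, norm_pt_sub, e]
  congr 1
  simp only
  ring

/-- total length of the edges -/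
noncomputable def LL (h : ℝ) : ℝ := (∑ j ∈ Finset.range S.k, S.W h j) + (S.pA + S.pB)

theorem zeta1_ge' {h : ℝ} (hh : 0 < h) (hA : NC A) (J : Finset ℕ)
    (htopne' : ∀ i ∈ J, ∀ j ∈ J, i < j → j < S.k → 0 < S.β i → 0 < S.β j →
      segment ℝ (pt (S.b i) h) (pt (S.b (i + 1)) h) ≠
        segment ℝ (pt (S.b j) h) (pt (S.b (j + 1)) h)) :
    ENNReal.ofReal ((∑ j ∈ Finset.range S.k, S.W h j) +
      (S.pA + ∑ j ∈ (Finset.range S.k).filter (· ∈ J), S.β j)) ≤ zeta1 (Pr A B h) := by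
  classical
  set ι := Fin S.k ⊕ ({j : Fin S.k // 0 < S.α j} ⊕ {j : Fin S.k // j.1 ∈ J ∧ 0 < S.β j}) with hι
  let F : ι → Set E3 := Sum.elim (fun j => segment ℝ (pt (S.a j) 0) (pt (S.b j) h))
    (Sum.elim (fun j => segment ℝ (pt (S.a j.1) 0) (pt (S.a (j.1 + 1)) 0))
      (fun j => segment ℝ (pt (S.b j.1) h) (pt (S.b (j.1 + 1)) h)))
  have hA2 : ∃ m ∈ A, ∃ m' ∈ A, m' ≠ m := by
    obtain ⟨p, hp, q, hq, r, hr, hne⟩ := hA
    refine ⟨p, hp, q, hq, ?_⟩
    rintro rfl
    apply hne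
    simp [cr]
  have hF : ∀ i, IsEdge (Pr A B h) (F i) := by
    rintro (j | j | j)
    · exact S.lateral_edge hh j
    · exact S.bottom_edge hh j.2
    · exact S.top_edge hh j.2.2
  have key : ∀ i j : Fin S.k, i.1 < j.1 → S.t (i.1 + 1) < S.t (j.1 + 1) ∧
      S.t (j.1 + 1) < S.t (i.1 + 1) + 2 * π := by
    intro i j hij
    refine ⟨S.tmono (by omega), ?_⟩
    rw [← S.tper]
    exact S.tmono (by have := j.2; omega)
  have hbotne : ∀ i j : Fin S.k, i.1 < j.1 → 0 < S.α i → 0 < S.α j →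
      segment ℝ (pt (S.a i) 0) (pt (S.a (i.1 + 1)) 0) ≠
        segment ℝ (pt (S.a j) 0) (pt (S.a (j.1 + 1)) 0) := by
    intro i j hij hi hj e
    exact seg_ne hA (S.wa i _ ⟨(S.tlt i).le, le_rfl⟩) (S.wa j _ ⟨(S.tlt j).le, le_rfl⟩)
      (S.fa i).1 (S.fa j).1 hj e (key i j hij).1 (key i j hij).2
  have hinj : Function.Injective F := by
    rintro (i | i | i) (j | j | j) e
    · -- lateral, lateral
      have e' : segment ℝ (pt (S.a i) 0) (pt (S.b i) h) =
        segment ℝ (pt (S.a j) 0) (pt (S.b j) h) := e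
      have m1 : pt (S.a i) 0 ∈ segment ℝ (pt (S.a j) 0) (pt (S.b j) h) := by
        rw [← e']; exact left_mem_segment _ _ _
      have m2 : pt (S.b i) h ∈ segment ℝ (pt (S.a j) 0) (pt (S.b j) h) := by
        rw [← e']; exact right_mem_segment _ _ _
      have a1 := mem_seg_bot hh m1
      have a2 := mem_seg_top hh m2
      congr 1
      rcases lt_trichotomy i.1 j.1 with hij | hij | hij
      · exact absurd ⟨a1, a2⟩ (S.pair_ne hA2 hij (by have := j.2; omega))
      · exact Fin.ext hij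
      · exact absurd ⟨a1.symm, a2.symm⟩ (S.pair_ne hA2 hij (by have := i.2; omega))
    · exfalso
      have e' : segment ℝ (pt (S.a i) 0) (pt (S.b i) h) =
        segment ℝ (pt (S.a j.1) 0) (pt (S.a (j.1 + 1)) 0) := e
      have m2 : pt (S.b i) h ∈ segment ℝ (pt (S.a j.1) 0) (pt (S.a (j.1 + 1)) 0) := by
        rw [← e']; exact right_mem_segment _ _ _
      have := mem_seg_height m2
      rw [pt_2] at this
      exact hh.ne' this
    · exfalso
      have e' : segment ℝ (pt (S.a i) 0) (pt (S.b i) h) =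
        segment ℝ (pt (S.b j.1) h) (pt (S.b (j.1 + 1)) h) := e
      have m2 : pt (S.a i) 0 ∈ segment ℝ (pt (S.b j.1) h) (pt (S.b (j.1 + 1)) h) := by
        rw [← e']; exact left_mem_segment _ _ _
      have := mem_seg_height m2
      rw [pt_2] at this
      exact hh.ne this
    · exfalso
      have e' : segment ℝ (pt (S.a i.1) 0) (pt (S.a (i.1 + 1)) 0) =
        segment ℝ (pt (S.a j) 0) (pt (S.b j) h) := e
      have m2 : pt (S.b j) h ∈ segment ℝ (pt (S.a i.1) 0) (pt (S.a (i.1 + 1)) 0) := by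
        rw [e']; exact right_mem_segment _ _ _
      have := mem_seg_height m2
      rw [pt_2] at this
      exact hh.ne' this
    · -- bottom, bottom
      congr 2
      rcases lt_trichotomy i.1.1 j.1.1 with hij | hij | hij
      · exact absurd e (hbotne i.1 j.1 hij i.2 j.2)
      · exact Subtype.ext (Fin.ext hij)
      · exact absurd e.symm (hbotne j.1 i.1 hij j.2 i.2)
    · exfalso
      have e' : segment ℝ (pt (S.a i.1) 0) (pt (S.a (i.1 + 1)) 0) =
        segment ℝ (pt (S.b j.1) h) (pt (S.b (j.1 + 1)) h) := e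
      have m2 : pt (S.a i.1) 0 ∈ segment ℝ (pt (S.b j.1) h) (pt (S.b (j.1 + 1)) h) := by
        rw [← e']; exact left_mem_segment _ _ _
      have := mem_seg_height m2
      rw [pt_2] at this
      exact hh.ne this
    · exfalso
      have e' : segment ℝ (pt (S.b i.1) h) (pt (S.b (i.1 + 1)) h) =
        segment ℝ (pt (S.a j) 0) (pt (S.b j) h) := e
      have m2 : pt (S.a j) 0 ∈ segment ℝ (pt (S.b i.1) h) (pt (S.b (i.1 + 1)) h) := by
        rw [e']; exact left_mem_segment _ _ _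
      have := mem_seg_height m2
      rw [pt_2] at this
      exact hh.ne this
    · exfalso
      have e' : segment ℝ (pt (S.b i.1) h) (pt (S.b (i.1 + 1)) h) =
        segment ℝ (pt (S.a j.1) 0) (pt (S.a (j.1 + 1)) 0) := e
      have m2 : pt (S.a j.1) 0 ∈ segment ℝ (pt (S.b i.1) h) (pt (S.b (i.1 + 1)) h) := by
        rw [e']; exact left_mem_segment _ _ _
      have := mem_seg_height m2
      rw [pt_2] at this
      exact hh.ne this
    · congr 2
      rcases lt_trichotomy i.1.1 j.1.1 with hij | hij | hij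
      · exact absurd e (htopne' _ i.2.1 _ j.2.1 hij j.1.2 i.2.2 j.2.2)
      · exact Subtype.ext (Fin.ext hij)
      · exact absurd e.symm (htopne' _ j.2.1 _ i.2.1 hij i.1.2 j.2.2 i.2.2)
  have hmain := sum_le_zeta1 F hF hinj
  refine le_trans (le_of_eq ?_) hmain
  have hed : ∀ (x y : E3), edist x y = ENNReal.ofReal ‖x - y‖ := fun x y => by
    rw [edist_dist, dist_eq_norm]
  have hα : ∀ j, ‖pt (S.a j) 0 - pt (S.a (j + 1)) 0‖ = S.α j := fun j => by
    rw [norm_pt_sub, sub_self, ← S.norm_a j, norm_sub_rev (S.a (j + 1))]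
    simp
  have hβ : ∀ j, ‖pt (S.b j) h - pt (S.b (j + 1)) h‖ = S.β j := fun j => by
    rw [norm_pt_sub, sub_self, ← S.norm_b j, norm_sub_rev (S.b (j + 1))]
    simp
  rw [Fintype.sum_sum_type, Fintype.sum_sum_type]
  simp only [F, Sum.elim_inl, Sum.elim_inr, ediam_seg, hed, hα, hβ]
  have s1 : ∑ j : {j : Fin S.k // 0 < S.α j}, ENNReal.ofReal (S.α j.1) =
      ENNReal.ofReal S.pA := by
    rw [pA, ENNReal.ofReal_sum_of_nonneg (fun j _ => S.α_nonneg j), Finset.sum_range,
      ← Finset.sum_subtype (Finset.univ.filter fun j : Fin S.k => 0 < S.α j) (by simp)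
        (fun j : Fin S.k => ENNReal.ofReal (S.α j))]
    refine Finset.sum_filter_of_ne fun j _ hne => ?_
    by_contra hcon
    exact hne (ENNReal.ofReal_eq_zero.2 (not_lt.1 hcon))
  set bJ := ∑ j ∈ (Finset.range S.k).filter (· ∈ J), S.β j with hbJ
  have hbJ0 : 0 ≤ bJ := Finset.sum_nonneg fun j _ => S.β_nonneg j
  have s2 : ∑ j : {j : Fin S.k // j.1 ∈ J ∧ 0 < S.β j}, ENNReal.ofReal (S.β j.1) =
      ENNReal.ofReal bJ := by
    rw [hbJ, Finset.sum_filter, ENNReal.ofReal_sum_of_nonneg (fun j _ => by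
      split_ifs
      · exact S.β_nonneg j
      · exact le_rfl), Finset.sum_range,
      ← Finset.sum_subtype (Finset.univ.filter fun j : Fin S.k => j.1 ∈ J ∧ 0 < S.β j) (by simp)
        (fun j : Fin S.k => ENNReal.ofReal (S.β j)), Finset.sum_filter]
    refine Finset.sum_congr rfl fun j _ => ?_
    by_cases h1 : j.1 ∈ J
    · by_cases h2 : 0 < S.β j
      · rw [if_pos ⟨h1, h2⟩, if_pos h1]
      · rw [if_neg (fun h => h2 h.2), if_pos h1]
        exact (ENNReal.ofReal_eq_zero.2 (not_lt.1 h2)).symm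
    · rw [if_neg (fun h => h1 h.1), if_neg h1, ENNReal.ofReal_zero]
  have hW0 : ∀ j, 0 ≤ S.W h j := fun j => norm_nonneg _
  rw [s1, s2, ENNReal.ofReal_add (Finset.sum_nonneg fun j _ => hW0 j)
    (add_nonneg S.pA_nonneg hbJ0), ENNReal.ofReal_add S.pA_nonneg hbJ0,
    ENNReal.ofReal_sum_of_nonneg (fun j _ => hW0 j), Finset.sum_range]
  rfl

theorem zeta1_ge {h : ℝ} (hh : 0 < h) (hA : NC A) (hB : NC B ∨ ∀ j, S.β j = 0) :
    ENNReal.ofReal (S.LL h) ≤ zeta1 (Pr A B h) := by
  have h1 := S.zeta1_ge' hh hA (Finset.range S.k) (by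
    intro i _ j _ hij hjk hi hj e
    rcases hB with hB | hB
    · exact seg_ne hB (S.wb i _ ⟨(S.tlt i).le, le_rfl⟩) (S.wb j _ ⟨(S.tlt j).le, le_rfl⟩)
        (S.fb i).1 (S.fb j).1 hj e (S.tmono (by omega)) (by
          rw [← S.tper]
          exact S.tmono (by omega))
    · rw [hB] at hi
      exact lt_irrefl _ hi)
  have h2 : (Finset.range S.k).filter (· ∈ Finset.range S.k) = Finset.range S.k :=
    Finset.filter_true_of_mem fun _ h => h
  rw [h2] at h1
  exact h1

/-- perimeter of the section -/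
lemma per_c {s : ℝ} (h0 : 0 ≤ s) (h1 : s ≤ 1) :
    per S.k (S.c s) = (1 - s) * S.pA + s * S.pB := by
  rw [per, pA, pB, Finset.mul_sum, Finset.mul_sum, ← Finset.sum_add_distrib]
  refine Finset.sum_congr rfl fun j _ => ?_
  rw [← dval_c_step]
  refine norm_of_val_zero (S.val_c_step s j) ?_
  rw [dval_c_step]
  have := mul_nonneg (sub_nonneg.2 h1) (S.α_nonneg j)
  have := mul_nonneg h0 (S.β_nonneg j)
  linarith

/-- slices of the prismatoid -/
lemma slice_sub {h : ℝ} (hh : 0 < h) {t : ℝ} {z : ℂ} (hz : pt z t ∈ Pr A B h) :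
    t ∈ Icc 0 h ∧ z ∈ S.Sec (t / h) := by
  have hf : ∀ (f : E3 →L[ℝ] ℝ) (M : ℝ), (∀ x ∈ gen A B h, f x ≤ M) → f (pt z t) ≤ M := by
    intro f M hM
    have : Pr A B h ⊆ {x | f x ≤ M} := convexHull_min hM (convex_le f M)
    exact this hz
  refine ⟨⟨?_, ?_⟩, ?_⟩
  · have := hf (-(EuclideanSpace.proj (𝕜 := ℝ) 2)) 0 (by
      rintro x (⟨w, _, rfl⟩ | ⟨w, _, rfl⟩)
      · simp
      · simp [hh.le])
    simpa using this
  · have := hf (EuclideanSpace.proj (𝕜 := ℝ) 2) h (by
      rintro x (⟨w, _, rfl⟩ | ⟨w, _, rfl⟩)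
      · simp [hh.le]
      · simp)
    simpa using this
  · intro j θ hθ
    have := hf (lf θ ((val θ (S.a j) - val θ (S.b j)) / h)) (val θ (S.a j)) (by
      rintro x (⟨w, hw, rfl⟩ | ⟨w, hw, rfl⟩)
      · simp only [lf_pt, mul_zero, add_zero]
        exact S.wa j θ hθ w hw
      · simp only [lf_pt]
        rw [div_mul_cancel₀ _ hh.ne']
        have := S.wb j θ hθ w hw
        linarith)
    rw [lf_pt] at this
    simp only [c, val_add, val_smul]
    have e : (val θ (S.a j) - val θ (S.b j)) / h * t =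
        t / h * (val θ (S.a j) - val θ (S.b j)) := by ring
    rw [e] at this
    linarith

lemma poly_int (a b c h : ℝ) :
    ∫ t in (0 : ℝ)..h, (a + b * t + c * t ^ 2) = a * h + b * (h ^ 2 / 2) + c * (h ^ 3 / 3) := by
  rw [intervalIntegral.integral_add, intervalIntegral.integral_add,
    intervalIntegral.integral_const_mul, intervalIntegral.integral_const_mul,
    intervalIntegral.integral_const, integral_id, integral_pow]
  · simp only [smul_eq_mul, Nat.cast_ofNat]
    ring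
  all_goals apply Continuous.intervalIntegrable; fun_prop

/-- volume of the prismatoid -/
theorem volume_le {h : ℝ} (hh : 0 < h) (hA : NC A) :
    volume (Pr A B h) ≤ ENNReal.ofReal (S.k * h / (36 * √3) *
      (((S.pA + S.pB) / 2) ^ 2 + ((S.pB - S.pA) / 2) ^ 2 / 3)) := by
  set m := (S.pA + S.pB) / 2 with hm
  set g := (S.pB - S.pA) / 2 with hg
  have hs0 : 0 < √3 := Real.sqrt_pos.2 (by norm_num)
  rw [volume_slice (Pr_compact A B h).isClosed.measurableSet]
  set q : ℝ → ℝ := fun t => S.k / (36 * √3) * (m + g * (2 * (t / h) - 1)) ^ 2 with hq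
  have hqc : Continuous q := by rw [hq]; fun_prop
  have hq0 : ∀ t, 0 ≤ q t := fun t => by simp only [hq]; positivity
  have hle : ∀ᵐ t : ℝ, volume {z : ℂ | pt z t ∈ Pr A B h} ≤
      (Icc (0 : ℝ) h).indicator (fun t => ENNReal.ofReal (q t)) t := by
    have hae : ∀ᵐ t : ℝ, t ∉ ({0, h} : Set ℝ) := by
      rw [ae_iff]
      simp only [not_not, ofPred_mem_eq]
      exact (Set.toFinite _).measure_zero _
    filter_upwards [hae] with t ht
    simp only [mem_insert_iff, mem_singleton_iff, not_or] at ht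
    by_cases hmem : t ∈ Icc (0 : ℝ) h
    · rw [Set.indicator_of_mem hmem]
      have t0 : 0 < t := lt_of_le_of_ne hmem.1 (Ne.symm ht.1)
      have t1 : t < h := lt_of_le_of_ne hmem.2 ht.2
      have u0 : 0 < t / h := div_pos t0 hh
      have u1 : t / h < 1 := (div_lt_one hh).2 t1
      calc volume {z : ℂ | pt z t ∈ Pr A B h} ≤ volume (S.Sec (t / h)) :=
            measure_mono fun z hz => (S.slice_sub hh hz).2
        _ ≤ ENNReal.ofReal (sh S.k (S.c (t / h))) := S.area_Sec hA u0 u1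
        _ ≤ ENNReal.ofReal (q t) := by
            apply ENNReal.ofReal_le_ofReal
            refine (iso_k S.hk (S.c_k _) (S.c_per _)).trans (le_of_eq ?_)
            rw [S.per_c u0.le u1.le]
            simp only [hq, hm, hg]
            ring
    · rw [Set.indicator_of_notMem hmem]
      have : {z : ℂ | pt z t ∈ Pr A B h} = ∅ := by
        ext z
        simp only [mem_ofPred_eq, mem_empty_iff_false, iff_false]
        intro hz
        exact hmem (S.slice_sub hh hz).1
      rw [this, measure_empty]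
  refine (lintegral_mono_ae hle).trans (le_of_eq ?_)
  rw [lintegral_indicator measurableSet_Icc, ← ofReal_integral_eq_lintegral_ofReal
    hqc.integrableOn_Icc (Filter.Eventually.of_forall fun t => hq0 t)]
  congr 1
  rw [integral_Icc_eq_integral_Ioc, ← intervalIntegral.integral_of_le hh.le]
  have e : ∀ t, q t = S.k / (36 * √3) * (m - g) ^ 2 +
      (S.k / (36 * √3) * (4 * g * (m - g) / h)) * t + (S.k / (36 * √3) * (4 * g ^ 2 / h ^ 2)) * t ^ 2 := by
    intro t
    simp only [hq]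
    field_simp
    ring
  simp only [e]
  rw [poly_int]
  field_simp
  ring

lemma sum_W_ge (h : ℝ) :
    √((S.k * h) ^ 2 + ((S.pB - S.pA) / 2) ^ 2) ≤ ∑ j ∈ Finset.range S.k, S.W h j := by
  set d : ℕ → ℂ := fun j => S.a j - S.b j with hd
  set D := ∑ j ∈ Finset.range S.k, ‖d j‖ with hD
  have hD0 : 0 ≤ D := Finset.sum_nonneg fun _ _ => norm_nonneg _
  have h1 : ‖(⟨D, S.k * h⟩ : ℂ)‖ ≤ ∑ j ∈ Finset.range S.k, S.W h j := by
    have e : (⟨D, S.k * h⟩ : ℂ) = ∑ j ∈ Finset.range S.k, (⟨‖d j‖, h⟩ : ℂ) := by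
      apply Complex.ext
      · rw [Complex.re_sum]
      · rw [Complex.im_sum]; simp
    rw [e]
    refine (norm_sum_le _ _).trans (le_of_eq ?_)
    exact Finset.sum_congr rfl fun j _ => (S.W_eq h j).symm
  refine le_trans ?_ h1
  rw [Complex.norm_eq_sqrt_sq_add_sq]
  apply Real.sqrt_le_sqrt
  have h2 : ∑ j ∈ Finset.range S.k, ‖d (j + 1)‖ = D := by
    have a1 := Finset.sum_range_succ (fun j => ‖d j‖) S.k
    have a2 := Finset.sum_range_succ' (fun j => ‖d j‖) S.k
    have a3 : d S.k = d 0 := by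
      have b1 := S.aper 0
      have b2 := S.bper 0
      rw [zero_add] at b1 b2
      simp only [hd, b1, b2]
    rw [a3] at a1
    linarith
  have h3 : |S.pB - S.pA| ≤ 2 * D := by
    have e : S.pB - S.pA = ∑ j ∈ Finset.range S.k, (S.β j - S.α j) := by
      rw [pA, pB, Finset.sum_sub_distrib]
    rw [e]
    refine (Finset.abs_sum_le_sum_abs _ _).trans ?_
    have : ∀ j ∈ Finset.range S.k, |S.β j - S.α j| ≤ ‖d (j + 1)‖ + ‖d j‖ := by
      intro j _
      rw [← S.norm_a, ← S.norm_b]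
      refine (abs_norm_sub_norm_le _ _).trans ?_
      have : S.b (j + 1) - S.b j - (S.a (j + 1) - S.a j) = d j - d (j + 1) := by
        simp only [hd]; ring
      rw [this]
      refine (norm_sub_le _ _).trans (le_of_eq (add_comm _ _))
    refine (Finset.sum_le_sum this).trans (le_of_eq ?_)
    rw [Finset.sum_add_distrib, h2]
    ring
  have h4 : ((S.pB - S.pA) / 2) ^ 2 ≤ D ^ 2 := by
    rw [← sq_abs]
    apply pow_le_pow_left₀ (abs_nonneg _)
    rw [abs_div, abs_two]
    linarith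
  simp only
  linarith

/-- Melzak's inequality for prismatoids in standard position -/
theorem melzak_std {h : ℝ} (hh : 0 < h) (hA : NC A) (hB : NC B ∨ ∀ j, S.β j = 0) :
    ENNReal.ofReal (972 * √3) * volume (Pr A B h) ≤ zeta1 (Pr A B h) ^ 3 := by
  set m := (S.pA + S.pB) / 2 with hm
  set g := (S.pB - S.pA) / 2 with hg
  have hs0 : 0 < √3 := Real.sqrt_pos.2 (by norm_num)
  have hpA := S.pA_nonneg
  have hpB := S.pB_nonneg
  have hgm : g ^ 2 ≤ m ^ 2 := by
    rw [hg, hm]; nlinarith [mul_nonneg hpA hpB]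
  set y := √((S.k * h) ^ 2 + g ^ 2) with hy
  have hy2 : y ^ 2 = (S.k * h) ^ 2 + g ^ 2 := Real.sq_sqrt (by positivity)
  have h1 := scalar (x := S.k * h) (by positivity) (by rw [hm]; positivity)
    (Real.sqrt_nonneg _) hy2 hgm
  have h2 : 2 * m + y ≤ S.LL h := by
    have := S.sum_W_ge h
    rw [LL]
    have e : 2 * m = S.pA + S.pB := by rw [hm]; ring
    rw [e]
    linarith
  have hm0 : 0 ≤ m := by rw [hm]; positivity
  calc ENNReal.ofReal (972 * √3) * volume (Pr A B h)
      ≤ ENNReal.ofReal (972 * √3) * ENNReal.ofReal (S.k * h / (36 * √3) * (m ^ 2 + g ^ 2 / 3)) :=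
        mul_le_mul_right (S.volume_le hh hA) _
    _ = ENNReal.ofReal (27 * (S.k * h) * (m ^ 2 + g ^ 2 / 3)) := by
        rw [← ENNReal.ofReal_mul (by positivity)]
        congr 1
        field_simp
        ring
    _ ≤ ENNReal.ofReal ((S.LL h) ^ 3) := by
        apply ENNReal.ofReal_le_ofReal
        exact h1.trans (pow_le_pow_left₀ (by positivity) h2 3)
    _ = ENNReal.ofReal (S.LL h) ^ 3 := by
        rw [ENNReal.ofReal_pow]
        refine le_trans ?_ h2
        positivity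
    _ ≤ zeta1 (Pr A B h) ^ 3 := by gcongr; exact S.zeta1_ge hh hA hB

end Sw

end Pool.Agent.Work.MP_3892ce_gt.helper74
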