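import Pool.Agent.Work.MP_3892ce_gt.Defs
import Pool.Agent.Work.MP_3892ce_helper74.Area

/-! # Melzak's problem, prismatoids (helper74): volume of the prismatoid -/

set_option autoImplicit false

namespace Pool.Agent.Work.MP_3892ce_gt.helper74

open Real Set MeasureTheory

/-- the point with plane coordinate `z` and height `t` -/
noncomputable def pt (z : ℂ) (t : ℝ) : E3 := WithLp.toLp 2 ![z.re, z.im, t]

@[simp] lemma pt_0 (z : ℂ) (t : ℝ) : (pt z t) 0 = z.re := rfl
@[simp] lemma pt_1 (z : ℂ) (t : ℝ) : (pt z t) 1 = z.im := rfl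
@[simp] lemma pt_2 (z : ℂ) (t : ℝ) : (pt z t) 2 = t := rfl

/-- the measurable equivalence `(t, z) ↦ pt z t` -/
noncomputable def Psi : ℝ × ℂ ≃ᵐ E3 :=
  ((MeasurableEquiv.prodCongr (MeasurableEquiv.refl ℝ) Complex.measurableEquivPi).trans
    (MeasurableEquiv.piFinSuccAbove (fun _ : Fin 3 => ℝ) 2).symm).trans
    (MeasurableEquiv.toLp 2 (Fin 3 → ℝ))

lemma Psi_apply (t : ℝ) (z : ℂ) : Psi (t, z) = pt z t := by
  ext i
  fin_cases i <;> rfl

lemma Psi_mp : MeasurePreserving Psi := by
  unfold Psi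
  refine MeasurePreserving.trans (MeasurePreserving.trans ?_
    (volume_preserving_piFinSuccAbove (fun _ : Fin 3 => ℝ) 2).symm)
    (EuclideanSpace.volume_preserving_symm_measurableEquiv_toLp (Fin 3)).symm
  exact (MeasurePreserving.id _).prod Complex.volume_preserving_equiv_pi

theorem volume_slice {Q : Set E3} (hQ : MeasurableSet Q) :
    volume Q = ∫⁻ t : ℝ, volume {z : ℂ | pt z t ∈ Q} := by
  rw [← Psi_mp.measure_preimage_equiv Q, Measure.volume_eq_prod,
    Measure.prod_apply (Psi.measurable hQ)]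
  congr 1
  ext t
  congr 1
  ext z
  simp only [mem_preimage, Psi_apply, mem_ofPred_eq]

end Pool.Agent.Work.MP_3892ce_gt.helper74
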