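import Pool.Agent.Work.MP_3892ce_helper74.Total

/-! # Melzak's problem, prismatoids (helper74): exact volume bound -/

set_option autoImplicit false

namespace Pool.Agent.Work.MP_3892ce_gt.helper74

open Real Set MeasureTheory

namespace Sw

variable {A B : Finset ℂ} (S : Sw A B)

/-- twice the mixed area -/
noncomputable def MM : ℝ :=
  (∑ j ∈ Finset.range S.k, (cr (S.a j) (S.b (j + 1)) + cr (S.b j) (S.a (j + 1)))) / 2

lemma sh_c (s : ℝ) : sh S.k (S.c s) =
    (1 - s) ^ 2 * sh S.k S.a + s * (1 - s) * S.MM + s ^ 2 * sh S.k S.b := by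
  simp only [sh, MM]
  have : ∀ j ∈ Finset.range S.k, cr (S.c s j) (S.c s (j + 1)) =
      (1 - s) ^ 2 * cr (S.a j) (S.a (j + 1)) +
      s * (1 - s) * (cr (S.a j) (S.b (j + 1)) + cr (S.b j) (S.a (j + 1))) +
      s ^ 2 * cr (S.b j) (S.b (j + 1)) := by
    intro j _
    simp only [c, cr, Complex.add_re, Complex.add_im, Complex.smul_re, Complex.smul_im,
      smul_eq_mul]
    ring
  rw [Finset.sum_congr rfl this, Finset.sum_add_distrib, Finset.sum_add_distrib,
    ← Finset.mul_sum, ← Finset.mul_sum, ← Finset.mul_sum]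
  ring

lemma sh_c_nonneg (hA : NC A) {s : ℝ} (hs0 : 0 < s) (hs1 : s < 1) : 0 ≤ sh S.k (S.c s) := by
  obtain ⟨o, ho⟩ := S.exists_center hA hs0.le hs1
  rw [← sh_translate (S.c_k s) o]
  unfold sh
  have := Finset.sum_nonneg (s := Finset.range S.k) fun j _ => (S.D_pos hs0 hs1 ho j).le
  linarith

/-- volume of the prismatoid: the prismoidal formula -/
theorem volume_le_sh {h : ℝ} (hh : 0 < h) (hA : NC A) :
    volume (Pr A B h) ≤
      ENNReal.ofReal (h * (sh S.k S.a / 3 + S.MM / 6 + sh S.k S.b / 3)) := by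
  rw [volume_slice (Pr_compact A B h).isClosed.measurableSet]
  set q : ℝ → ℝ := fun t => (1 - t / h) ^ 2 * sh S.k S.a + (t / h) * (1 - t / h) * S.MM +
    (t / h) ^ 2 * sh S.k S.b with hq
  have hqc : Continuous q := by rw [hq]; fun_prop
  have hqs : ∀ t, q t = sh S.k (S.c (t / h)) := fun t => by rw [sh_c]
  have hae : ∀ᵐ t : ℝ, t ∉ ({0, h} : Set ℝ) := by
    rw [ae_iff]
    simp only [not_not, ofPred_mem_eq]
    exact (Set.toFinite _).measure_zero _
  have hle : ∀ᵐ t : ℝ, volume {z : ℂ | pt z t ∈ Pr A B h} ≤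
      (Icc (0 : ℝ) h).indicator (fun t => ENNReal.ofReal (q t)) t := by
    filter_upwards [hae] with t ht
    simp only [mem_insert_iff, mem_singleton_iff, not_or] at ht
    by_cases hmem : t ∈ Icc (0 : ℝ) h
    · rw [Set.indicator_of_mem hmem]
      have t0 : 0 < t := lt_of_le_of_ne hmem.1 (Ne.symm ht.1)
      have t1 : t < h := lt_of_le_of_ne hmem.2 ht.2
      have u0 : 0 < t / h := div_pos t0 hh
      have u1 : t / h < 1 := (div_lt_one hh).2 t1
      calc volume {z : ℂ | pt z t ∈ Pr A B h} ≤ volume (S.Sec (t / h)) :=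
            measure_mono fun z hz => (S.slice_sub hh hz).2
        _ ≤ ENNReal.ofReal (sh S.k (S.c (t / h))) := S.area_Sec hA u0 u1
        _ = ENNReal.ofReal (q t) := by rw [hqs]
    · rw [Set.indicator_of_notMem hmem]
      have : {z : ℂ | pt z t ∈ Pr A B h} = ∅ := by
        ext z
        simp only [mem_ofPred_eq, mem_empty_iff_false, iff_false]
        intro hz
        exact hmem (S.slice_sub hh hz).1
      rw [this, measure_empty]
  refine (lintegral_mono_ae hle).trans (le_of_eq ?_)
  rw [lintegral_indicator measurableSet_Icc, ← ofReal_integral_eq_lintegral_ofReal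
    hqc.integrableOn_Icc]
  · congr 1
    rw [integral_Icc_eq_integral_Ioc, ← intervalIntegral.integral_of_le hh.le]
    have e : ∀ t, q t = sh S.k S.a + ((S.MM - 2 * sh S.k S.a) / h) * t +
        ((sh S.k S.a - S.MM + sh S.k S.b) / h ^ 2) * t ^ 2 := by
      intro t
      simp only [hq]
      field_simp
      ring
    simp only [e]
    rw [poly_int]
    field_simp
    ring
  · rw [Filter.EventuallyLE, ae_restrict_iff' measurableSet_Icc]
    filter_upwards [hae] with t ht hmem
    simp only [mem_insert_iff, mem_singleton_iff, not_or] at ht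
    have t0 : 0 < t := lt_of_le_of_ne hmem.1 (Ne.symm ht.1)
    have t1 : t < h := lt_of_le_of_ne hmem.2 ht.2
    rw [Pi.zero_apply, hqs]
    exact S.sh_c_nonneg hA (div_pos t0 hh) ((div_lt_one hh).2 t1)

end Sw

end Pool.Agent.Work.MP_3892ce_gt.helper74
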