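import Pool.Agent.Work.MP_3892ce_helper74.Vol2

/-! # Melzak's problem, prismatoids (helper74): one base is a segment -/

set_option autoImplicit false

namespace Pool.Agent.Work.MP_3892ce_gt.helper74

open Real Set MeasureTheory

lemma dval_rot (t s : ℝ) (z : ℂ) :
    dval (t + s) z = Real.cos s * dval t z - Real.sin s * val t z := by
  simp only [val, dval, Real.cos_add, Real.sin_add]; ring

lemma periodic_sum {k : ℕ} {f : ℕ → ℝ} (hf : ∀ j, f (j + k) = f j) (n : ℕ) :
    ∑ j ∈ Finset.range k, f (n + j) = ∑ j ∈ Finset.range k, f j := by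
  induction n with
  | zero => simp
  | succ n ih =>
    rw [← ih]
    have a1 := Finset.sum_range_succ (fun j => f (n + j)) k
    have a2 := Finset.sum_range_succ' (fun j => f (n + j)) k
    have a3 : f (n + k) = f (n + 0) := hf n
    have a4 : ∑ j ∈ Finset.range k, f (n + 1 + j) = ∑ j ∈ Finset.range k, f (n + (j + 1)) :=
      Finset.sum_congr rfl fun j _ => by congr 1; ring
    rw [a4]
    linarith

lemma periodic_mod {X : Type*} {k : ℕ} {f : ℕ → X} (hk : 0 < k) (hf : ∀ j, f (j + k) = f j)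
    (j : ℕ) : f (j % k) = f j := by
  induction j using Nat.strong_induction_on with
  | _ j ih =>
    rcases lt_or_ge j k with h | h
    · rw [Nat.mod_eq_of_lt h]
    · obtain ⟨i, rfl⟩ := Nat.exists_eq_add_of_le h
      rw [add_comm k i, hf, Nat.add_mod_right, ih i (by omega)]

namespace Sw

variable {A B : Finset ℂ} (S : Sw A B)

lemma α_per (j : ℕ) : S.α (j + S.k) = S.α j := by
  rw [← S.norm_a, ← S.norm_a, S.aper, show j + S.k + 1 = (j + 1) + S.k by ring, S.aper]

lemma β_per (j : ℕ) : S.β (j + S.k) = S.β j := by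
  rw [← S.norm_b, ← S.norm_b, S.bper, show j + S.k + 1 = (j + 1) + S.k by ring, S.bper]

lemma W_per (h : ℝ) (j : ℕ) : S.W h (j + S.k) = S.W h j := by
  simp only [W, S.aper, S.bper]

lemma val_t_per (j : ℕ) (z : ℂ) : val (S.t (j + S.k)) z = val (S.t j) z := by
  rw [S.tper, val_period]

/-- the mixed area -/
lemma MM_eq : S.MM = ∑ j ∈ Finset.range S.k, S.β j * val (S.t (j + 1)) (S.a j) := by
  have h1 : ∀ j, cr (S.a j) (S.b (j + 1) - S.b j) = S.β j * val (S.t (j + 1)) (S.a j) := by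
    intro j
    rw [cr_val (S.t (j + 1)), val_b, mul_zero, sub_zero, mul_comm]
    rfl
  have h2 : ∀ j, cr (S.a (j + 1)) (S.b (j + 1) - S.b j) = S.β j * val (S.t (j + 1)) (S.a j) := by
    intro j
    rw [cr_val (S.t (j + 1)), val_b, mul_zero, sub_zero, mul_comm, (S.fa j).1]
    rfl
  have h3 : ∑ j ∈ Finset.range S.k, cr (S.a (j + 1)) (S.b (j + 1)) =
      ∑ j ∈ Finset.range S.k, cr (S.a j) (S.b j) := by
    have := periodic_sum (k := S.k) (f := fun j => cr (S.a j) (S.b j))
      (fun j => by simp only [S.aper, S.bper]) 1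
    simp only [add_comm 1] at this
    exact this
  have h4 : ∀ j, cr (S.a j) (S.b (j + 1)) + cr (S.b j) (S.a (j + 1)) =
      2 * (S.β j * val (S.t (j + 1)) (S.a j)) +
      (cr (S.a j) (S.b j) - cr (S.a (j + 1)) (S.b (j + 1))) := by
    intro j
    have e1 := h1 j
    have e2 := h2 j
    simp only [cr, Complex.sub_re, Complex.sub_im] at e1 e2 ⊢
    linarith
  rw [MM, Finset.sum_congr rfl fun j _ => h4 j, Finset.sum_add_distrib, Finset.sum_sub_distrib,
    h3, ← Finset.mul_sum]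
  ring

/-- data of a wedge: `B` lies on the line `val θ = v`, and `A` has extent `[-Hm, Hp]` -/
structure Wd (S : Sw A B) where
  θ : ℝ
  v : ℝ
  Hp : ℝ
  Hm : ℝ
  hB : ∀ z ∈ B, val θ z = v
  hpos : 0 < S.pB
  hp : ∃ m ∈ A, val θ m = Hp
  hm : ∃ m ∈ A, val θ m = -Hm
  hp' : ∀ m ∈ A, val θ m ≤ Hp
  hm' : ∀ m ∈ A, -Hm ≤ val θ m
  hw : 0 < Hp + Hm

variable {S} (D : Wd S)

lemma eps_cases {j : ℕ} (hj : 0 < S.β j) :
    ((∀ z, val (S.t (j + 1)) z = val D.θ z) ∧ (∀ z, dval (S.t (j + 1)) z = dval D.θ z) ∧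
      Real.cos (D.θ - S.t (j + 1)) = 1) ∨
    ((∀ z, val (S.t (j + 1)) z = - val D.θ z) ∧ (∀ z, dval (S.t (j + 1)) z = - dval D.θ z) ∧
      Real.cos (D.θ - S.t (j + 1)) = -1) := by
  set t := S.t (j + 1) with ht
  set s := D.θ - t with hs
  have hθ : D.θ = t + s := by rw [hs]; ring
  have h0 : val D.θ (S.b (j + 1) - S.b j) = 0 := by
    rw [val_sub, D.hB _ (S.b_mem _), D.hB _ (S.b_mem _), sub_self]
  have h1 : Real.sin s = 0 := by
    rw [hθ, val_of_val_dval _ _ _ (S.val_b j)] at h0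
    rcases mul_eq_zero.1 h0 with h | h
    · exact h
    · exact absurd h hj.ne'
  have h2 : Real.cos s = 1 ∨ Real.cos s = -1 := by
    have := Real.sin_sq_add_cos_sq s
    rw [h1] at this
    have h3 : (Real.cos s - 1) * (Real.cos s + 1) = 0 := by nlinarith
    rcases mul_eq_zero.1 h3 with h | h
    · left; linarith
    · right; linarith
  rcases h2 with h2 | h2
  · left
    refine ⟨fun z => ?_, fun z => ?_, h2⟩
    · rw [hθ, val_rot, h1, h2]; ring
    · rw [hθ, dval_rot, h1, h2]; ring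
  · right
    refine ⟨fun z => ?_, fun z => ?_, h2⟩
    · rw [hθ, val_rot, h1, h2]; ring
    · rw [hθ, dval_rot, h1, h2]; ring

lemma sum_eps : ∑ j ∈ Finset.range S.k, Real.cos (D.θ - S.t (j + 1)) * S.β j = 0 := by
  have h1 : ∀ j, Real.cos (D.θ - S.t (j + 1)) * S.β j =
      dval D.θ (S.b (j + 1)) - dval D.θ (S.b j) := by
    intro j
    have hθ : D.θ = S.t (j + 1) + (D.θ - S.t (j + 1)) := by ring
    rw [← dval_sub]
    conv_rhs => rw [hθ, dval_rot, val_b]
    rw [mul_zero, sub_zero]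
    rfl
  rw [Finset.sum_congr rfl fun j _ => h1 j, Finset.sum_range_sub (fun j => dval D.θ (S.b j))]
  have := S.bper 0
  rw [zero_add] at this
  rw [this, sub_self]

lemma exists_plus : ∃ j < S.k, 0 < S.β j ∧ (∀ z, val (S.t (j + 1)) z = val D.θ z) ∧
    (∀ z, dval (S.t (j + 1)) z = dval D.θ z) ∧ Real.cos (D.θ - S.t (j + 1)) = 1 := by
  by_contra hcon
  push Not at hcon
  have h1 : ∀ j ∈ Finset.range S.k, Real.cos (D.θ - S.t (j + 1)) * S.β j = - S.β j := by
    intro j hj
    rcases eq_or_lt_of_le (S.β_nonneg j) with h | h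
    · rw [← h]; ring
    · rcases eps_cases D h with h' | h'
      · exact absurd h'.2.2 (hcon j (Finset.mem_range.1 hj) h h'.1 h'.2.1)
      · rw [h'.2.2]; ring
  have h2 := sum_eps D
  rw [Finset.sum_congr rfl h1, Finset.sum_neg_distrib] at h2
  have h3 := D.hpos
  rw [pB] at h3
  linarith

lemma exists_minus : ∃ j < S.k, 0 < S.β j ∧ (∀ z, val (S.t (j + 1)) z = - val D.θ z) ∧
    (∀ z, dval (S.t (j + 1)) z = - dval D.θ z) ∧ Real.cos (D.θ - S.t (j + 1)) = -1 := by
  by_contra hcon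
  push Not at hcon
  have h1 : ∀ j ∈ Finset.range S.k, Real.cos (D.θ - S.t (j + 1)) * S.β j = S.β j := by
    intro j hj
    rcases eq_or_lt_of_le (S.β_nonneg j) with h | h
    · rw [← h]; ring
    · rcases eps_cases D h with h' | h'
      · rw [h'.2.2]; ring
      · exact absurd h'.2.2 (hcon j (Finset.mem_range.1 hj) h h'.1 h'.2.1)
  have h2 := sum_eps D
  rw [Finset.sum_congr rfl h1] at h2
  have h3 := D.hpos
  rw [pB] at h3
  linarith

lemma plus_vals {j : ℕ} (hv : ∀ z, val (S.t (j + 1)) z = val D.θ z) :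
    val D.θ (S.a j) = D.Hp ∧ val D.θ (S.a (j + 1)) = D.Hp := by
  have h1 := S.wa j (S.t (j + 1)) ⟨(S.tlt j).le, le_rfl⟩
  obtain ⟨m, hm, hm2⟩ := D.hp
  have h2 := h1 m hm
  rw [hv, hv, hm2] at h2
  have h3 := D.hp' _ (S.a_mem j)
  have h4 : val D.θ (S.a j) = D.Hp := le_antisymm h3 h2
  refine ⟨h4, ?_⟩
  rw [← h4, ← hv, ← hv]
  exact (S.fa j).1.symm

lemma minus_vals {j : ℕ} (hv : ∀ z, val (S.t (j + 1)) z = - val D.θ z) :
    val D.θ (S.a j) = - D.Hm ∧ val D.θ (S.a (j + 1)) = - D.Hm := by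
  have h1 := S.wa j (S.t (j + 1)) ⟨(S.tlt j).le, le_rfl⟩
  obtain ⟨m, hm, hm2⟩ := D.hm
  have h2 := h1 m hm
  rw [hv, hv, hm2] at h2
  have h3 := D.hm' _ (S.a_mem j)
  have h4 : val D.θ (S.a j) = - D.Hm := le_antisymm (by linarith) h3
  refine ⟨h4, ?_⟩
  have := (S.fa j).1
  rw [hv, hv, h4] at this
  linarith

lemma MM_wedge : S.MM = (D.Hp + D.Hm) / 2 * S.pB := by
  rw [MM_eq]
  have h1 : ∀ j ∈ Finset.range S.k, S.β j * val (S.t (j + 1)) (S.a j) =
      (D.Hp + D.Hm) / 2 * S.β j +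
        (D.Hp - D.Hm) / 2 * (Real.cos (D.θ - S.t (j + 1)) * S.β j) := by
    intro j _
    rcases eq_or_lt_of_le (S.β_nonneg j) with h | h
    · rw [← h]; ring
    · rcases eps_cases D h with h' | h'
      · rw [h'.2.2, h'.1, (plus_vals D h'.1).1]; ring
      · rw [h'.2.2, h'.1, (minus_vals D h'.1).1]; ring
  rw [Finset.sum_congr rfl h1, Finset.sum_add_distrib, ← Finset.mul_sum, ← Finset.mul_sum,
    sum_eps D, pB]
  ring

include D in
lemma sh_b_wedge : sh S.k S.b = 0 := by
  have hb : S.b S.k = S.b 0 := by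
    have := S.bper 0
    rwa [zero_add] at this
  rw [← sh_translate hb (S.b 0), sh]
  have : ∀ j ∈ Finset.range S.k, cr (S.b j - S.b 0) (S.b (j + 1) - S.b 0) = 0 := by
    intro j _
    rw [cr_val D.θ, val_sub, val_sub, D.hB _ (S.b_mem _), D.hB _ (S.b_mem _),
      D.hB _ (S.b_mem _)]
    ring
  rw [Finset.sum_congr rfl this]
  simp

/-- there is exactly one plus index in a period -/
lemma pB_eq {i : ℕ} (hik : i < S.k)
    (hc : Real.cos (D.θ - S.t (i + 1)) = 1) : S.pB = 2 * S.β i := by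
  have h1 : S.pB = ∑ j ∈ Finset.range S.k, (1 + Real.cos (D.θ - S.t (j + 1))) * S.β j := by
    have := sum_eps D
    simp only [add_mul, one_mul, Finset.sum_add_distrib]
    rw [this, add_zero]
    rfl
  rw [h1, Finset.sum_eq_single i]
  · rw [hc]; ring
  · intro j hj hji
    rcases eq_or_lt_of_le (S.β_nonneg j) with h | h
    · rw [← h]; ring
    · rcases eps_cases D h with h' | h'
      · exfalso
        have c1 := (Real.cos_eq_one_iff _).1 hc
        have c2 := (Real.cos_eq_one_iff _).1 h'.2.2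
        obtain ⟨n1, hn1⟩ := c1
        obtain ⟨n2, hn2⟩ := c2
        have hjk := Finset.mem_range.1 hj
        have hpi := Real.pi_pos
        have hd : S.t (j + 1) - S.t (i + 1) = ((n1 - n2 : ℤ) : ℝ) * (2 * π) := by
          push_cast; linarith
        have u1 : S.t (j + 1) < S.t (i + 1) + 2 * π := by
          rw [← S.tper]; exact S.tmono (by omega)
        have u2 : S.t (i + 1) < S.t (j + 1) + 2 * π := by
          rw [← S.tper]; exact S.tmono (by omega)
        have n3 : ((n1 - n2 : ℤ) : ℝ) < 1 := by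
          by_contra hcon
          push Not at hcon
          have := mul_le_mul_of_nonneg_right hcon (by positivity : 0 ≤ 2 * π)
          linarith
        have n4 : (-1 : ℝ) < ((n1 - n2 : ℤ) : ℝ) := by
          by_contra hcon
          push Not at hcon
          have := mul_le_mul_of_nonneg_right hcon (by positivity : 0 ≤ 2 * π)
          linarith
        have n5 : n1 - n2 < 1 := by exact_mod_cast n3
        have n6 : -1 < n1 - n2 := by exact_mod_cast n4
        have n7 : n1 - n2 = 0 := by omega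
        rw [n7] at hd
        simp only [Int.cast_zero, zero_mul] at hd
        have : S.t (j + 1) = S.t (i + 1) := by linarith
        have := S.tmono.injective this
        omega
      · rw [h'.2.2]; ring
  · intro h
    exact absurd (Finset.mem_range.2 hik) h

/-- Schmidt's inequality for the base `A` -/
lemma sh_a_le : sh S.k S.a ≤ S.pA * (D.Hp + D.Hm) / 2 - π * (D.Hp + D.Hm) ^ 2 / 4 := by
  set r := (D.Hp + D.Hm) / 2 with hr
  have hr0 : 0 < r := by have := D.hw; rw [hr]; linarith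
  set e : ℕ → ℂ := fun j => ⟨val D.θ (S.a j), dval D.θ (S.a j)⟩ with he
  set o : ℂ := ⟨(D.Hp - D.Hm) / 2, 0⟩ with ho
  have hak : S.a S.k = S.a 0 := by
    have := S.aper 0
    rwa [zero_add] at this
  have hek : e S.k = e 0 := by simp only [he, hak]
  have h1 : sh S.k e = sh S.k S.a := by
    unfold sh
    congr 1
    refine Finset.sum_congr rfl fun j _ => ?_
    rw [cr_val D.θ (S.a j) (S.a (j + 1))]
    simp only [cr, he]
  have h2 := sh_translate hek o
  set d : ℕ → ℂ := fun j => e j - o with hd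
  have hdk : d S.k = d 0 := by simp only [hd, hek]
  have hper : per S.k d = S.pA := by
    rw [per, pA]
    refine Finset.sum_congr rfl fun j _ => ?_
    rw [← S.norm_a]
    have : ‖d (j + 1) - d j‖ ^ 2 = ‖S.a (j + 1) - S.a j‖ ^ 2 := by
      rw [norm_sq_val D.θ (S.a (j + 1) - S.a j), ← Complex.normSq_eq_norm_sq, Complex.normSq_apply,
        val_sub, dval_sub]
      simp only [hd, he, Complex.sub_re, Complex.sub_im]
      ring
    exact (sq_eq_sq₀ (norm_nonneg _) (norm_nonneg _)).1 this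
  have hre : ∀ j, |(d j).re| ≤ r := by
    intro j
    have b1 := D.hp' _ (S.a_mem j)
    have b2 := D.hm' _ (S.a_mem j)
    simp only [hd, he, ho, Complex.sub_re, abs_le, hr]
    constructor <;> linarith
  obtain ⟨jp, hjp, -, hv, -⟩ := exists_plus D
  obtain ⟨jm, hjm, -, hv', -⟩ := exists_minus D
  have hM : (d jp).re = r := by
    simp only [hd, he, ho, Complex.sub_re, hr, (plus_vals D hv).1]; ring
  have hm : (d jm).re = -r := by
    simp only [hd, he, ho, Complex.sub_re, hr, (minus_vals D hv').1]; ring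
  have := schmidt hdk hr0 hre hjp.le hjm.le hM hm
  rw [hper, h2, h1] at this
  have e2 : D.Hp + D.Hm = 2 * r := by rw [hr]; ring
  rw [e2]
  linarith

/-- lower bound for a lateral edge -/
lemma W_ge (h : ℝ) (j : ℕ) : √(h ^ 2 + (val D.θ (S.a j) - D.v) ^ 2) ≤ S.W h j := by
  rw [W, norm_pt_sub]
  apply Real.sqrt_le_sqrt
  rw [norm_sq_val D.θ, val_sub, D.hB _ (S.b_mem j)]
  nlinarith [sq_nonneg (dval D.θ (S.a j - S.b j))]

lemma W_ge_h {h : ℝ} (hh : 0 < h) (j : ℕ) : h ≤ S.W h j := by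
  rw [W, norm_pt_sub]
  apply Real.le_sqrt_of_sq_le
  nlinarith [sq_nonneg ‖S.a j - S.b j‖]

lemma mink (h x y : ℝ) : √(4 * h ^ 2 + (x + y) ^ 2) ≤ √(h ^ 2 + x ^ 2) + √(h ^ 2 + y ^ 2) := by
  have := norm_add_le (⟨h, x⟩ : ℂ) (⟨h, y⟩ : ℂ)
  rw [Complex.norm_eq_sqrt_sq_add_sq, Complex.norm_eq_sqrt_sq_add_sq,
    Complex.norm_eq_sqrt_sq_add_sq] at this
  simp only [Complex.add_re, Complex.add_im] at this
  have e : (h + h) ^ 2 + (x + y) ^ 2 = 4 * h ^ 2 + (x + y) ^ 2 := by ring
  rwa [e] at this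

/-- the four indices of the lateral edges at the two extreme sides -/
lemma four_idx : ∃ n m : ℕ, n < S.k ∧ m < S.k ∧
    0 < S.β n ∧ 0 < S.β m ∧
    (∀ z, val (S.t (n + 1)) z = val D.θ z) ∧ (∀ z, dval (S.t (n + 1)) z = dval D.θ z) ∧
    Real.cos (D.θ - S.t (n + 1)) = 1 ∧
    (∀ z, val (S.t (m + 1)) z = - val D.θ z) ∧ (∀ z, dval (S.t (m + 1)) z = - dval D.θ z) ∧
    val D.θ (S.a n) = D.Hp ∧ val D.θ (S.a (n + 1)) = D.Hp ∧
    val D.θ (S.a m) = - D.Hm ∧ val D.θ (S.a (m + 1)) = - D.Hm ∧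
    ({n, (n + 1) % S.k, m, (m + 1) % S.k} : Finset ℕ).card = 4 ∧
    ({n, (n + 1) % S.k, m, (m + 1) % S.k} : Finset ℕ) ⊆ Finset.range S.k := by
  obtain ⟨n, hn, hβn, hvn, hdn, hcn⟩ := exists_plus D
  obtain ⟨m, hm, hβm, hvm, hdm, hcm⟩ := exists_minus D
  obtain ⟨p1, p2⟩ := plus_vals D hvn
  obtain ⟨q1, q2⟩ := minus_vals D hvm
  have hk := S.hk
  have hw := D.hw
  have hamod : ∀ j, S.a (j % S.k) = S.a j := periodic_mod hk S.aper
  have p3 : val D.θ (S.a ((n + 1) % S.k)) = D.Hp := by rw [hamod, p2]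
  have q3 : val D.θ (S.a ((m + 1) % S.k)) = - D.Hm := by rw [hamod, q2]
  have hk2 : 1 < S.k := by
    by_contra hcon
    have : S.k = 1 := by omega
    have e1 : n = 0 := by omega
    have e2 : m = 0 := by omega
    rw [e1] at p1
    rw [e2] at q1
    linarith
  have d1 : n ≠ (n + 1) % S.k := by
    intro e
    rcases lt_or_ge (n + 1) S.k with h | h
    · rw [Nat.mod_eq_of_lt h] at e; omega
    · have : n + 1 = S.k := by omega
      rw [this, Nat.mod_self] at e
      omega
  have d2 : m ≠ (m + 1) % S.k := by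
    intro e
    rcases lt_or_ge (m + 1) S.k with h | h
    · rw [Nat.mod_eq_of_lt h] at e; omega
    · have : m + 1 = S.k := by omega
      rw [this, Nat.mod_self] at e
      omega
  have d3 : n ≠ m := by rintro rfl; linarith
  have d4 : n ≠ (m + 1) % S.k := by intro e; rw [← e] at q3; linarith
  have d5 : (n + 1) % S.k ≠ m := by intro e; rw [e] at p3; linarith
  have d6 : (n + 1) % S.k ≠ (m + 1) % S.k := by intro e; rw [e] at p3; linarith
  refine ⟨n, m, hn, hm, hβn, hβm, hvn, hdn, hcn, hvm, hdm, p1, p2, q1, q2, ?_, ?_⟩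
  · rw [Finset.card_insert_of_notMem, Finset.card_insert_of_notMem, Finset.card_insert_of_notMem,
      Finset.card_singleton]
    · simpa using d2
    · simp only [Finset.mem_insert, Finset.mem_singleton, not_or]; exact ⟨d5, d6⟩
    · simp only [Finset.mem_insert, Finset.mem_singleton, not_or]; exact ⟨d1, d3, d4⟩
  · intro x hx
    simp only [Finset.mem_insert, Finset.mem_singleton] at hx
    rw [Finset.mem_range]
    rcases hx with rfl | rfl | rfl | rfl
    · exact hn
    · exact Nat.mod_lt _ hk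
    · exact hm
    · exact Nat.mod_lt _ hk

/-- sum of the lateral edges of a wedge -/
lemma sum_W_wedge {h : ℝ} (hh : 0 < h) {n m : ℕ}
    (p1 : val D.θ (S.a n) = D.Hp) (p2 : val D.θ (S.a (n + 1)) = D.Hp)
    (q1 : val D.θ (S.a m) = - D.Hm) (q2 : val D.θ (S.a (m + 1)) = - D.Hm)
    (hcard : ({n, (n + 1) % S.k, m, (m + 1) % S.k} : Finset ℕ).card = 4)
    (hsub : ({n, (n + 1) % S.k, m, (m + 1) % S.k} : Finset ℕ) ⊆ Finset.range S.k) :
    4 ≤ S.k ∧ S.W h n + S.W h (n + 1) + S.W h m + S.W h (m + 1) + (S.k - 4) * h ≤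
      ∑ j ∈ Finset.range S.k, S.W h j ∧
    2 * √(4 * h ^ 2 + (D.Hp + D.Hm) ^ 2) ≤ S.W h n + S.W h (n + 1) + S.W h m + S.W h (m + 1) := by
  have hk := S.hk
  have hk4 : 4 ≤ S.k := by
    have := Finset.card_le_card hsub
    rwa [hcard, Finset.card_range] at this
  refine ⟨hk4, ?_, ?_⟩
  · rw [← Finset.sum_sdiff hsub]
    have h1 : ∑ j ∈ ({n, (n + 1) % S.k, m, (m + 1) % S.k} : Finset ℕ), S.W h j =
        S.W h n + S.W h (n + 1) + S.W h m + S.W h (m + 1) := by
      have hWmod : ∀ j, S.W h (j % S.k) = S.W h j := periodic_mod hk (S.W_per h)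
      have hc3 : ({(n + 1) % S.k, m, (m + 1) % S.k} : Finset ℕ).card ≤ 3 := Finset.card_le_three
      have n1 : n ∉ ({(n + 1) % S.k, m, (m + 1) % S.k} : Finset ℕ) := by
        intro hmem
        rw [Finset.insert_eq_of_mem hmem] at hcard
        omega
      rw [Finset.card_insert_of_notMem n1] at hcard
      have hc2 : ({m, (m + 1) % S.k} : Finset ℕ).card ≤ 2 := Finset.card_le_two
      have n2 : (n + 1) % S.k ∉ ({m, (m + 1) % S.k} : Finset ℕ) := by
        intro hmem
        rw [Finset.insert_eq_of_mem hmem] at hcard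
        omega
      rw [Finset.card_insert_of_notMem n2] at hcard
      have n3 : m ∉ ({(m + 1) % S.k} : Finset ℕ) := by
        intro hmem
        rw [Finset.insert_eq_of_mem hmem, Finset.card_singleton] at hcard
        omega
      rw [Finset.sum_insert n1, Finset.sum_insert n2, Finset.sum_insert n3, Finset.sum_singleton,
        hWmod, hWmod]
      ring
    have h2 : (S.k - 4) * h ≤
        ∑ j ∈ Finset.range S.k \ {n, (n + 1) % S.k, m, (m + 1) % S.k}, S.W h j := by
      have : ((Finset.range S.k \ {n, (n + 1) % S.k, m, (m + 1) % S.k}).card : ℝ) = S.k - 4 := by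
        rw [Finset.card_sdiff_of_subset hsub, hcard, Finset.card_range, Nat.cast_sub hk4]
        norm_num
      rw [← this, ← nsmul_eq_mul]
      exact Finset.card_nsmul_le_sum _ _ _ fun j _ => W_ge_h hh j
    linarith
  · have w1 := W_ge D h n
    have w2 := W_ge D h (n + 1)
    have w3 := W_ge D h m
    have w4 := W_ge D h (m + 1)
    rw [p1] at w1
    rw [p2] at w2
    rw [q1] at w3
    rw [q2] at w4
    have h1 := mink h (D.Hp - D.v) (D.Hm + D.v)
    have e1 : D.Hp - D.v + (D.Hm + D.v) = D.Hp + D.Hm := by ring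
    rw [e1] at h1
    have e2 : (-D.Hm - D.v) ^ 2 = (D.Hm + D.v) ^ 2 := by ring
    rw [e2] at w3 w4
    linarith

end Sw

end Pool.Agent.Work.MP_3892ce_gt.helper74
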