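import Pool.Agent.Work.MP_3892ce_helper74.Wedge

/-! # Melzak's problem, prismatoids (helper74): the inequality for wedges, with equality case -/

set_option autoImplicit false

namespace Pool.Agent.Work.MP_3892ce_gt.helper74

open Real Set MeasureTheory

lemma amgm_Qs (Q s : ℝ) : 4 * (Q + s) ^ 3 - 27 * (Q * s ^ 2) = (2 * Q - s) ^ 2 * (Q + 4 * s) := by
  ring

lemma sqrt3_facts : 0 < √3 ∧ √3 ^ 2 = 3 ∧ √3 < 1.7321 :=
  ⟨Real.sqrt_pos.2 (by norm_num), Real.sq_sqrt (by norm_num), by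
    rw [Real.sqrt_lt' (by norm_num)]; norm_num⟩

/-- scalar inequality for at least five lateral edges -/
lemma scal_w5 {h w q : ℝ} (hh : 0 < h) (hw : 0 < w) (hq : 0 ≤ q) :
    972 * √3 * (h * w / 6 * (q - π * w / 2)) <
      (q + 2 * √(4 * h ^ 2 + w ^ 2) + h) ^ 3 := by
  obtain ⟨s0, s1, s2⟩ := sqrt3_facts
  set r := √(4 * h ^ 2 + w ^ 2) with hr
  have hr0 : 0 ≤ r := Real.sqrt_nonneg _
  have hr2 : r ^ 2 = 4 * h ^ 2 + w ^ 2 := Real.sq_sqrt (by positivity)
  have hpos : 0 < (q + 2 * r + h) ^ 3 := by positivity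
  rcases le_or_gt (q - π * w / 2) 0 with hQ | hQ
  · have : 972 * √3 * (h * w / 6 * (q - π * w / 2)) ≤ 0 := by
      have h1 : h * w / 6 * (q - π * w / 2) ≤ 0 :=
        mul_nonpos_of_nonneg_of_nonpos (by positivity) hQ
      exact mul_nonpos_of_nonneg_of_nonpos (by positivity) h1
    linarith
  · set Q := q - π * w / 2 with hQdef
    set s := 2 * r + h + π * w / 2 with hs
    have hpi := Real.pi_gt_d2
    have e1 : q + 2 * r + h = Q + s := by rw [hQdef, hs]; ring
    have hr3 : 0.707 * (2 * h + w) ≤ r := by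
      apply abs_le_of_sq_le_sq' _ hr0 |>.2
      rw [hr2]
      nlinarith [sq_nonneg (2 * h - w), mul_pos hh hw]
    have hs1 : 3.828 * h + 2.984 * w ≤ s := by
      rw [hs]
      nlinarith [mul_pos hh hw]
    have hs2 : 41.571 * (h * w) ≤ s ^ 2 := by
      have : (3.828 * h + 2.984 * w) ^ 2 ≤ s ^ 2 := pow_le_pow_left₀ (by positivity) hs1 2
      nlinarith [sq_nonneg (3.828 * h - 2.984 * w), mul_pos hh hw]
    have h4 := amgm_Qs Q s
    have hs0 : 0 ≤ s := by rw [hs]; positivity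
    have h5 : 0 ≤ (2 * Q - s) ^ 2 * (Q + 4 * s) := by positivity
    have h6 : 27 * (Q * (41.571 * (h * w))) ≤ 27 * (Q * s ^ 2) := by
      have := mul_le_mul_of_nonneg_left hs2 hQ.le
      linarith
    rw [e1]
    have h7 : 0 < Q * (h * w) := by positivity
    have h8 : 972 * √3 * (h * w / 6 * Q) = 162 * √3 * (Q * (h * w)) := by ring
    rw [h8]
    nlinarith

/-- scalar inequality for four lateral edges -/
lemma scal_w4 {h w q : ℝ} (hh : 0 < h) (hw : 0 < w) (hq : 0 ≤ q) :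
    972 * √3 * (h * w / 6 * q) ≤ (q + 2 * w + 2 * √(4 * h ^ 2 + w ^ 2)) ^ 3 ∧
    (0 < q → 972 * √3 * (h * w / 6 * q) = (q + 2 * w + 2 * √(4 * h ^ 2 + w ^ 2)) ^ 3 →
      √(4 * h ^ 2 + w ^ 2) = 2 * w ∧ q = 3 * w) := by
  obtain ⟨s0, s1, s2⟩ := sqrt3_facts
  set r := √(4 * h ^ 2 + w ^ 2) with hr
  have hr0 : 0 ≤ r := Real.sqrt_nonneg _
  have hr2 : r ^ 2 = 4 * h ^ 2 + w ^ 2 := Real.sq_sqrt (by positivity)
  have hrw : w < r := by
    apply lt_of_pow_lt_pow_left₀ 2 hr0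
    rw [hr2]; nlinarith [mul_pos hh hh]
  set s := 2 * w + 2 * r with hs
  have e1 : q + 2 * w + 2 * r = q + s := by rw [hs]; ring
  rw [e1]
  -- (w + r)^3 - 27 w^2 (r - w) = (r - 2 w)^2 (r + 7 w)
  have k1 : (w + r) ^ 3 - 27 * (w ^ 2 * (r - w)) = (r - 2 * w) ^ 2 * (r + 7 * w) := by ring
  have k2 : ((w + r) ^ 2) ^ 2 - (6 * √3 * (h * w)) ^ 2 = (r + w) * ((r - 2 * w) ^ 2 * (r + 7 * w)) := by
    have : (6 * √3 * (h * w)) ^ 2 = 27 * w ^ 2 * (r ^ 2 - w ^ 2) := by
      rw [hr2]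
      have : (6 * √3 * (h * w)) ^ 2 = 36 * √3 ^ 2 * (h * w) ^ 2 := by ring
      rw [this, s1]; ring
    rw [this]
    linear_combination (r + w) * k1
  have k3 : 6 * √3 * (h * w) ≤ (w + r) ^ 2 := by
    refine abs_le_of_sq_le_sq' ?_ (by positivity) |>.2
    have : 0 ≤ (r + w) * ((r - 2 * w) ^ 2 * (r + 7 * w)) := by positivity
    linarith
  have k4 : 24 * √3 * (h * w) ≤ s ^ 2 := by
    have : s ^ 2 = 4 * (w + r) ^ 2 := by rw [hs]; ring
    rw [this]; linarith
  have h4 := amgm_Qs q s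
  have hs0 : 0 < s := by rw [hs]; positivity
  have h5 : 0 ≤ (2 * q - s) ^ 2 * (q + 4 * s) := by positivity
  have h6 : 27 * (q * (24 * √3 * (h * w))) ≤ 27 * (q * s ^ 2) := by
    have := mul_le_mul_of_nonneg_left k4 hq
    linarith
  have e2 : 972 * √3 * (h * w / 6 * q) * 4 = 27 * (q * (24 * √3 * (h * w))) := by ring
  constructor
  · linarith
  · intro hq0 he
    have h7 : (2 * q - s) ^ 2 * (q + 4 * s) = 0 := by linarith
    have h8 : q * (24 * √3 * (h * w)) = q * s ^ 2 := by linarith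
    have h9 : 24 * √3 * (h * w) = s ^ 2 := mul_left_cancel₀ hq0.ne' h8
    have h10 : 6 * √3 * (h * w) = (w + r) ^ 2 := by
      have : s ^ 2 = 4 * (w + r) ^ 2 := by rw [hs]; ring
      rw [this] at h9; linarith
    rw [h10, sub_self] at k2
    have h11 : r = 2 * w := by
      rcases mul_eq_zero.1 k2.symm with h | h
      · linarith
      · rcases mul_eq_zero.1 h with h | h
        · have := pow_eq_zero_iff two_ne_zero |>.1 h
          linarith
        · linarith
    refine ⟨h11, ?_⟩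
    rcases mul_eq_zero.1 h7 with h | h
    · have := pow_eq_zero_iff two_ne_zero |>.1 h
      rw [hs, h11] at this
      linarith
    · linarith

/-- equality in Minkowski's inequality -/
lemma mink_eq {h x y : ℝ} (hh : 0 < h)
    (he : √(h ^ 2 + x ^ 2) + √(h ^ 2 + y ^ 2) = √(4 * h ^ 2 + (x + y) ^ 2)) : x = y := by
  set a := √(h ^ 2 + x ^ 2) with ha
  set b := √(h ^ 2 + y ^ 2) with hb
  set c := √(4 * h ^ 2 + (x + y) ^ 2) with hc
  have ha2 : a ^ 2 = h ^ 2 + x ^ 2 := Real.sq_sqrt (by positivity)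
  have hb2 : b ^ 2 = h ^ 2 + y ^ 2 := Real.sq_sqrt (by positivity)
  have hc2 : c ^ 2 = 4 * h ^ 2 + (x + y) ^ 2 := Real.sq_sqrt (by positivity)
  have h1 : a * b = h ^ 2 + x * y := by
    have : (a + b) ^ 2 = c ^ 2 := by rw [he]
    nlinarith
  have h2 : (a * b) ^ 2 = (h ^ 2 + x ^ 2) * (h ^ 2 + y ^ 2) := by rw [mul_pow, ha2, hb2]
  rw [h1] at h2
  have h3 : h ^ 2 * (x - y) ^ 2 = 0 := by nlinarith
  rcases mul_eq_zero.1 h3 with h | h
  · exact absurd (pow_eq_zero_iff two_ne_zero |>.1 h) hh.ne'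
  · have := pow_eq_zero_iff two_ne_zero |>.1 h
    linarith

namespace Sw

variable {A B : Finset ℂ} (S : Sw A B)

/-- every point of `A` is in the convex hull of the vertices `a j` -/
lemma hull_gen {C : Finset ℂ} {c : ℕ → ℂ} {k : ℕ} (hk : 0 < k) (hper : ∀ j, c (j + k) = c j)
    (hmax : ∀ φ, ∃ j, ∀ z ∈ C, val φ z ≤ val φ (c j)) {z : ℂ} (hz : z ∈ C) :
    z ∈ convexHull ℝ (Set.range c) := by
  by_contra hcon
  have hfin : (Set.range c).Finite := by
    refine ((Finset.range k).finite_toSet.image c).subset ?_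
    rintro _ ⟨j, rfl⟩
    exact ⟨j % k, by simpa using Nat.mod_lt _ hk, periodic_mod hk hper j⟩
  have hcl : IsClosed (convexHull ℝ (Set.range c)) := (hfin.isCompact_convexHull (𝕜 := ℝ)).isClosed
  obtain ⟨f, u, h1, h2⟩ := geometric_hahn_banach_closed_point (convex_convexHull ℝ _) hcl hcon
  have hf : ∀ w : ℂ, f w = ‖(⟨f 1, f Complex.I⟩ : ℂ)‖ * val (Complex.arg ⟨f 1, f Complex.I⟩) w := by
    intro w
    have e1 : w = w.re • (1 : ℂ) + w.im • Complex.I := by
      apply Complex.ext <;> simp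
    have e2 := Complex.norm_mul_cos_arg (⟨f 1, f Complex.I⟩ : ℂ)
    have e3 := Complex.norm_mul_sin_arg (⟨f 1, f Complex.I⟩ : ℂ)
    simp only at e2 e3
    conv_lhs => rw [e1, map_add, map_smul, map_smul, smul_eq_mul, smul_eq_mul]
    simp only [val]
    linear_combination (-w.re) * e2 - w.im * e3
  obtain ⟨j, hj⟩ := hmax (Complex.arg ⟨f 1, f Complex.I⟩)
  have h3 := h1 (c j) (subset_convexHull ℝ _ ⟨j, rfl⟩)
  have h4 := hj z hz
  rw [hf] at h2 h3
  have := mul_le_mul_of_nonneg_left h4 (norm_nonneg (⟨f 1, f Complex.I⟩ : ℂ))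
  linarith

lemma pt_hull {c : ℕ → ℂ} {z : ℂ} (t : ℝ) (hz : z ∈ convexHull ℝ (Set.range c)) :
    pt z t ∈ convexHull ℝ (Set.range fun j => pt (c j) t) := by
  have : convexHull ℝ (Set.range c) ⊆ {w | pt w t ∈ convexHull ℝ (Set.range fun j => pt (c j) t)} := by
    refine convexHull_min ?_ ?_
    · rintro _ ⟨j, rfl⟩
      exact subset_convexHull ℝ _ ⟨j, rfl⟩
    · intro x hx y hy a b ha hb hab
      simp only [mem_ofPred_eq] at hx hy ⊢
      rw [← pt_comb _ _ _ _ _ hab]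
      exact convex_convexHull ℝ _ hx hy ha hb hab
  exact this hz

/-- the prismatoid is the convex hull of its vertices -/
theorem Pr_eq (h : ℝ) : Pr A B h = convexHull ℝ
    ((Set.range fun j => pt (S.a j) 0) ∪ (Set.range fun j => pt (S.b j) h)) := by
  apply Subset.antisymm
  · refine convexHull_min ?_ (convex_convexHull ℝ _)
    rintro x (⟨z, hz, rfl⟩ | ⟨z, hz, rfl⟩)
    · have h1 := hull_gen S.hk S.aper (fun φ => by
        obtain ⟨j, -, φ', hmem, hv⟩ := S.exists_arc φ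
        refine ⟨j, fun z hz => ?_⟩
        have := S.wa j φ' hmem z hz
        rwa [hv, hv] at this) (Finset.mem_coe.1 hz)
      exact convexHull_mono subset_union_left (pt_hull 0 h1)
    · have h1 := hull_gen S.hk S.bper (fun φ => by
        obtain ⟨j, -, φ', hmem, hv⟩ := S.exists_arc φ
        refine ⟨j, fun z hz => ?_⟩
        have := S.wb j φ' hmem z hz
        rwa [hv, hv] at this) (Finset.mem_coe.1 hz)
      exact convexHull_mono subset_union_right (pt_hull h h1)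
  · apply convexHull_mono
    rintro x (⟨j, rfl⟩ | ⟨j, rfl⟩)
    · exact Or.inl ⟨_, S.a_mem j, rfl⟩
    · exact Or.inr ⟨_, S.b_mem j, rfl⟩

/-- finite real chain: from the equality in `ENNReal` to real equalities -/
lemma chain {P : Set E3} {V L : ℝ} (hV0 : 0 ≤ V) (hL0 : 0 ≤ L)
    (hV : volume P ≤ ENNReal.ofReal V) (hL : ENNReal.ofReal L ≤ zeta1 P)
    (h : 972 * √3 * V ≤ L ^ 3) :
    ENNReal.ofReal (972 * √3) * volume P ≤ zeta1 P ^ 3 ∧
    (volume P ≠ 0 → ENNReal.ofReal (972 * √3) * volume P = zeta1 P ^ 3 →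
      0 < V ∧ 972 * √3 * V = L ^ 3) := by
  have c1 : ENNReal.ofReal (972 * √3) * volume P ≤ ENNReal.ofReal (972 * √3 * V) := by
    rw [ENNReal.ofReal_mul (p := 972 * √3) (q := V) (by positivity)]
    exact mul_le_mul_right hV _
  have c2 : ENNReal.ofReal (972 * √3 * V) ≤ ENNReal.ofReal (L ^ 3) := ENNReal.ofReal_le_ofReal h
  have c3 : ENNReal.ofReal (L ^ 3) ≤ zeta1 P ^ 3 := by
    rw [ENNReal.ofReal_pow hL0]
    gcongr
  refine ⟨c1.trans (c2.trans c3), fun hne he => ?_⟩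
  have e1 : ENNReal.ofReal (972 * √3 * V) = ENNReal.ofReal (L ^ 3) := by
    apply le_antisymm c2
    exact c3.trans (he ▸ c1)
  constructor
  · by_contra hcon
    have : V = 0 := le_antisymm (not_lt.1 hcon) hV0
    rw [this, ENNReal.ofReal_zero] at hV
    exact hne (le_antisymm hV bot_le)
  · exact (ENNReal.ofReal_eq_ofReal_iff (by positivity) (by positivity)).1 e1

end Sw

end Pool.Agent.Work.MP_3892ce_gt.helper74
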