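import Pool.Agent.Work.MP_3892ce_helper74.Wedge2

/-! # Melzak's problem, prismatoids (helper74): the theorem for wedges -/

set_option autoImplicit false

namespace Pool.Agent.Work.MP_3892ce_gt.helper74

open Real Set MeasureTheory

namespace Sw

variable {A B : Finset ℂ} {S : Sw A B} (D : Wd S)

/-- structure of a wedge with four lateral edges -/
lemma four_struct (hk : S.k = 4) {n m : ℕ}
    (hvn : ∀ z, val (S.t (n + 1)) z = val D.θ z) (hdn : ∀ z, dval (S.t (n + 1)) z = dval D.θ z)
    (hβm : 0 < S.β m)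
    (p1 : val D.θ (S.a n) = D.Hp) (p2 : val D.θ (S.a (n + 1)) = D.Hp)
    (q1 : val D.θ (S.a m) = - D.Hm) (q2 : val D.θ (S.a (m + 1)) = - D.Hm)
    (hcard : ({n, (n + 1) % S.k, m, (m + 1) % S.k} : Finset ℕ).card = 4)
    (hn : n < S.k) (hm : m < S.k) :
    m % 4 = (n + 2) % 4 ∧
    val D.θ (S.a (n + 2)) = - D.Hm ∧ val D.θ (S.a (n + 3)) = - D.Hm ∧
    S.α n = dval D.θ (S.a (n + 1)) - dval D.θ (S.a n) ∧
    S.α (n + 2) = dval D.θ (S.a (n + 2)) - dval D.θ (S.a (n + 3)) ∧
    S.α (n + 1) ^ 2 = (D.Hp + D.Hm) ^ 2 + (dval D.θ (S.a (n + 2)) - dval D.θ (S.a (n + 1))) ^ 2 ∧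
    S.α (n + 3) ^ 2 = (D.Hp + D.Hm) ^ 2 + (dval D.θ (S.a n) - dval D.θ (S.a (n + 3))) ^ 2 ∧
    sh S.k S.a = (D.Hp + D.Hm) * (S.α n + S.α (n + 2)) / 2 ∧
    S.pA = S.α n + S.α (n + 1) + S.α (n + 2) + S.α (n + 3) := by
  rw [hk] at hcard hn hm
  have hcne : n ≠ m ∧ n ≠ (m + 1) % 4 ∧ (n + 1) % 4 ≠ m ∧ (n + 1) % 4 ≠ (m + 1) % 4 := by
    have hw := D.hw
    have hamod : ∀ j, S.a (j % 4) = S.a j := by
      have := periodic_mod S.hk S.aper
      rwa [hk] at this
    have p3 : val D.θ (S.a ((n + 1) % 4)) = D.Hp := by rw [hamod, p2]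
    have q3 : val D.θ (S.a ((m + 1) % 4)) = - D.Hm := by rw [hamod, q2]
    refine ⟨?_, ?_, ?_, ?_⟩
    · rintro rfl; linarith
    · intro e; rw [← e] at q3; linarith
    · intro e; rw [e] at p3; linarith
    · intro e; rw [e] at p3; linarith
  obtain ⟨c1, c2, c3, c4⟩ := hcne
  have hmn : m % 4 = (n + 2) % 4 := by omega
  have hper4 : ∀ j, S.a (j + 4) = S.a j := by have := S.aper; rwa [hk] at this
  have hamod : ∀ j, S.a (j % 4) = S.a j := by
    have := periodic_mod S.hk S.aper
    rwa [hk] at this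
  have ha2 : S.a (n + 2) = S.a m := by rw [← hamod (n + 2), ← hmn, hamod]
  have ha3 : S.a (n + 3) = S.a (m + 1) := by
    rw [← hamod (n + 3), ← hamod (m + 1)]
    congr 1
    omega
  have r2 : val D.θ (S.a (n + 2)) = - D.Hm := by rw [ha2, q1]
  have r3 : val D.θ (S.a (n + 3)) = - D.Hm := by rw [ha3, q2]
  have hα0 : S.α n = dval D.θ (S.a (n + 1)) - dval D.θ (S.a n) := by
    rw [α, hdn, dval_sub]
  have hβ2 : 0 < S.β (n + 2) := by
    have : S.β (n + 2) = S.β m := by
      have hβmod : ∀ j, S.β (j % 4) = S.β j := by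
        have := periodic_mod S.hk S.β_per
        rwa [hk] at this
      rw [← hβmod (n + 2), ← hmn, hβmod]
    rw [this]; exact hβm
  have hα2 : S.α (n + 2) = dval D.θ (S.a (n + 2)) - dval D.θ (S.a (n + 3)) := by
    rcases eps_cases D hβ2 with h | h
    · exfalso
      have := (plus_vals D h.1).1
      have hw := D.hw
      linarith
    · rw [α, h.2.1, dval_sub]
      ring_nf
  have ha4 : S.a (n + 4) = S.a n := hper4 n
  have hα1 : S.α (n + 1) ^ 2 =
      (D.Hp + D.Hm) ^ 2 + (dval D.θ (S.a (n + 2)) - dval D.θ (S.a (n + 1))) ^ 2 := by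
    rw [← S.norm_a, norm_sq_val D.θ, val_sub, dval_sub, show n + 1 + 1 = n + 2 by ring, r2, p2]
    ring
  have hα3 : S.α (n + 3) ^ 2 =
      (D.Hp + D.Hm) ^ 2 + (dval D.θ (S.a n) - dval D.θ (S.a (n + 3))) ^ 2 := by
    rw [← S.norm_a, norm_sq_val D.θ, val_sub, dval_sub, show n + 3 + 1 = n + 4 by ring, ha4, r3, p1]
    ring
  refine ⟨hmn, r2, r3, hα0, hα2, hα1, hα3, ?_, ?_⟩
  · have h1 := periodic_sum (k := S.k) (f := fun j => cr (S.a j) (S.a (j + 1))) (fun j => by
      simp only [S.aper, show j + S.k + 1 = (j + 1) + S.k by ring]) n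
    rw [sh, ← h1, hk]
    simp only [Finset.sum_range_succ, Finset.sum_range_zero, zero_add, add_zero]
    rw [show n + 1 + 1 = n + 2 by ring, show n + 2 + 1 = n + 3 by ring,
      show n + 3 + 1 = n + 4 by ring, ha4, cr_val D.θ, cr_val D.θ, cr_val D.θ, cr_val D.θ,
      p1, p2, r2, r3, hα0, hα2]
    ring
  · have h1 := periodic_sum (k := S.k) (f := S.α) S.α_per n
    rw [pA, ← h1, hk]
    simp only [Finset.sum_range_succ, Finset.sum_range_zero, zero_add, add_zero]

include D in
theorem melzak_wedge {h : ℝ} (hh : 0 < h) (hA : NC A) :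
    ENNReal.ofReal (972 * √3) * volume (Pr A B h) ≤ zeta1 (Pr A B h) ^ 3 ∧
    (volume (Pr A B h) ≠ 0 →
      ENNReal.ofReal (972 * √3) * volume (Pr A B h) = zeta1 (Pr A B h) ^ 3 →
      IsArchPrism (Pr A B h)) := by
  obtain ⟨n, m, hn, hm, hβn, hβm, hvn, hdn, hcn, hvm, hdm, p1, p2, q1, q2, hcard, hsub⟩ :=
    four_idx D
  obtain ⟨hk4, hW1, hW2⟩ := sum_W_wedge D hh p1 p2 q1 q2 hcard hsub
  have hpB := pB_eq D hn hcn
  have hw := D.hw
  set w := D.Hp + D.Hm with hwdef
  set Y := 2 * √(4 * h ^ 2 + w ^ 2) with hY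
  set L := (∑ j ∈ Finset.range S.k, S.W h j) + (S.pA + S.β n) with hL
  have hzeta : ENNReal.ofReal L ≤ zeta1 (Pr A B h) := by
    have h1 := S.zeta1_ge' hh hA {n} (by
      intro i hi j hj hij _ _ _ _
      rw [Finset.mem_singleton] at hi hj
      omega)
    have h2 : (Finset.range S.k).filter (· ∈ ({n} : Finset ℕ)) = {n} := by
      ext x
      simp only [Finset.mem_filter, Finset.mem_range, Finset.mem_singleton]
      constructor
      · exact fun h => h.2
      · rintro rfl; exact ⟨hn, rfl⟩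
    rw [h2, Finset.sum_singleton] at h1
    exact h1
  set V := h * (sh S.k S.a / 3 + w * S.β n / 6) with hV
  have hvol : volume (Pr A B h) ≤ ENNReal.ofReal V := by
    refine (S.volume_le_sh hh hA).trans (le_of_eq ?_)
    rw [MM_wedge D, sh_b_wedge D, hpB, hV]
    congr 1
    ring
  have hsha : 0 ≤ sh S.k S.a := by
    -- limit of the section areas
    have h1 : Filter.Tendsto (fun s : ℝ => sh S.k (S.c s)) (nhdsWithin 0 (Ioi 0))
        (nhds (sh S.k S.a)) := by
      have e : ∀ s, sh S.k (S.c s) = (1 - s) ^ 2 * sh S.k S.a + s * (1 - s) * S.MM +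
          s ^ 2 * sh S.k S.b := S.sh_c
      have hc : Continuous fun s : ℝ => sh S.k (S.c s) := by
        simp only [e]
        fun_prop
      have h2 := hc.tendsto 0
      have h3 : sh S.k (S.c 0) = sh S.k S.a := by rw [e]; ring
      rw [h3] at h2
      exact h2.mono_left nhdsWithin_le_nhds
    refine ge_of_tendsto h1 ?_
    have h4 : Ioo (0 : ℝ) 1 ∈ nhdsWithin (0 : ℝ) (Ioi 0) := Ioo_mem_nhdsGT one_pos
    filter_upwards [h4] with s hs
    exact S.sh_c_nonneg hA hs.1 hs.2
  have hV0 : 0 ≤ V := by rw [hV]; positivity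
  have hpA := S.pA_nonneg
  have hWsum : Y + (S.k - 4) * h ≤ ∑ j ∈ Finset.range S.k, S.W h j := by linarith
  have hYpos : 0 < Y := by rw [hY]; positivity
  have hkR : (4 : ℝ) ≤ S.k := by exact_mod_cast hk4
  have hL0 : 0 ≤ L := by
    have : 0 ≤ (S.k - 4 : ℝ) * h := mul_nonneg (by linarith) hh.le
    rw [hL]; linarith
  rcases Nat.lt_or_ge S.k 5 with hk5 | hk5
  · -- four lateral edges
    have hk : S.k = 4 := by omega
    obtain ⟨hmn, r2, r3, a0, a2, a1, a3, hsh, hpa⟩ :=
      four_struct D hk hvn hdn hβm p1 p2 q1 q2 hcard hn hm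
    rw [← hwdef] at a1 a3 hsh
    set q := S.α n + S.α (n + 2) + S.β n with hq
    have hα0 := S.α_nonneg n
    have hα2 := S.α_nonneg (n + 2)
    have hα1 := S.α_nonneg (n + 1)
    have hα3 := S.α_nonneg (n + 3)
    have hq0 : 0 < q := by rw [hq]; linarith
    have b1 : w ≤ S.α (n + 1) := abs_le_of_sq_le_sq' (by
      rw [a1]; nlinarith [sq_nonneg (dval D.θ (S.a (n + 2)) - dval D.θ (S.a (n + 1)))]) hα1 |>.2
    have b3 : w ≤ S.α (n + 3) := abs_le_of_sq_le_sq' (by
      rw [a3]; nlinarith [sq_nonneg (dval D.θ (S.a n) - dval D.θ (S.a (n + 3)))]) hα3 |>.2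
    have hVq : V = h * w / 6 * q := by rw [hV, hsh, hq]; ring
    obtain ⟨s1, s2⟩ := scal_w4 hh hw hq0.le
    rw [← hY] at s1 s2
    have hk4' : (S.k : ℝ) = 4 := by rw [hk]; norm_num
    have hLge : q + 2 * w + Y ≤ L := by
      rw [hL, hpa, hq]
      rw [hk4', sub_self, zero_mul, add_zero] at hWsum
      linarith
    have hmain : 972 * √3 * V ≤ L ^ 3 := by
      rw [hVq]
      exact s1.trans (pow_le_pow_left₀ (by positivity) hLge 3)
    obtain ⟨g1, g2⟩ := chain hV0 hL0 hvol hzeta hmain
    refine ⟨g1, fun hne he => ?_⟩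
    obtain ⟨_, e1⟩ := g2 hne he
    -- all inequalities are equalities
    have e2 : (q + 2 * w + Y) ^ 3 ≤ L ^ 3 := pow_le_pow_left₀ (by positivity) hLge 3
    have e3 : 972 * √3 * (h * w / 6 * q) = (q + 2 * w + Y) ^ 3 := by
      rw [hVq] at e1
      exact le_antisymm s1 (by linarith)
    have e4 : L = q + 2 * w + Y := by
      have : (q + 2 * w + Y) ^ 3 = L ^ 3 := by rw [← e3, ← hVq, e1]
      exact ((pow_left_inj₀ (by positivity) hL0 (by norm_num)).1 this).symm
    obtain ⟨e5, e6⟩ := s2 hq0 e3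
    have e7 : Y = 4 * w := by rw [hY, e5]; ring
    -- consequences
    rw [hk4', sub_self, zero_mul, add_zero] at hW1
    have f0 : L = (∑ j ∈ Finset.range S.k, S.W h j) +
      (S.α n + S.α (n + 1) + S.α (n + 2) + S.α (n + 3) + S.β n) := by rw [hL, hpa]
    have f1 : S.α (n + 1) = w := by rw [e4, hq] at f0; linarith
    have f3 : S.α (n + 3) = w := by rw [e4, hq] at f0; linarith
    have fW : S.W h n + S.W h (n + 1) + S.W h m + S.W h (m + 1) = Y := by
      rw [e4, hq] at f0; linarith
    have y12 : dval D.θ (S.a (n + 2)) = dval D.θ (S.a (n + 1)) := by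
      rw [f1] at a1
      have : (dval D.θ (S.a (n + 2)) - dval D.θ (S.a (n + 1))) ^ 2 = 0 := by linarith
      have := pow_eq_zero_iff two_ne_zero |>.1 this
      linarith
    have y30 : dval D.θ (S.a n) = dval D.θ (S.a (n + 3)) := by
      rw [f3] at a3
      have : (dval D.θ (S.a n) - dval D.θ (S.a (n + 3))) ^ 2 = 0 := by linarith
      have := pow_eq_zero_iff two_ne_zero |>.1 this
      linarith
    -- lateral edges
    have w1 := W_ge D h n
    have w2 := W_ge D h (n + 1)
    have w3 := W_ge D h m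
    have w4 := W_ge D h (m + 1)
    have hmk := mink h (D.Hp - D.v) (D.Hm + D.v)
    have em1 : D.Hp - D.v + (D.Hm + D.v) = w := by rw [hwdef]; ring
    rw [em1] at hmk
    have em2 : (-D.Hm - D.v) ^ 2 = (D.Hm + D.v) ^ 2 := by ring
    rw [p1] at w1
    rw [p2] at w2
    rw [q1, em2] at w3
    rw [q2, em2] at w4
    have m1 : √(h ^ 2 + (D.Hp - D.v) ^ 2) + √(h ^ 2 + (D.Hm + D.v) ^ 2) =
        √(4 * h ^ 2 + (D.Hp - D.v + (D.Hm + D.v)) ^ 2) := by rw [em1]; linarith
    have m2 := mink_eq hh m1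
    have wd : ∀ j, S.W h j = √(h ^ 2 + (val D.θ (S.a j) - D.v) ^ 2) →
        dval D.θ (S.b j) = dval D.θ (S.a j) := by
      intro j hj
      rw [W, norm_pt_sub] at hj
      have h1 := (Real.sqrt_inj (by positivity) (by positivity)).1 hj
      rw [norm_sq_val D.θ, val_sub, D.hB _ (S.b_mem j), dval_sub] at h1
      have h2 : (dval D.θ (S.a j) - dval D.θ (S.b j)) ^ 2 = 0 := by linarith
      have := pow_eq_zero_iff two_ne_zero |>.1 h2
      linarith
    have x1 : dval D.θ (S.b n) = dval D.θ (S.a n) := wd n (by rw [p1]; linarith)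
    have x2 : dval D.θ (S.b (n + 1)) = dval D.θ (S.a (n + 1)) := wd (n + 1) (by rw [p2]; linarith)
    have x3 : S.β n = S.α n := by
      rw [a0, β, hdn, dval_sub, x1, x2]
    have x4 : S.α n = w := by
      have : S.α (n + 2) = S.α n := by rw [a2, a0, y12, ← y30]
      rw [hq, x3, this] at e6
      linarith
    have hh2 : h ^ 2 = 3 / 4 * w ^ 2 := by
      have : √(4 * h ^ 2 + w ^ 2) ^ 2 = 4 * h ^ 2 + w ^ 2 := Real.sq_sqrt (by positivity)
      rw [e5] at this
      linarith
    -- the vertices of `B`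
    have hβz : ∀ j, val D.θ (S.a (j + 1)) ≠ val D.θ (S.a j) → S.b (j + 1) = S.b j := by
      intro j hj
      by_contra hne'
      have hβj : 0 < S.β j := by
        rw [← S.norm_b]
        exact norm_pos_iff.2 (sub_ne_zero.2 hne')
      rcases eps_cases D hβj with h' | h'
      · exact hj ((plus_vals D h'.1).2.trans (plus_vals D h'.1).1.symm)
      · exact hj ((minus_vals D h'.1).2.trans (minus_vals D h'.1).1.symm)
    have hb2 : S.b (n + 2) = S.b (n + 1) := hβz (n + 1) (by
      rw [show n + 1 + 1 = n + 2 by ring, r2, p2]; intro e; linarith)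
    have hper4a : ∀ j, S.a (j + 4) = S.a j := by have := S.aper; rwa [hk] at this
    have hper4b : ∀ j, S.b (j + 4) = S.b j := by have := S.bper; rwa [hk] at this
    have hb3 : S.b (n + 3) = S.b n := by
      have := hβz (n + 3) (by
        rw [show n + 3 + 1 = n + 4 by ring, hper4a, r3, p1]; intro e; linarith)
      rw [show n + 3 + 1 = n + 4 by ring, hper4b] at this
      exact this.symm
    -- translation vector
    have v1 : val D.θ (S.b n) = D.v := D.hB _ (S.b_mem _)
    have v2 : val D.θ (S.b (n + 1)) = D.v := D.hB _ (S.b_mem _)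
    set U : ℂ := S.a (n + 1) - S.a n with hU
    have hUv : val D.θ U = 0 := by rw [hU, val_sub, p1, p2, sub_self]
    have hUd : dval D.θ U = w := by rw [hU, dval_sub, ← a0, x4]
    have u2 : S.a (n + 2) = S.a (n + 3) + U := by
      apply ext_val D.θ
      · rw [val_add, hUv, r2, r3]; ring
      · rw [dval_add, hUd, y12, ← y30]; linarith
    have u3 : S.b (n + 1) = S.b n + U := by
      apply ext_val D.θ
      · rw [val_add, hUv, v1, v2]; ring
      · rw [dval_add, hUd, x1, x2]; linarith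
    have u1 : S.a (n + 1) = S.a n + U := by rw [hU]; ring
    have hHv : D.Hp - D.v = w / 2 := by linarith
    have hHv' : D.Hm + D.v = w / 2 := by linarith
    -- the prism
    have hdist : ∀ (z z' : ℂ) (t t' : ℝ), dist (pt z t) (pt z' t') =
        √((val D.θ z - val D.θ z') ^ 2 + (dval D.θ z - dval D.θ z') ^ 2 + (t - t') ^ 2) := by
      intro z z' t t'
      rw [dist_eq_norm, norm_pt_sub, norm_sq_val D.θ, val_sub, dval_sub]
    have hsw : √(w ^ 2) = w := Real.sqrt_sq hw.le
    have d1 : dist (pt (S.a n) 0) (pt (S.a (n + 3)) 0) = w := by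
      rw [hdist, p1, r3, y30, ← hsw]; congr 1; rw [hwdef]; ring
    have d2 : dist (pt (S.a n) 0) (pt (S.b n) h) = w := by
      rw [hdist, p1, v1, x1, hHv, ← hsw]; congr 1
      have : (0 - h) ^ 2 = h ^ 2 := by ring
      rw [this, hh2, hsw]; ring
    have d3 : dist (pt (S.a (n + 3)) 0) (pt (S.b n) h) = w := by
      rw [hdist, r3, v1, x1, ← y30, ← hsw]; congr 1
      have : (0 - h) ^ 2 = h ^ 2 := by ring
      have e' : -D.Hm - D.v = -(w / 2) := by linarith
      rw [this, hh2, e']; ring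
    refine ⟨![pt (S.a n) 0, pt (S.a (n + 3)) 0, pt (S.b n) h], pt U 0, w, hw, ?_, ?_, ?_, ?_⟩
    · intro i j hij
      fin_cases i <;> fin_cases j <;> first | exact absurd rfl hij | skip
      · simpa using d1
      · simpa using d2
      · simpa [dist_comm] using d1
      · simpa using d3
      · simpa [dist_comm] using d2
      · simpa [dist_comm] using d3
    · have e0 : pt U 0 = pt U 0 - pt 0 0 := by
        have : pt 0 0 = 0 := by
          ext i; fin_cases i <;> rfl
        rw [this, sub_zero]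
      rw [e0, norm_pt_sub, sub_zero, sub_self, norm_sq_val D.θ, hUv, hUd, ← hsw]
      congr 1
      rw [hsw]; ring
    · have hin : ∀ (z z' : ℂ) (t t' : ℝ), val D.θ z * 0 = 0 →
          inner ℝ (pt z t - pt z' t') (pt U 0) =
            (val D.θ z - val D.θ z') * val D.θ U + (dval D.θ z - dval D.θ z') * dval D.θ U := by
        intro z z' t t' _
        simp only [PiLp.inner_apply, Fin.sum_univ_three, PiLp.sub_apply, pt_0, pt_1, pt_2,
          RCLike.inner_apply, conj_trivial, mul_zero, zero_mul, add_zero]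
        simp only [val, dval]
        linear_combination (-(U.re * (z.re - z'.re) + U.im * (z.im - z'.im))) *
          (Real.sin_sq_add_cos_sq D.θ)
      intro i j
      fin_cases i <;> fin_cases j <;> simp only [Fin.zero_eta, Fin.mk_one, Fin.reduceFinMk,
        Matrix.cons_val_zero, Matrix.cons_val_one, Matrix.cons_val, sub_self, inner_zero_left] <;>
        rw [hin _ _ _ _ (mul_zero _), hUv, mul_zero, zero_add]
      · rw [y30]; ring
      · rw [x1]; ring
      · rw [y30]; ring
      · rw [x1, y30]; ring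
      · rw [x1]; ring
      · rw [x1, y30]; ring
    · rw [S.Pr_eq h]
      congr 1
      have hamod : ∀ j, S.a (j % 4) = S.a j := by
        have := periodic_mod S.hk S.aper
        rwa [hk] at this
      have hbmod : ∀ j, S.b (j % 4) = S.b j := by
        have := periodic_mod S.hk S.bper
        rwa [hk] at this
      have hcases : ∀ j, (S.a j = S.a n ∨ S.a j = S.a (n + 1) ∨ S.a j = S.a (n + 2) ∨
          S.a j = S.a (n + 3)) ∧ (S.b j = S.b n ∨ S.b j = S.b (n + 1)) := by
        intro j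
        have h0 : j % 4 = n % 4 ∨ j % 4 = (n + 1) % 4 ∨ j % 4 = (n + 2) % 4 ∨
          j % 4 = (n + 3) % 4 := by omega
        rw [← hamod j, ← hbmod j]
        rcases h0 with h0 | h0 | h0 | h0 <;> rw [h0, hamod, hbmod]
        · exact ⟨Or.inl rfl, Or.inl rfl⟩
        · exact ⟨Or.inr (Or.inl rfl), Or.inr rfl⟩
        · exact ⟨Or.inr (Or.inr (Or.inl rfl)), Or.inr hb2⟩
        · exact ⟨Or.inr (Or.inr (Or.inr rfl)), Or.inl hb3⟩
      have hadd : ∀ (z : ℂ) (t : ℝ), pt z t + pt U 0 = pt (z + U) t := by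
        intro z t
        ext i
        fin_cases i
        · simp [pt]
        · simp [pt]
        · simp [pt]
      apply Subset.antisymm
      · rintro x (⟨j, rfl⟩ | ⟨j, rfl⟩)
        · simp only
          rcases (hcases j).1 with h' | h' | h' | h' <;> rw [h']
          · exact Or.inl ⟨0, rfl⟩
          · refine Or.inr ⟨0, ?_⟩
            simp only [Matrix.cons_val_zero]
            rw [hadd, u1]
          · refine Or.inr ⟨1, ?_⟩
            simp only [Matrix.cons_val_one, Matrix.cons_val_zero]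
            rw [hadd, u2]
          · exact Or.inl ⟨1, rfl⟩
        · simp only
          rcases (hcases j).2 with h' | h' <;> rw [h']
          · exact Or.inl ⟨2, rfl⟩
          · refine Or.inr ⟨2, ?_⟩
            simp only [Matrix.cons_val]
            rw [hadd, u3]
      · rintro x (⟨j, rfl⟩ | ⟨j, rfl⟩)
        · fin_cases j
          · exact Or.inl ⟨n, rfl⟩
          · exact Or.inl ⟨n + 3, rfl⟩
          · exact Or.inr ⟨n, rfl⟩
        · fin_cases j
          · refine Or.inl ⟨n + 1, ?_⟩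
            simp only [Fin.zero_eta, Matrix.cons_val_zero]
            rw [hadd, u1]
          · refine Or.inl ⟨n + 2, ?_⟩
            simp only [Fin.mk_one, Matrix.cons_val_one, Matrix.cons_val_zero]
            rw [hadd, u2]
          · refine Or.inr ⟨n + 1, ?_⟩
            simp only [Fin.reduceFinMk, Matrix.cons_val]
            rw [hadd, u3]
  · -- at least five lateral edges: strict inequality
    set q := S.pA + S.β n with hq
    have hq0 : 0 ≤ q := by rw [hq]; linarith
    have s1 := scal_w5 hh hw hq0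
    have hkR5 : (5 : ℝ) ≤ S.k := by exact_mod_cast hk5
    have hVq : V ≤ h * w / 6 * (q - π * w / 2) := by
      have := sh_a_le D
      rw [← hwdef] at this
      rw [hV, hq]
      have h1 : h * (sh S.k S.a / 3) ≤ h * ((S.pA * w / 2 - π * w ^ 2 / 4) / 3) :=
        mul_le_mul_of_nonneg_left (by linarith) hh.le
      nlinarith
    have hLge : q + 2 * √(4 * h ^ 2 + w ^ 2) + h ≤ L := by
      have : h ≤ (S.k - 4 : ℝ) * h := by nlinarith
      rw [hL, hq]
      linarith
    have hmain : 972 * √3 * V < L ^ 3 := by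
      have h1 : 972 * √3 * V ≤ 972 * √3 * (h * w / 6 * (q - π * w / 2)) :=
        mul_le_mul_of_nonneg_left hVq (by positivity)
      have h2 : (q + 2 * √(4 * h ^ 2 + w ^ 2) + h) ^ 3 ≤ L ^ 3 :=
        pow_le_pow_left₀ (by positivity) hLge 3
      linarith
    obtain ⟨g1, g2⟩ := chain hV0 hL0 hvol hzeta hmain.le
    refine ⟨g1, fun hne he => ?_⟩
    obtain ⟨_, e1⟩ := g2 hne he
    exact absurd e1 hmain.ne

end Sw

end Pool.Agent.Work.MP_3892ce_gt.helper74
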